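import Pool.Agent.Lib.BF40.Cone

/- Lipschitz families of affine equivalences of sections. -/

namespace Pool.Agent.Lib.BF40

open Filter Topology Set Pointwise

variable {E : Type*} [NormedAddCommGroup E] [NormedSpace ℝ E]

/-- splitting of the product submodule -/
def prEquiv (X : Submodule ℝ E) : ((⊤ : Submodule ℝ ℝ).prod X) ≃ₗ[ℝ] ℝ × X where
  toFun z := (z.1.1, ⟨z.1.2, z.2.2⟩)
  invFun p := ⟨(p.1, p.2), trivial, p.2.2⟩
  map_add' _ _ := rfl
  map_smul' _ _ := rfl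
  left_inv _ := rfl
  right_inv _ := rfl

/-- homogenised equivalence -/
def homEquiv {X X' : Submodule ℝ E} (T : X ≃ₗ[ℝ] X') (z0 : X') :
    ((⊤ : Submodule ℝ ℝ).prod X) ≃ₗ[ℝ] ((⊤ : Submodule ℝ ℝ).prod X') :=
  (prEquiv X).trans (((LinearEquiv.refl ℝ ℝ).skewProd T (LinearMap.toSpanSingleton ℝ X' z0)).trans
    (prEquiv X').symm)

theorem dc_equiv {K : Set E} {X X' : Submodule ℝ E} {P P' : E →L[ℝ] E} (hi : ∀ y ∈ X, P y = y)
    (hi' : ∀ y ∈ X', P' y = y) {a a' : E} (T : X ≃ₗ[ℝ] X') (z0 : X')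
    (h : ∀ x : X, a + x ∈ K ↔ a' + (z0 + T x) ∈ K) (z : (⊤ : Submodule ℝ ℝ).prod X) :
    (homEquiv T z0 z : ℝ × E) ∈ dc {x | x ∈ X' ∧ a' + x ∈ K} P' ↔
      (z : ℝ × E) ∈ dc {x | x ∈ X ∧ a + x ∈ K} P := by
  have e1 : (homEquiv T z0 z : ℝ × E).1 = z.1.1 := rfl
  have e2 : (homEquiv T z0 z : ℝ × E).2 = ((z.1.1 • z0 + T ⟨z.1.2, z.2.2⟩ : X') : E) := by
    rw [add_comm]; rfl
  constructor
  · rintro ⟨x1, ⟨h1, k1⟩, x2, ⟨h2, k2⟩, l, hl, f1, f2⟩
    rw [e1] at f1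
    rw [hi' _ (homEquiv T z0 z).2.2, e2] at f2
    refine ⟨(T.symm (⟨x1, h1⟩ - z0) : X), ⟨Subtype.property _, (h _).2 (by simpa using k1)⟩,
      (T.symm (⟨x2, h2⟩ - z0) : X), ⟨Subtype.property _, (h _).2 (by simpa using k2)⟩, l, hl, f1, ?_⟩
    rw [hi _ z.2.2]
    have f3 : z.1.1 • z0 + T ⟨z.1.2, z.2.2⟩ = l • ⟨x1, h1⟩ - (1 - l) • ⟨x2, h2⟩ := Subtype.ext f2
    have f4 : (⟨z.1.2, z.2.2⟩ : X) = l • T.symm (⟨x1, h1⟩ - z0) - (1 - l) • T.symm (⟨x2, h2⟩ - z0) := by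
      apply T.injective
      rw [map_sub, map_smul, map_smul, T.apply_symm_apply, T.apply_symm_apply,
        eq_sub_of_add_eq' f3, f1]
      module
    exact congrArg Subtype.val f4
  · rintro ⟨x1, ⟨h1, k1⟩, x2, ⟨h2, k2⟩, l, hl, f1, f2⟩
    rw [hi _ z.2.2] at f2
    refine ⟨(z0 + T ⟨x1, h1⟩ : X'), ⟨Subtype.property _, (h ⟨x1, h1⟩).1 k1⟩,
      (z0 + T ⟨x2, h2⟩ : X'), ⟨Subtype.property _, (h ⟨x2, h2⟩).1 k2⟩, l, hl, f1, ?_⟩
    rw [hi' _ (homEquiv T z0 z).2.2, e2]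
    have f3 : (⟨z.1.2, z.2.2⟩ : X) = l • ⟨x1, h1⟩ - (1 - l) • ⟨x2, h2⟩ := Subtype.ext f2
    have f4 : z.1.1 • z0 + T ⟨z.1.2, z.2.2⟩ = l • (z0 + T ⟨x1, h1⟩) - (1 - l) • (z0 + T ⟨x2, h2⟩) := by
      rw [f3, map_sub, map_smul, map_smul, f1]
      module
    exact congrArg Subtype.val f4

theorem aff_lift [FiniteDimensional ℝ E] {N : ℕ} {K : Set E} (hK : Convex ℝ K) (hKc : IsClosed K)
    (X : (Fin N → ℝ) → Submodule ℝ E) (P : (Fin N → ℝ) → E →L[ℝ] E) (a : (Fin N → ℝ) → E)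
    {L La : NNReal} {R r : ℝ} (hP : LipschitzWith L P) (ha : LipschitzWith La a)
    (hm : ∀ w y, P w y ∈ X w) (hi : ∀ w, ∀ y ∈ X w, P w y = y) (hb : ∀ w, ‖P w‖ ≤ 1)
    (hR : ∀ w x, a w + x ∈ K → ‖x‖ ≤ R) (hr : 0 < r)
    (hin : ∀ w, ∃ p ∈ X w, Metric.ball (a w + p) r ⊆ K)
    (hiso : ∀ w, ∃ (T : X 0 ≃ₗ[ℝ] X w) (z : X w), ∀ x : X 0, a 0 + x ∈ K ↔ a w + (z + T x) ∈ K) :
    ∃ (c : (Fin N → ℝ) → E) (A : (Fin N → ℝ) → X 0 →L[ℝ] E) (Lc LA : NNReal), LipschitzWith Lc c ∧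
      LipschitzWith LA A ∧ ∀ w ∈ Icc (fun _ => (-1 : ℝ)) (fun _ => 1), c w - a w ∈ X w ∧
        (∀ x, A w x ∈ X w) ∧ (∀ x, A w x = 0 → x = 0) ∧ (∀ h ∈ X w, ∃ x, A w x = h) ∧
        ∀ x : X 0, a 0 + x ∈ K ↔ c w + A w x ∈ K := by
  choose p hp1 hp2 using hin
  have hpK : ∀ w, a w + p w ∈ K := fun w => hp2 w (Metric.mem_ball_self hr)
  have hR0 : 0 ≤ R := (norm_nonneg _).trans (hR 0 _ (hpK 0))
  set S : (Fin N → ℝ) → Set E := fun w => {x | x ∈ X w ∧ a w + x ∈ K} with hS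
  have Sc : ∀ w, Convex ℝ (S w) := fun w => (X w).convex.inter (hK.translate_preimage_right (a w))
  have Scl : ∀ w, IsClosed (S w) := fun w =>
    (X w).closed_of_finiteDimensional.inter (hKc.preimage (continuous_const_add (a w)))
  have SR : ∀ w, ∀ x ∈ S w, ‖x‖ ≤ R := fun w x hx => hR w x hx.2
  set ρ : NNReal := ⟨min (1 / 2) (r / (4 * (1 + R))), by positivity⟩ with hρ
  have hρ0 : 0 < ρ := show (0 : ℝ) < min (1 / 2) (r / (4 * (1 + R))) by positivity
  have bl : ∀ w, Metric.ball (0 : ℝ × E) ρ ⊆ dc (S w) (P w) := fun w =>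
    dc_ball (hm w) (hb w) hr (hp1 w) (hR w _ (hpK w)) fun h hh hn =>
      ⟨(X w).add_mem (hp1 w) hh, hp2 w (by
        rwa [mem_ball_iff_norm, ← add_assoc, add_sub_cancel_left])⟩
  have nh : ∀ w, dc (S w) (P w) ∈ 𝓝 (0 : ℝ × E) := fun w =>
    mem_of_superset (Metric.ball_mem_nhds _ (show (0 : ℝ) < ρ from hρ0)) (bl w)
  set γ : (Fin N → ℝ) → ℝ × E → ℝ := fun w => gauge (dc (S w) (P w)) with hγ
  have γn : ∀ w z, γ w (-z) = γ w z := fun w => gauge_neg (dc_neg _)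
  have γ1 : ∀ w z, |z.1| ≤ γ w z := fun w z => le_gauge (nh w) fun b hb' z' hz' e => by
    rw [e, Prod.smul_fst, smul_eq_mul, abs_mul, abs_of_pos hb']
    nlinarith [(dc_norm (SR w) hz').1]
  have γ2 : ∀ w (z : ℝ × E), z.2 ∈ X w → ‖z‖ / (R + 1) ≤ γ w z := fun w z hz =>
    le_gauge (nh w) fun b hb' z' hz' e => by
      have a1 : z'.2 ∈ X w := by
        have := (X w).smul_mem b⁻¹ hz
        rwa [e, Prod.smul_snd, smul_smul, inv_mul_cancel₀ hb'.ne', one_smul] at this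
      obtain ⟨a2, a3⟩ := dc_norm (SR w) hz'
      rw [hi w _ a1] at a3
      rw [div_le_iff₀ (by positivity), e, norm_smul, Real.norm_eq_abs, abs_of_pos hb']
      gcongr
      exact max_le (by rw [Real.norm_eq_abs]; linarith) (by linarith)
  have Pd : ∀ w w', ‖P w - P w'‖ ≤ L * ‖w - w'‖ := fun w w' => by
    simpa [dist_eq_norm] using hP.dist_le_mul w w'
  have γ3 : ∀ w w' z, γ w' z ≤ γ w z + (ρ : ℝ)⁻¹ * (L + (ρ : ℝ)⁻¹ *
      ((1 + 2 * (R + R) / r) * (La + L * R))) * ‖w - w'‖ * ‖z‖ := fun w w' z => by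
    have := dc_lip (Sc w') hρ0 (Sc w) (bl w) (bl w') (fun y => hi w' _ (hm w' y))
      (fun x hx => hi w' x hx.1) (d := L * ‖w - w'‖)
      (e := (1 + 2 * (R + R) / r) * ((La + L * R) * ‖w - w'‖))
      (by rw [norm_sub_rev]; exact Pd w w') (by positivity) (fun x hx => by
        have a1 : ‖x - P w' x‖ ≤ L * R * ‖w - w'‖ := by
          calc ‖x - P w' x‖ = ‖(P w - P w') x‖ := by
                rw [ContinuousLinearMap.sub_apply, hi w x hx.1]
            _ ≤ (L * ‖w - w'‖) * R := ((P w - P w').le_opNorm x).trans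
                (mul_le_mul (Pd w w') (SR w x hx) (norm_nonneg _) (by positivity))
            _ = _ := by ring
        have a2 : ‖a w - a w'‖ ≤ La * ‖w - w'‖ := by
          simpa [dist_eq_norm] using ha.dist_le_mul w w'
        have a3 : 0 ≤ (La : ℝ) * ‖w - w'‖ := by positivity
        refine sec_close hK (hm w') hr (hp1 w') (hp2 w') hx.2 ((norm_sub_le _ _).trans
          (add_le_add ?_ (hR w' _ (hpK w')))) ?_ (by linarith)
        · exact ((P w').le_opNorm x).trans (by nlinarith [hb w', SR w x hx, norm_nonneg x])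
        · rw [show a w' + P w' x - (a w + x) = -((a w - a w') + (x - P w' x)) by abel, norm_neg]
          exact (norm_add_le _ _).trans (by linarith)) z
    refine this.trans (le_of_eq ?_)
    ring
  obtain ⟨A, M, hA, H⟩ := lift2 (fun w => (⊤ : Submodule ℝ ℝ).prod (X w))
    (fun w => (ContinuousLinearMap.id ℝ ℝ).prodMap (P w)) (L := L) (Pb := 1) L.2
    (fun w w' => ContinuousLinearMap.opNorm_le_bound _ (by positivity) fun z => by
      rw [Prod.norm_def]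
      refine max_le (by simp; positivity) ?_
      exact ((P w - P w').le_opNorm z.2).trans
        (mul_le_mul (Pd w w') (norm_snd_le z) (norm_nonneg _) (by positivity)))
    (fun w y => ⟨trivial, hm w _⟩) (fun w y hy => Prod.ext rfl (hi w _ hy.2))
    (fun w => ContinuousLinearMap.opNorm_le_bound _ zero_le_one fun z => by
      rw [Prod.norm_def, one_mul]
      exact max_le (norm_fst_le z) (((P w).le_opNorm z.2).trans
        (by nlinarith [hb w, norm_snd_le z, norm_nonneg z.2])))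
    (Φ := fun w z => γ w z + z.1 / 2) (K := (ρ : ℝ)⁻¹ + 1 / 2) (c := 1 / (2 * (R + 1)))
    (D := (ρ : ℝ)⁻¹ * (L + (ρ : ℝ)⁻¹ * ((1 + 2 * (R + R) / r) * (La + L * R)))) (by positivity)
    (fun w x y => by
      have a1 := ((dc_convex (Sc w) (P w)).lipschitzWith_gauge hρ0 (bl w)).dist_le_mul x y
      rw [Real.dist_eq, dist_eq_norm, NNReal.coe_inv, abs_le] at a1
      have a2 : |x.1 - y.1| ≤ ‖x - y‖ := norm_fst_le (x - y)
      rw [abs_le] at a2 ⊢
      simp only [hγ]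
      constructor <;> linarith [a1.1, a1.2, a2.1, a2.2]) (by positivity)
    (fun w w' z => by
      have a1 := γ3 w w' z
      have a2 := γ3 w' w z
      rw [norm_sub_rev w'] at a2
      rw [abs_le]
      constructor <;> linarith) (by positivity)
    (fun w z hz => by
      have a1 := γ2 w z hz.2
      have a2 := (abs_le.1 (γ1 w z)).1
      rw [show 1 / (2 * (R + 1)) * ‖z‖ = ‖z‖ / (R + 1) / 2 by field_simp]
      linarith) (fun w => by simp [hγ])
    (fun w => by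
      obtain ⟨T, z0, h⟩ := hiso w
      refine ⟨homEquiv T z0, fun z => ?_⟩
      congr 1
      simp only [hγ, gauge_def']
      congr 1
      ext b
      have := dc_equiv (hi 0) (hi w) T z0 h (b⁻¹ • z)
      rw [map_smul] at this
      exact and_congr_right fun _ => this)
  have H1 : ∀ w ∈ Icc (fun _ => (-1 : ℝ)) (fun _ => 1), ∀ z, (A w z).1 = z.1.1 ∧
      γ w (A w z) = γ 0 z := fun w hw z => by
    have a1 := (H w hw z).2
    have a2 := (H w hw (-z)).2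
    simp only [map_neg, Submodule.coe_neg, γn, Prod.fst_neg] at a1 a2
    constructor <;> linarith
  set j : X 0 →L[ℝ] (⊤ : Submodule ℝ ℝ).prod (X 0) :=
    ((0 : X 0 →L[ℝ] ℝ).prod (X 0).subtypeL).codRestrict _ (fun x => ⟨trivial, x.2⟩) with hj
  set z1 : (⊤ : Submodule ℝ ℝ).prod (X 0) := ⟨(1, 0), trivial, (X 0).zero_mem⟩ with hz1
  set U : (((⊤ : Submodule ℝ ℝ).prod (X 0)) →L[ℝ] ℝ × E) → X 0 →L[ℝ] E :=
    fun B => (ContinuousLinearMap.snd ℝ ℝ E).comp (B.comp j) with hU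
  have eU : ∀ B x, U B x = (B (j x)).2 := fun _ _ => rfl
  have lU : LipschitzWith M fun w => U (A w) := LipschitzWith.of_dist_le_mul fun w w' => by
    rw [dist_eq_norm]
    refine ContinuousLinearMap.opNorm_le_bound _ (by positivity) fun x => ?_
    have a1 := hA.dist_le_mul w w'
    rw [dist_eq_norm] at a1
    have a2 : ‖j x‖ ≤ ‖x‖ := max_le (by simp [hj]) le_rfl
    exact (norm_snd_le ((A w - A w') (j x))).trans (((A w - A w').le_opNorm _).trans
      (mul_le_mul a1 a2 (norm_nonneg _) (by positivity)))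
  have lz : LipschitzWith (M * ‖z1‖₊) fun w => (A w z1).2 := LipschitzWith.of_dist_le_mul fun w w' => by
    have a1 := hA.dist_le_mul w w'
    rw [dist_eq_norm] at a1 ⊢
    refine (norm_snd_le ((A w - A w') z1)).trans (((A w - A w').le_opNorm _).trans ?_)
    rw [NNReal.coe_mul, coe_nnnorm, mul_right_comm]
    gcongr
  refine ⟨fun w => a w + (A w z1).2, fun w => U (A w), _, _, ha.add lz, lU, fun w hw => ?_⟩
  have inj : ∀ x, U (A w) x = 0 → x = 0 := fun x hx => by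
    have a1 : A w (j x) = 0 := Prod.ext (H1 w hw _).1 hx
    have a2 := (H1 w hw (j x)).2
    have a3 := γ2 0 (j x) (j x).2.2
    rw [← a2, a1, hγ] at a3
    simp only [gauge_zero] at a3
    have a4 : ‖x‖ ≤ ‖(j x : ℝ × E)‖ := norm_snd_le (j x : ℝ × E)
    rw [div_nonpos_iff] at a3
    refine norm_le_zero_iff.1 ?_
    rcases a3 with a3 | a3 <;> linarith [a3.1, a3.2]
  refine ⟨by simpa using (H w hw z1).1.2, fun x => (H w hw _).1.2, inj, fun h hh => ?_, fun x => ?_⟩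
  · obtain ⟨T, -⟩ := hiso w
    set B' : X 0 →ₗ[ℝ] X w := (U (A w) : X 0 →ₗ[ℝ] E).codRestrict _ (fun x => (H w hw _).1.2)
    have i1 : Function.Injective B' := by
      rw [injective_iff_map_eq_zero]
      exact fun x hx => inj x (congrArg Subtype.val hx)
    obtain ⟨x, hx⟩ := (LinearMap.injective_iff_surjective_of_finrank_eq_finrank T.finrank_eq).1 i1
      ⟨h, hh⟩
    exact ⟨x, congrArg Subtype.val hx⟩
  · have e0 : ((z1 + j x : (⊤ : Submodule ℝ ℝ).prod (X 0)) : ℝ × E) = (1, (x : E)) := by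
      simp [hz1, hj]
    have a1 := H1 w hw (z1 + j x)
    have a2 := (H w hw (z1 + j x)).1.2
    rw [e0] at a1
    have e1 : A w (z1 + j x) = (1, (A w (z1 + j x)).2) := Prod.ext a1.1 rfl
    have a3 := dc_top (Scl 0) (SR 0) (nh 0) (hi 0 x x.2)
    have a4 := dc_top (Scl w) (SR w) (nh w) (hi w _ a2)
    rw [← e1] at a4
    have a5 : gauge (dc (S w) (P w)) (A w (z1 + j x)) = gauge (dc (S 0) (P 0)) (1, (x : E)) := a1.2
    rw [a5, a3] at a4
    have e2 : a w + (A w z1).2 + U (A w) x = a w + (A w (z1 + j x)).2 := by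
      rw [eU, map_add, Prod.snd_add, add_assoc]
    rw [e2]
    exact ⟨fun h => (a4.1 ⟨x.2, h⟩).2, fun h => (a4.2 ⟨a2, h⟩).2⟩

end Pool.Agent.Lib.BF40
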