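import Pool.Agent.Lib.BF40.Core2
import Pool.Agent.Lib.BF40.AffLift

/- Lipschitz fields of affinely equivalent sections of a convex body. -/

namespace Pool.Agent.Lib.BF40

open Filter Topology Set

variable {E : Type*} [NormedAddCommGroup E] [InnerProductSpace ℝ E] [FiniteDimensional ℝ E]

omit [FiniteDimensional ℝ E] in
theorem gauge_facts {K : Set E} (hK : Convex ℝ K) (hc : IsCompact K) {p : E} (hp : p ∈ interior K) :
    ∃ (Φ : E → ℝ) (L : NNReal), LipschitzWith L Φ ∧ (∀ y, y ≠ 0 → 0 < Φ y) ∧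
      (∀ t : ℝ, 0 ≤ t → ∀ y, Φ (t • y) = t * Φ y) ∧ (∀ y, Φ y ≤ 1 ↔ p + y ∈ K) ∧
      ∀ y, Φ y < 1 ↔ p + y ∈ interior K := by
  set s : Set E := (fun y => p + y) ⁻¹' K with hs
  have c1 : Convex ℝ s := hK.translate_preimage_right p
  have e1 : interior s = (fun y => p + y) ⁻¹' interior K :=
    ((Homeomorph.addLeft p).preimage_interior K).symm
  have n1 : s ∈ 𝓝 (0 : E) := mem_interior_iff_mem_nhds.1 (by rw [e1]; simpa using hp)
  have k1 : IsCompact s := (Homeomorph.addLeft p).isCompact_preimage.2 hc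
  obtain ⟨L, hL⟩ := c1.lipschitz_gauge n1
  refine ⟨gauge s, L, hL, fun y hy => (gauge_pos (absorbent_nhds_zero n1)
    (k1.totallyBounded.isVonNBounded ℝ)).2 hy, fun t ht y => gauge_smul_of_nonneg ht y,
    fun y => ?_, fun y => ?_⟩
  · rw [gauge_le_one_iff_mem_closure c1 n1, k1.isClosed.closure_eq]; rfl
  · rw [gauge_lt_one_iff_mem_interior c1 n1, e1]; rfl

omit [FiniteDimensional ℝ E] in
theorem int_iff {K : Set E} (hK : Convex ℝ K) {p q : E} (hq : q ∈ interior K) {X : Submodule ℝ E}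
    (h : p - q ∈ X) : p ∈ interior K ↔ ∀ v ∈ X, ∃ ε : ℝ, 0 < ε ∧ p + ε • v ∈ K := by
  constructor
  · intro hp v _
    have c : ContinuousAt (fun t : ℝ => p + t • v) 0 := by fun_prop
    have : ∀ᶠ t : ℝ in 𝓝[>] 0, p + t • v ∈ K :=
      nhdsWithin_le_nhds (c.eventually_mem (by simpa using mem_interior_iff_mem_nhds.1 hp))
    exact ((eventually_mem_nhdsWithin (a := (0 : ℝ)) (s := Ioi 0)).and this).exists
  · intro H
    obtain ⟨ε, hε, h1⟩ := H _ h
    have := hK.combo_interior_self_mem_interior hq h1 (a := ε / (1 + ε)) (b := 1 / (1 + ε))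
      (by positivity) (by positivity) (by field_simp; ring)
    have e : (ε / (1 + ε)) • q + (1 / (1 + ε)) • (p + ε • (p - q)) = p := by
      have h2 : (1 + ε) ≠ 0 := by positivity
      match_scalars <;> field_simp <;> ring
    rwa [e] at this

theorem complete_sq {Y : Type*} [AddCommGroup Y] [Module ℝ Y] [FiniteDimensional ℝ Y]
    (l : Y →ₗ[ℝ] ℝ) (B : Y →ₗ[ℝ] Y →ₗ[ℝ] ℝ) (hB : ∀ x, x ≠ 0 → 0 < B x x) :
    ∃ (z : Y) (B' : Y →ₗ[ℝ] Y →ₗ[ℝ] ℝ), (∀ x, x ≠ 0 → 0 < B' x x) ∧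
      ∀ x, B (z + x) (z + x) + l (z + x) ≤ 1 ↔ B' x x ≤ 1 := by
  have inj : Function.Injective (B + B.flip) := by
    rw [injective_iff_map_eq_zero]
    intro x hx
    by_contra h
    have := LinearMap.congr_fun hx x
    simp only [LinearMap.add_apply, LinearMap.flip_apply, LinearMap.zero_apply] at this
    linarith [hB x h]
  obtain ⟨z, hz⟩ := (LinearMap.injective_iff_surjective_of_finrank_eq_finrank
    (Subspace.dual_finrank_eq (K := ℝ) (V := Y)).symm).1 inj (-l)
  have h1 : ∀ x, B z x + B x z = -l x := fun x => LinearMap.congr_fun hz x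
  have h2 : 0 ≤ B z z := by
    by_cases h : z = 0
    · simp [h]
    · exact (hB z h).le
  refine ⟨z, (1 + B z z)⁻¹ • B, fun x hx => ?_, fun x => ?_⟩
  · have := hB x hx
    simp only [LinearMap.smul_apply, smul_eq_mul]
    positivity
  · simp only [LinearMap.smul_apply, smul_eq_mul, map_add, LinearMap.add_apply]
    rw [← div_eq_inv_mul, div_le_one (by positivity)]
    have := h1 x
    have := h1 z
    constructor <;> intro <;> linarith

theorem unif_ball {V : Type*} [TopologicalSpace V] [CompactSpace V] {K : Set E}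
    (X : V → Submodule ℝ E) (P : V → E →L[ℝ] E) (a : V → E) (hP : Continuous P) (ha : Continuous a)
    (hm : ∀ w y, P w y ∈ X w) (hi : ∀ w, ∀ y ∈ X w, P w y = y)
    (h : ∀ v, ∃ x ∈ X v, a v + x ∈ interior K) :
    ∃ r > 0, ∀ v, ∃ p ∈ X v, Metric.ball (a v + p) r ⊆ K := by
  have := isCompact_univ.induction_on
    (p := fun s : Set V => ∃ r > 0, ∀ v ∈ s, ∃ p ∈ X v, Metric.ball (a v + p) r ⊆ K)
    ⟨1, one_pos, by simp⟩ (fun s t hst ⟨r, hr, H⟩ => ⟨r, hr, fun v hv => H v (hst hv)⟩)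
    (fun s t ⟨r, hr, H⟩ ⟨r', hr', H'⟩ => ⟨min r r', lt_min hr hr', fun v hv => by
      rcases hv with hv | hv
      · obtain ⟨p, h1, h2⟩ := H v hv
        exact ⟨p, h1, (Metric.ball_subset_ball (min_le_left _ _)).trans h2⟩
      · obtain ⟨p, h1, h2⟩ := H' v hv
        exact ⟨p, h1, (Metric.ball_subset_ball (min_le_right _ _)).trans h2⟩⟩)
    (fun v _ => by
      obtain ⟨x, hx, h1⟩ := h v
      obtain ⟨r, hr, h2⟩ := Metric.mem_nhds_iff.1 (mem_interior_iff_mem_nhds.1 h1)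
      have c : Continuous fun w => a w + P w x := ha.add (hP.clm_apply continuous_const)
      refine ⟨(fun w => a w + P w x) ⁻¹' Metric.ball (a v + x) (r / 2), mem_nhdsWithin_of_mem_nhds
        (c.continuousAt.preimage_mem_nhds (by
          rw [hi v x hx]; exact Metric.ball_mem_nhds _ (by positivity))), r / 2, by positivity,
        fun w hw => ⟨P w x, hm w x, (Metric.ball_subset ?_).trans h2⟩⟩
      have : dist (a w + P w x) (a v + x) < r / 2 := hw
      linarith)
  obtain ⟨r, hr, H⟩ := this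
  exact ⟨r, hr, fun v => H v trivial⟩

theorem aff_field {K : Set E} (hK : Convex ℝ K) (hKc : IsCompact K)
    (X : Metric.sphere (0 : E) 1 → Submodule ℝ E) (a : Metric.sphere (0 : E) 1 → E) {L La : NNReal}
    (hL : LipschitzWith L fun v => (X v).starProjection) (ha : LipschitzWith La a)
    (htr : ∀ v, (v : E) ∉ X v) (hin : ∀ v, ∃ x ∈ X v, a v + x ∈ interior K)
    (hiso : ∀ v w, ∃ (T : X v ≃ₗ[ℝ] X w) (z : X w), ∀ x : X v, a v + x ∈ K ↔ a w + (z + T x) ∈ K)
    (v : Metric.sphere (0 : E) 1) :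
    ∃ (z : X v) (B : X v →ₗ[ℝ] X v →ₗ[ℝ] ℝ), (∀ x, x ≠ 0 → 0 < B x x) ∧
      ∀ x : X v, a v + (z + x) ∈ K ↔ B x x ≤ 1 := by
  obtain ⟨N, b, hb0, hb⟩ := exists_basis (X v) (htr v)
  have hv : ‖(v : E)‖ = 1 := by simp
  have pn : ∀ w, ‖phi b w‖ ≠ 0 := fun w => norm_ne_zero_iff.2 (phi_ne b w)
  set ψ : (Fin N → ℝ) → Metric.sphere (0 : E) 1 := fun w => ⟨‖phi b w‖⁻¹ • phi b w, by
    simp [norm_smul, inv_mul_cancel₀ (pn w)]⟩ with hψ
  have out : ∀ w, 1 ≤ ssq w → ψ w = v := fun w hw => Subtype.ext (by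
    have : 0 < ssq w - 1 / 2 := by linarith
    simp only [hψ, phi_out b hw, hb0, norm_smul, hv, Real.norm_eq_abs, abs_of_pos this, mul_one,
      smul_smul, inv_mul_cancel₀ this.ne', one_smul])
  have sm : ContDiff ℝ 2 fun w => (ψ w : E) - v :=
    ((((phi_smooth b).norm ℝ (phi_ne b)).inv pn).smul (phi_smooth b)).sub contDiff_const
  have cs : HasCompactSupport fun w => (ψ w : E) - v := by
    refine HasCompactSupport.intro (isCompact_closedBall (0 : Fin N → ℝ) 1) fun w hw => ?_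
    rw [mem_closedBall_zero_iff, pi_norm_le_iff_of_nonneg zero_le_one] at hw
    push Not at hw
    obtain ⟨i, hi⟩ := hw
    rw [Real.norm_eq_abs] at hi
    have := ssq_ge w i
    rw [← sq_abs] at this
    rw [out w (by nlinarith), sub_self]
  obtain ⟨L1, hL1⟩ := sm.lipschitzWith_of_hasCompactSupport cs (by simp)
  have lψ : LipschitzWith L1 ψ := LipschitzWith.of_dist_le_mul fun w w' => by
    have a2 := hL1.dist_le_mul w w'
    rwa [dist_sub_right, ← Subtype.dist_eq] at a2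
  have hm : ∀ u (y : E), (X u).starProjection y ∈ X u := fun u y =>
    Submodule.starProjection_apply_mem _ y
  have hi : ∀ u, ∀ y ∈ X u, (X u).starProjection y = y := fun u y hy =>
    Submodule.starProjection_eq_self_iff.2 hy
  obtain ⟨r, hr, hball⟩ := unif_ball X _ a hL.continuous ha.continuous hm hi hin
  obtain ⟨R1, hR1⟩ := hKc.isBounded.exists_norm_le
  obtain ⟨R2, hR2⟩ := (isCompact_range ha.continuous).isBounded.exists_norm_le
  obtain ⟨c, A, Lc, LA, lc, lA, H⟩ := aff_lift hK hKc.isClosed (fun w => X (ψ w))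
    (fun w => (X (ψ w)).starProjection) (fun w => a (ψ w)) (R := R1 + R2) (hL.comp lψ) (ha.comp lψ)
    (fun w => hm _) (fun w => hi _) (fun w => Submodule.starProjection_norm_le _)
    (fun w x hx => by
      have := norm_sub_le (a (ψ w) + x) (a (ψ w))
      rw [add_sub_cancel_left] at this
      linarith [hR1 _ hx, hR2 _ (mem_range_self (ψ w))]) hr (fun w => hball _) (fun w => hiso _ _)
  obtain ⟨xo, hxo, ho⟩ := hin v
  obtain ⟨x0', hx0, h0⟩ := hin (ψ 0)
  set x0 : X (ψ 0) := ⟨x0', hx0⟩ with hx0d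
  obtain ⟨Φ, LΦ, Φ1, Φ2, Φ3, Φ4, Φ5⟩ := gauge_facts hK hKc ho
  obtain ⟨n, Ln, n1, n2, n3, n4, n5⟩ := gauge_facts hK hKc h0
  have hint : ∀ w ∈ cube N, ∀ x : X (ψ 0), a (ψ 0) + x ∈ interior K ↔ c w + A w x ∈ interior K := by
    intro w hw x
    obtain ⟨k1, k2, k3, k4, k5⟩ := H w hw
    obtain ⟨q, hq, hq'⟩ := hin (ψ w)
    rw [int_iff hK h0 (X := X (ψ 0)) (by simpa using (X (ψ 0)).sub_mem x.2 hx0),
      int_iff hK hq' (X := X (ψ w)) (by
        rw [show c w + A w x - (a (ψ w) + q) = c w - a (ψ w) + A w x - q by abel]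
        exact (X _).sub_mem ((X _).add_mem k1 (k2 x)) hq)]
    constructor
    · intro G h hh
      obtain ⟨y, rfl⟩ := k4 h hh
      obtain ⟨ε, hε, g⟩ := G y y.2
      refine ⟨ε, hε, ?_⟩
      have := (k5 (x + ε • y)).1 (by simpa [add_assoc] using g)
      simpa [add_assoc] using this
    · intro G y hy
      obtain ⟨ε, hε, g⟩ := G _ (k2 ⟨y, hy⟩)
      refine ⟨ε, hε, ?_⟩
      have := (k5 (x + ε • ⟨y, hy⟩)).2 (by rwa [map_add, map_smul, ← add_assoc])
      simpa [add_assoc] using this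
  have ee : ∀ w (x : X (ψ 0)), a v + xo + (c w + A w x0 - (a v + xo) + A w x) = c w + A w (x0 + x) :=
    fun w x => by rw [map_add]; abel
  obtain ⟨l, B, hB⟩ := core2 b Φ1.continuous Φ2 Φ3 (c := fun w => c w + A w x0 - (a v + xo))
    ((lc.add (lip_app lA x0)).sub (LipschitzWith.const _)) lA (n := fun x => n x)
    (n1.comp (X (ψ 0)).subtypeₗᵢ.lipschitz) (fun y hy => n2 _ (by simpa using hy))
    (fun t ht y => n3 t ht y)
    (fun w hw => by
      rw [Φ5, add_sub_cancel]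
      exact (hint w hw x0).1 h0)
    (fun w hw x => by
      rw [eq_iff_le_not_lt, eq_iff_le_not_lt, Φ4, Φ5, n4, n5, ee, ← hint w hw,
        ← (H w hw).2.2.2.2, add_assoc]
      rfl)
    (fun w hw x hx t ht => by
      obtain ⟨-, k2, k3, -, -⟩ := H w hw
      by_cases h : t = 0
      · exact hx (k3 x (by rw [ht, h, zero_smul]))
      · refine htr (ψ w) ?_
        have := (X (ψ w)).smul_mem (‖phi b w‖⁻¹ * t⁻¹) (k2 x)
        rwa [ht, smul_smul, mul_assoc, inv_mul_cancel₀ h, mul_one] at this)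
    (fun w hw hi => by
      obtain ⟨k1, k2, -, -, -⟩ := H w hw
      rw [out w (ssq_bd hi)] at k1 k2
      refine ⟨hb _ ?_, fun x => hb _ (k2 x)⟩
      rw [show c w + A w x0 - (a v + xo) = c w - a v + A w x0 - xo by abel]
      exact (X v).sub_mem ((X v).add_mem k1 (k2 x0)) hxo)
  have npos : ∀ x : X (ψ 0), x ≠ 0 → 0 < n x ∧ 0 < n (-x : X (ψ 0)) := fun x hx =>
    ⟨n2 _ (by simpa using hx), n2 _ (by simpa using hx)⟩
  obtain ⟨z, B', p1, p2⟩ := complete_sq l B fun x hx => by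
    rw [← (hB x).2]
    exact mul_pos (npos x hx).1 (npos x hx).2
  have mem : ∀ x : X (ψ 0), a (ψ 0) + x0' + x ∈ K ↔ B x x + l x ≤ 1 := fun x => by
    rw [← n4, ← (hB x).1, ← (hB x).2]
    by_cases hx : x = 0
    · have : n 0 = 0 := by simpa using n3 0 le_rfl 0
      simp [hx, this]
    · obtain ⟨a1, a2⟩ := npos x hx
      constructor <;> intro <;> nlinarith
  obtain ⟨T, z1, hT⟩ := hiso v (ψ 0)
  refine ⟨T.symm (x0 + z - z1), B'.compl₁₂ T.toLinearMap T.toLinearMap,
    fun x hx => p1 (T x) (by simpa using hx), fun x => ?_⟩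
  have := hT (T.symm (x0 + z - z1) + x)
  rw [Submodule.coe_add] at this
  rw [this, LinearMap.compl₁₂_apply, ← p2, ← mem, map_add, T.apply_symm_apply]
  refine iff_of_eq (congrArg (· ∈ K) ?_)
  simp only [Submodule.coe_add, Submodule.coe_sub, hx0d, LinearEquiv.coe_coe]
  abel

end Pool.Agent.Lib.BF40
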