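import Mathlib

/- A family of polynomials in two variables whose common complex roots are two given real numbers. -/

namespace Pool.Agent.Lib.BF40

open Filter Topology Set Polynomial

theorem sat_gen {A : Type*} [CommRing A] [IsDomain A] [NormalizedGCDMonoid A] (I : Ideal A[X])
    (hsat : ∀ a : A, a ≠ 0 → ∀ q, C a * q ∈ I → q ∈ I) (hne : ∃ q ∈ I, q ≠ 0) :
    ∃ h ∈ I, h ≠ 0 ∧ ∀ q ∈ I, h ∣ q := by
  classical
  have ex : ∃ n, ∃ q ∈ I, q ≠ 0 ∧ q.natDegree = n := by
    obtain ⟨q, h1, h2⟩ := hne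
    exact ⟨_, q, h1, h2, rfl⟩
  obtain ⟨h0, i0, n0, d0⟩ := Nat.find_spec ex
  have mn : ∀ q ∈ I, q ≠ 0 → h0.primPart.natDegree ≤ q.natDegree := fun q hq hq0 => by
    rw [natDegree_primPart, d0]
    exact Nat.find_min' ex ⟨q, hq, hq0, rfl⟩
  set h := h0.primPart with hh
  have hI : h ∈ I := hsat _ (by rwa [Ne, content_eq_zero_iff]) _
    (by rw [hh, ← eq_C_content_mul_primPart]; exact i0)
  have hn : h ≠ 0 := h0.primPart_ne_zero
  have hp : h.IsPrimitive := h0.isPrimitive_primPart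
  have key : ∀ n, ∀ q ∈ I, q.natDegree = n → ∃ a : A, a ≠ 0 ∧ h ∣ C a * q := by
    intro n
    induction n using Nat.strong_induction_on with
    | _ n ih =>
      intro q hq hd
      by_cases q0 : q = 0
      · exact ⟨1, one_ne_zero, by simp [q0]⟩
      have le := mn q hq q0
      by_cases z : q.natDegree = 0
      · have e := eq_C_of_natDegree_eq_zero (show h.natDegree = 0 by omega)
        refine ⟨h.coeff 0, fun h' => hn (by rw [e, h', C_0]), ?_⟩
        rw [← e]
        exact dvd_mul_right _ _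
      · have lt := natDegree_cancelLeads_lt_of_natDegree_le_natDegree le (Nat.pos_of_ne_zero z)
        obtain ⟨a, ha, hd'⟩ := ih _ (hd ▸ lt) (h.cancelLeads q)
          (I.sub_mem (I.mul_mem_left _ hq) (I.mul_mem_left _ hI)) rfl
        refine ⟨a * h.leadingCoeff, mul_ne_zero ha (leadingCoeff_ne_zero.2 hn), ?_⟩
        rw [cancelLeads, Nat.sub_eq_zero_of_le le, pow_zero, mul_one, mul_sub] at hd'
        rw [C_mul, mul_assoc]
        exact (dvd_sub_left (Dvd.dvd.mul_left (dvd_mul_left _ _) _)).1 hd'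
  refine ⟨h, hI, hn, fun q hq => ?_⟩
  by_cases q0 : q = 0
  · simp [q0]
  obtain ⟨a, ha, hd⟩ := key _ q hq rfl
  have ne : C a * q ≠ 0 := mul_ne_zero (C_ne_zero.2 ha) q0
  rw [← hp.dvd_primPart_iff_dvd ne, (associated_primPart_mul ne).dvd_iff_dvd_right,
    (isUnit_primPart_C a).dvd_mul_left] at hd
  exact (hp.dvd_primPart_iff_dvd q0).1 hd

/-- evaluation of the inner variable -/
noncomputable def evt (t : ℝ) : ℝ[X] →+* ℂ := eval₂RingHom Complex.ofRealHom t

theorem evt_eq (t : ℝ) (a : ℝ[X]) : evt t a = ((a.eval t : ℝ) : ℂ) := by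
  simpa [evt] using eval₂_at_apply (p := a) Complex.ofRealHom t

theorem evt_ne {a : ℝ[X]} (ha : a ≠ 0) : ∀ᶠ t in cofinite, evt t a ≠ 0 := by
  filter_upwards [(finite_setOf_isRoot ha).compl_mem_cofinite] with t ht
  rw [evt_eq]
  exact_mod_cast ht

theorem root_quot {g k : ℂ[X]} {τ : ℂ} (h0 : (g * k).derivative ≠ 0) (hd : g ∣ (g * k).derivative)
    (hr : (g * k).eval τ = 0) : k.eval τ = 0 := by
  by_contra hk
  have n0 : g * k ≠ 0 := fun h => h0 (by simp [h])
  obtain ⟨k', e⟩ := hd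
  have a1 := derivative_rootMultiplicity_of_root (p := g * k) hr
  have a2 : 0 < rootMultiplicity τ (g * k) := rootMultiplicity_pos'.2 ⟨n0, hr⟩
  rw [e, rootMultiplicity_mul (e ▸ h0)] at a1
  rw [rootMultiplicity_mul n0, rootMultiplicity_eq_zero (p := k) hk] at a1 a2
  omega

theorem two_roots {ι : Type*} (f : ι → ℝ[X][X]) (p m : ℝ → ℝ)
    (h1 : ∀ᶠ t in cofinite, ∀ i, ((f i).map (evt t)).eval (p t : ℂ) = 0 ∧
      ((f i).map (evt t)).eval (m t : ℂ) = 0)
    (h2 : ∀ᶠ t in cofinite, ∀ τ : ℂ, (∀ i, ((f i).map (evt t)).eval τ = 0) → τ = p t ∨ τ = m t)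
    (h3 : ∃ i, ∃ κ : ℝ, κ ≠ 0 ∧ (f i).coeff 0 = C κ) :
    ∃ R1 R2 : ℝ[X], ∀ᶠ t in cofinite, 1 + R1.eval t * p t + R2.eval t * p t ^ 2 = 0 ∧
      1 + R1.eval t * m t + R2.eval t * m t ^ 2 = 0 := by
  classical
  let I : Ideal ℝ[X][X] :=
    { carrier := {q | ∀ᶠ t in cofinite, (q.map (evt t)).eval (p t : ℂ) = 0 ∧
        (q.map (evt t)).eval (m t : ℂ) = 0}
      add_mem' := fun ha hb => by
        rw [mem_setOf_eq] at ha hb ⊢
        filter_upwards [ha, hb] with t a b
        simp [a.1, a.2, b.1, b.2]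
      zero_mem' := by simp
      smul_mem' := fun c q hq => by
        rw [mem_setOf_eq] at hq ⊢
        filter_upwards [hq] with t a
        simp [a.1, a.2] }
  have mI : ∀ q, q ∈ I ↔ ∀ᶠ t in cofinite, (q.map (evt t)).eval (p t : ℂ) = 0 ∧
      (q.map (evt t)).eval (m t : ℂ) = 0 := fun q => Iff.rfl
  have fI : ∀ i, f i ∈ I := fun i => h1.mono fun t ht => ht i
  obtain ⟨i0, κ, hκ, e0⟩ := h3
  obtain ⟨h, hI, hn, hd⟩ := sat_gen I (fun a ha q hq =>
    (mI _).2 <| (((mI _).1 hq).and (evt_ne ha)).mono fun t a => by simpa [a.2] using a.1) ⟨f i0, fI i0, fun h => hκ (by simpa [h] using e0.symm)⟩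
  obtain ⟨κ', hκ', e1⟩ : ∃ κ' : ℝ, IsUnit κ' ∧ C κ' = h.coeff 0 := by
    obtain ⟨u, hu⟩ := hd _ (fI i0)
    rw [← Polynomial.isUnit_iff]
    refine isUnit_of_dvd_unit (Dvd.intro (u.coeff 0) ?_) (isUnit_C.2 (Ne.isUnit hκ))
    rw [← e0, hu, mul_coeff_zero]
  have deg : h.natDegree ≤ 2 := by
    by_cases z : h.natDegree = 0
    · omega
    have hn' : h.derivative ≠ 0 := fun h' => z (natDegree_eq_zero_of_derivative_eq_zero h')
    let J : Ideal ℝ[X][X] :=
      { carrier := {q | ∃ a : ℝ[X], a ≠ 0 ∧ ∃ u v, C a * q = u * h + v * h.derivative}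
        add_mem' := by
          rintro q q' ⟨a, ha, u, v, e⟩ ⟨a', ha', u', v', e'⟩
          refine ⟨a * a', mul_ne_zero ha ha', C a' * u + C a * u', C a' * v + C a * v', ?_⟩
          rw [C_mul]
          linear_combination C a' * e + C a * e'
        zero_mem' := ⟨1, one_ne_zero, 0, 0, by simp⟩
        smul_mem' := by
          rintro c q ⟨a, ha, u, v, e⟩
          refine ⟨a, ha, c * u, c * v, ?_⟩
          rw [smul_eq_mul]
          linear_combination c * e }
    obtain ⟨g, ⟨a, ha, u, v, e⟩, gn, gd⟩ := sat_gen J (by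
      rintro a ha q ⟨a', ha', u, v, e⟩
      exact ⟨a' * a, mul_ne_zero ha' ha, u, v, by rw [C_mul, mul_assoc, e]⟩)
      ⟨h, ⟨1, one_ne_zero, 1, 0, by simp⟩, hn⟩
    obtain ⟨k, hk⟩ := gd h ⟨1, one_ne_zero, 1, 0, by simp⟩
    have gd' := gd h.derivative ⟨1, one_ne_zero, 0, 1, by simp⟩
    have kI : k ∈ I := by
      refine (mI _).2 <| (((mI _).1 hI).and (evt_ne (leadingCoeff_ne_zero.2 hn'))).mono
        fun t ⟨a1, a2⟩ => ?_
      have b1 : (g.map (evt t) * k.map (evt t)).derivative ≠ 0 := by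
        rw [← Polynomial.map_mul, ← hk, derivative_map]
        intro h'
        have := congrArg (fun q => q.coeff h.derivative.natDegree) h'
        simp only [coeff_map, coeff_zero] at this
        exact a2 this
      have b2 : g.map (evt t) ∣ (g.map (evt t) * k.map (evt t)).derivative := by
        rw [← Polynomial.map_mul, ← hk, derivative_map]
        exact Polynomial.map_dvd _ gd'
      rw [hk, Polynomial.map_mul] at a1
      exact ⟨root_quot b1 b2 a1.1, root_quot b1 b2 a1.2⟩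
    have gu : IsUnit g := by
      obtain ⟨w, hw⟩ := hd k kI
      refine IsUnit.of_mul_eq_one w (mul_left_cancel₀ hn ?_)
      rw [mul_one, mul_left_comm, ← hw, ← hk]
    obtain ⟨c, hc, rfl⟩ := Polynomial.isUnit_iff.1 gu
    obtain ⟨t, ⟨t1, t2⟩, t3⟩ := (((evt_ne (mul_ne_zero ha hc.ne_zero)).and
      (evt_ne (leadingCoeff_ne_zero.2 hn))).and h2).exists
    have sep : (h.map (evt t)).Separable := by
      refine ⟨C (evt t (a * c))⁻¹ * u.map (evt t), C (evt t (a * c))⁻¹ * v.map (evt t), ?_⟩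
      have := congrArg (Polynomial.map (evt t)) e
      rw [← C_mul, map_C, Polynomial.map_add, Polynomial.map_mul, Polynomial.map_mul] at this
      rw [derivative_map, mul_assoc, mul_assoc, ← mul_add, ← this, ← C_mul, inv_mul_cancel₀ t1, C_1]
    rw [← natDegree_map_of_leadingCoeff_ne_zero (evt t) t2, ← IsAlgClosed.card_roots_eq_natDegree,
      ← Multiset.toFinset_card_of_nodup (nodup_roots sep)]
    refine (Finset.card_le_card (t := {(p t : ℂ), (m t : ℂ)}) fun τ hτ => ?_).trans Finset.card_le_two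
    have r := (mem_roots'.1 (Multiset.mem_toFinset.1 hτ)).2
    simpa using t3 τ fun i => eval_eq_zero_of_dvd_of_eval_eq_zero
      (Polynomial.map_dvd _ (hd _ (fI i))) r
  refine ⟨C κ'⁻¹ * h.coeff 1, C κ'⁻¹ * h.coeff 2, ?_⟩
  have fin : ∀ t r : ℝ, (h.map (evt t)).eval (r : ℂ) = 0 →
      1 + (C κ'⁻¹ * h.coeff 1).eval t * r + (C κ'⁻¹ * h.coeff 2).eval t * r ^ 2 = 0 := by
    intro t r hr
    rw [eval_eq_sum_range' (n := 3) (natDegree_map_le.trans_lt (by omega))] at hr
    simp only [Finset.sum_range_succ, Finset.sum_range_zero, coeff_map, evt_eq, ← e1, eval_C] at hr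
    have hr' : 0 + κ' * r ^ 0 + (h.coeff 1).eval t * r ^ 1 + (h.coeff 2).eval t * r ^ 2 = 0 := by
      exact_mod_cast hr
    have := hκ'.ne_zero
    simp only [eval_mul, eval_C]
    field_simp
    linarith
  exact ((mI _).1 hI).mono fun t ht => ⟨fin t _ ht.1, fin t _ ht.2⟩

theorem deg_of_growth {P : ℝ[X]} {k : ℕ} {C0 : ℝ} (h : ∀ t : ℝ, 0 ≤ t → |P.eval t| ≤ C0 * (t + 1) ^ k) :
    P.natDegree ≤ k := by
  by_contra hlt
  have hq : ((X + C 1 : ℝ[X]) ^ k).Monic := (monic_X_add_C 1).pow k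
  have hd : ((X + C 1 : ℝ[X]) ^ k).degree < P.degree :=
    degree_lt_degree (by rw [natDegree_pow, natDegree_X_add_C]; omega)
  have := (P.abs_div_tendsto_atTop_atTop_of_degree_gt _ hd hq.ne_zero).eventually_gt_atTop C0
  obtain ⟨t, t1, t2⟩ := (this.and (eventually_ge_atTop 0)).exists
  have t3 : 0 < (t + 1) ^ k := by positivity
  simp only [eval_pow, eval_add, eval_X, eval_C, abs_div, abs_of_pos t3] at t1
  rw [lt_div_iff₀ t3] at t1
  linarith [h t t2]

end Pool.Agent.Lib.BF40
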