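import Pool.Agent.Lib.BF40.Key
import Pool.Agent.Lib.BF40.TwoRoots

/- Integrals of polynomials in two variables with bounded measurable coefficients. -/

namespace Pool.Agent.Lib.BF40

open Filter Topology Set MeasureTheory Polynomial

/-- bounded measurable functions -/
def BM (N : ℕ) : Subring ((Fin N → ℝ) → ℝ) where
  carrier := {a | Measurable a ∧ ∃ C, ∀ w ∈ cube N, |a w| ≤ C}
  mul_mem' := by
    rintro a b ⟨h1, C, h2⟩ ⟨h3, D, h4⟩
    refine ⟨h1.mul h3, C * D, fun w hw => ?_⟩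
    rw [Pi.mul_apply, abs_mul]
    exact mul_le_mul (h2 w hw) (h4 w hw) (abs_nonneg _) ((abs_nonneg _).trans (h2 w hw))
  one_mem' := ⟨measurable_const, 1, fun _ _ => by simp⟩
  add_mem' := by
    rintro a b ⟨h1, C, h2⟩ ⟨h3, D, h4⟩
    exact ⟨h1.add h3, C + D, fun w hw => (abs_add_le _ _).trans (add_le_add (h2 w hw) (h4 w hw))⟩
  zero_mem' := ⟨measurable_const, 0, fun _ _ => by simp⟩
  neg_mem' := by
    rintro a ⟨h1, C, h2⟩
    exact ⟨h1.neg, C, fun w hw => by simpa using h2 w hw⟩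

/-- evaluation -/
noncomputable def evb {N : ℕ} (w : Fin N → ℝ) (τ : ℂ) (t : ℝ) : (BM N)[X][X] →+* ℂ :=
  eval₂RingHom (eval₂RingHom (Complex.ofRealHom.comp ((Pi.evalRingHom _ w).comp (BM N).subtype)) t) τ

theorem evb_mono {N : ℕ} (w : Fin N → ℝ) (τ : ℂ) (t : ℝ) (i j : ℕ) (a : BM N) :
    evb w τ t (monomial i (monomial j a)) = (a.1 w : ℂ) * ((t : ℂ) ^ j * τ ^ i) := by
  simp [evb, mul_assoc]

theorem int_poly {N : ℕ} (P : (BM N)[X][X]) : ∃ P0 : ℝ[X][X], ∀ (τ : ℂ) (t : ℝ),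
    IntegrableOn (fun w => evb w τ t P) (cube N) ∧ (∃ C, ∀ w ∈ cube N, ‖evb w τ t P‖ ≤ C) ∧
      ∫ w in cube N, evb w τ t P = (P0.map (evt t)).eval τ := by
  have add : ∀ P Q : (BM N)[X][X], (∃ P0 : ℝ[X][X], ∀ (τ : ℂ) (t : ℝ),
      IntegrableOn (fun w => evb w τ t P) (cube N) ∧ (∃ C, ∀ w ∈ cube N, ‖evb w τ t P‖ ≤ C) ∧
      ∫ w in cube N, evb w τ t P = (P0.map (evt t)).eval τ) → (∃ P0 : ℝ[X][X], ∀ (τ : ℂ) (t : ℝ),
      IntegrableOn (fun w => evb w τ t Q) (cube N) ∧ (∃ C, ∀ w ∈ cube N, ‖evb w τ t Q‖ ≤ C) ∧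
      ∫ w in cube N, evb w τ t Q = (P0.map (evt t)).eval τ) → ∃ P0 : ℝ[X][X], ∀ (τ : ℂ) (t : ℝ),
      IntegrableOn (fun w => evb w τ t (P + Q)) (cube N) ∧
      (∃ C, ∀ w ∈ cube N, ‖evb w τ t (P + Q)‖ ≤ C) ∧
      ∫ w in cube N, evb w τ t (P + Q) = (P0.map (evt t)).eval τ := by
    rintro P Q ⟨P0, hP⟩ ⟨Q0, hQ⟩
    refine ⟨P0 + Q0, fun τ t => ?_⟩
    obtain ⟨a1, ⟨C, a2⟩, a3⟩ := hP τ t
    obtain ⟨b1, ⟨D, b2⟩, b3⟩ := hQ τ t
    simp only [map_add]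
    refine ⟨a1.add b1, ⟨C + D, fun w hw => (norm_add_le _ _).trans (add_le_add (a2 w hw) (b2 w hw))⟩,
      ?_⟩
    rw [integral_add a1 b1, a3, b3, Polynomial.map_add, eval_add]
  induction P using Polynomial.induction_on' with
  | add P Q hP hQ => exact add P Q hP hQ
  | monomial i p =>
    induction p using Polynomial.induction_on' with
    | add p q hp hq => rw [map_add]; exact add _ _ hp hq
    | monomial j a =>
      obtain ⟨h1, C, h2⟩ := a.2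
      refine ⟨monomial i (monomial j (∫ w in cube N, a.1 w)), fun τ t => ?_⟩
      simp only [evb_mono]
      have hi : IntegrableOn a.1 (cube N) :=
        Measure.integrableOn_of_bounded (M := C) (cube_compact N).measure_lt_top.ne
          h1.aestronglyMeasurable ((ae_restrict_iff' measurableSet_Icc).2 (Eventually.of_forall h2))
      refine ⟨hi.ofReal.mul_const _, ⟨C * ‖(t : ℂ) ^ j * τ ^ i‖, fun w hw => ?_⟩, ?_⟩
      · rw [norm_mul, Complex.norm_real]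
        exact mul_le_mul_of_nonneg_right (h2 w hw) (norm_nonneg _)
      · rw [integral_mul_const, integral_complex_ofReal]
        simp [evt, mul_assoc]

/-- the two test functions -/
def uu {R : Type*} [CommRing R] {N : ℕ} (s : Bool) (y0 z : Fin (N + 1) → R) : R :=
  if s then z 0 else -∑ i, (z i - y0 i) ^ 2

theorem map_uu {R S : Type*} [CommRing R] [CommRing S] (f : R →+* S) {N : ℕ} (s : Bool)
    (y0 z : Fin (N + 1) → R) : f (uu s y0 z) = uu s (fun i => f (y0 i)) (fun i => f (z i)) := by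
  cases s <;> simp [uu]

/-- the complexified matrix -/
noncomputable def mc {N : ℕ} (V0 V1 V2 : Matrix (Fin (N + 1)) (Fin (N + 1)) ℝ) (τ : ℂ) (t : ℝ) :
    Matrix (Fin (N + 1)) (Fin (N + 1)) ℂ :=
  Matrix.of fun i j => (V0 i j : ℂ) + τ * (V1 i j + t * V2 i j)

theorem int_mc {N : ℕ} (V0 V1 V2 : (Fin N → ℝ) → Matrix (Fin (N + 1)) (Fin (N + 1)) ℝ)
    (h0 : ∀ i j, (fun w => V0 w i j) ∈ BM N) (h1 : ∀ i j, (fun w => V1 w i j) ∈ BM N)
    (h2 : ∀ i j, (fun w => V2 w i j) ∈ BM N) (y0 : Fin (N + 1) → ℝ) (s : Bool) (k : ℕ) :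
    ∃ P0 : ℝ[X][X], ∀ (τ : ℂ) (t : ℝ),
      IntegrableOn (fun w => mc (V0 w) (V1 w) (V2 w) τ t 0 0 ^ (N + 1) *
        (mc (V0 w) (V1 w) (V2 w) τ t).det *
        uu s (fun i => (y0 i : ℂ)) (fun i => mc (V0 w) (V1 w) (V2 w) τ t i 0) ^ k) (cube N) ∧
      (∃ C, ∀ w ∈ cube N, ‖mc (V0 w) (V1 w) (V2 w) τ t 0 0 ^ (N + 1) *
        (mc (V0 w) (V1 w) (V2 w) τ t).det *
        uu s (fun i => (y0 i : ℂ)) (fun i => mc (V0 w) (V1 w) (V2 w) τ t i 0) ^ k‖ ≤ C) ∧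
      ∫ w in cube N, mc (V0 w) (V1 w) (V2 w) τ t 0 0 ^ (N + 1) *
        (mc (V0 w) (V1 w) (V2 w) τ t).det *
        uu s (fun i => (y0 i : ℂ)) (fun i => mc (V0 w) (V1 w) (V2 w) τ t i 0) ^ k
        = (P0.map (evt t)).eval τ := by
  let M : Matrix (Fin (N + 1)) (Fin (N + 1)) (BM N)[X][X] := Matrix.of fun i j =>
    C (C ⟨_, h0 i j⟩) + X * C (C ⟨_, h1 i j⟩ + X * C ⟨_, h2 i j⟩)
  let Y0 : Fin (N + 1) → (BM N)[X][X] := fun i =>
    C (C ⟨fun _ => y0 i, measurable_const, |y0 i|, fun _ _ => le_rfl⟩)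
  obtain ⟨P0, hP⟩ := int_poly (M 0 0 ^ (N + 1) * M.det * uu s Y0 (fun i => M i 0) ^ k)
  refine ⟨P0, fun τ t => ?_⟩
  have e1 : ∀ w i j, evb w τ t (M i j) = mc (V0 w) (V1 w) (V2 w) τ t i j := fun w i j => by
    simp [M, mc, evb, mul_comm (t : ℂ)]
  have e2 : ∀ w i, evb w τ t (Y0 i) = (y0 i : ℂ) := fun w i => by simp [Y0, evb]
  have e3 : ∀ w, (evb w τ t).mapMatrix M = mc (V0 w) (V1 w) (V2 w) τ t := fun w =>
    Matrix.ext fun i j => e1 w i j
  have e4 : ∀ w, evb w τ t M.det = (mc (V0 w) (V1 w) (V2 w) τ t).det := fun w => by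
    rw [← e3]; exact RingHom.map_det (evb w τ t) M
  have e5 : ∀ w, evb w τ t (uu s Y0 fun i => M i 0) =
      uu s (fun i => (y0 i : ℂ)) (fun i => mc (V0 w) (V1 w) (V2 w) τ t i 0) := fun w => by
    have := map_uu (evb w τ t) s Y0 (fun i => M i 0)
    simp only [e1, e2] at this
    exact this
  have := hP τ t
  simp only [map_mul, map_pow, e1, e4, e5] at this
  exact this

end Pool.Agent.Lib.BF40
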