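import Pool.Agent.Lib.BF40.Lift2

/- The double cone over a section and Lipschitz families of affine equivalences. -/

namespace Pool.Agent.Lib.BF40

open Filter Topology Set Pointwise

variable {E : Type*} [NormedAddCommGroup E] [NormedSpace ℝ E]

/-- cylinder over the double cone of a section -/
def dc (S : Set E) (P : E →L[ℝ] E) : Set (ℝ × E) :=
  {z | ∃ x1 ∈ S, ∃ x2 ∈ S, ∃ l ∈ Icc (0 : ℝ) 1, z.1 = 2 * l - 1 ∧ P z.2 = l • x1 - (1 - l) • x2}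

theorem dc_convex {S : Set E} (hS : Convex ℝ S) (P : E →L[ℝ] E) : Convex ℝ (dc S P) := by
  rintro z ⟨x1, h1, x2, h2, l, hl, e1, e2⟩ z' ⟨x1', h1', x2', h2', l', hl', e1', e2'⟩ α β hα hβ hs
  have a1 : (α * l) • x1 + (β * l') • x1' ∈ (α * l + β * l') • S := by
    rw [hS.add_smul (mul_nonneg hα hl.1) (mul_nonneg hβ hl'.1)]
    exact add_mem_add (smul_mem_smul_set h1) (smul_mem_smul_set h1')
  have a2 : (α * (1 - l)) • x2 + (β * (1 - l')) • x2' ∈ (α * (1 - l) + β * (1 - l')) • S := by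
    rw [hS.add_smul (mul_nonneg hα (sub_nonneg.2 hl.2)) (mul_nonneg hβ (sub_nonneg.2 hl'.2))]
    exact add_mem_add (smul_mem_smul_set h2) (smul_mem_smul_set h2')
  obtain ⟨y1, hy1, f1⟩ := a1
  obtain ⟨y2, hy2, f2⟩ := a2
  simp only at f1 f2
  refine ⟨y1, hy1, y2, hy2, α * l + β * l', ⟨by nlinarith [hl.1, hl'.1], by nlinarith [hl.2, hl'.2]⟩,
    ?_, ?_⟩
  · simp only [Prod.fst_add, Prod.smul_fst, smul_eq_mul, e1, e1']
    linear_combination -hs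
  · rw [show 1 - (α * l + β * l') = α * (1 - l) + β * (1 - l') by linear_combination -hs, f1, f2]
    simp only [Prod.snd_add, Prod.smul_snd, map_add, map_smul, e2, e2']
    module

theorem dc_neg {S : Set E} (P : E →L[ℝ] E) : ∀ z ∈ dc S P, -z ∈ dc S P := by
  rintro z ⟨x1, h1, x2, h2, l, hl, e1, e2⟩
  refine ⟨x2, h2, x1, h1, 1 - l, ⟨by linarith [hl.2], by linarith [hl.1]⟩, ?_, ?_⟩
  · rw [Prod.fst_neg, e1]; ring
  · rw [Prod.snd_neg, map_neg, e2]; module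

theorem le_gauge {s : Set E} (hs : s ∈ 𝓝 (0 : E)) {z : E} {μ : ℝ}
    (h : ∀ b : ℝ, 0 < b → ∀ z' ∈ s, z = b • z' → μ ≤ b) : μ ≤ gauge s z := by
  by_contra hlt
  obtain ⟨b, hb, hb', z', hz', e⟩ := exists_lt_of_gauge_lt (absorbent_nhds_zero hs) (not_le.1 hlt)
  exact (h b hb z' hz' e.symm).not_gt hb'

theorem dc_ball {S : Set E} {X : Submodule ℝ E} {P : E →L[ℝ] E} (hm : ∀ y, P y ∈ X) (hb : ‖P‖ ≤ 1)
    {p : E} {r R : ℝ} (hr : 0 < r) (hp : p ∈ X) (hpR : ‖p‖ ≤ R)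
    (hS : ∀ h ∈ X, ‖h‖ < r → p + h ∈ S) :
    Metric.ball (0 : ℝ × E) (min (1 / 2) (r / (4 * (1 + R)))) ⊆ dc S P := by
  intro z hz
  have hR : 0 ≤ R := (norm_nonneg _).trans hpR
  rw [mem_ball_zero_iff, lt_min_iff, lt_div_iff₀ (by positivity : (0 : ℝ) < 4 * (1 + R))] at hz
  have a1 : |z.1| ≤ ‖z‖ := norm_fst_le z
  have a2 : ‖P z.2‖ ≤ ‖z‖ := (P.le_opNorm _).trans (by nlinarith [norm_snd_le z, norm_nonneg z.2])
  have a3 := abs_le.1 (a1.trans hz.1.le)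
  have a4 : 0 < (1 + z.1) / 2 := by linarith [a3.1]
  refine ⟨p + ((1 + z.1) / 2)⁻¹ • (P z.2 - z.1 • p), hS _ (X.smul_mem _ (X.sub_mem (hm _)
    (X.smul_mem _ hp))) ?_, p, by simpa using hS 0 X.zero_mem (by simpa using hr), (1 + z.1) / 2,
    ⟨a4.le, by linarith [a3.2]⟩, by ring, ?_⟩
  · rw [norm_smul, norm_inv, Real.norm_eq_abs, abs_of_pos a4, ← div_eq_inv_mul, div_lt_iff₀ a4]
    have b1 := norm_sub_le (P z.2) (z.1 • p)
    rw [norm_smul, Real.norm_eq_abs] at b1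
    have b2 : |z.1| * ‖p‖ ≤ ‖z‖ * R := by gcongr
    nlinarith [a3.1]
  · rw [smul_add, smul_smul, mul_inv_cancel₀ a4.ne', one_smul]
    module

theorem dc_norm {S : Set E} {P : E →L[ℝ] E} {R : ℝ} (hR : ∀ x ∈ S, ‖x‖ ≤ R) {z : ℝ × E}
    (hz : z ∈ dc S P) : |z.1| ≤ 1 ∧ ‖P z.2‖ ≤ R := by
  obtain ⟨x1, h1, x2, h2, l, hl, e1, e2⟩ := hz
  refine ⟨by rw [e1, abs_le]; constructor <;> linarith [hl.1, hl.2], ?_⟩
  rw [e2]
  refine (norm_sub_le _ _).trans ?_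
  rw [norm_smul, norm_smul, Real.norm_eq_abs, Real.norm_eq_abs, abs_of_nonneg hl.1,
    abs_of_nonneg (sub_nonneg.2 hl.2)]
  nlinarith [hR _ h1, hR _ h2, hl.1, hl.2]

theorem dc_top {S : Set E} (hc : IsClosed S) {P : E →L[ℝ] E} {R : ℝ} (hR : ∀ x ∈ S, ‖x‖ ≤ R)
    (h0 : dc S P ∈ 𝓝 (0 : ℝ × E)) {x : E} (hx : P x = x) :
    gauge (dc S P) (1, x) ≤ 1 ↔ x ∈ S := by
  refine ⟨fun h => ?_, fun h => gauge_le_one_of_mem ⟨x, h, x, h, 1, by simp, by norm_num, by simp [hx]⟩⟩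
  rw [← hc.closure_eq, Metric.mem_closure_iff]
  intro ε hε
  have hε' : 0 < ε / (|R| + 1) := by positivity
  obtain ⟨b, hb, hb', z, ⟨x1, h1, x2, h2, l, hl, e1, e2⟩, e⟩ :=
    exists_lt_of_gauge_lt (absorbent_nhds_zero h0) (h.trans_lt (lt_add_of_pos_right 1 hε'))
  have f1 : b * (2 * l - 1) = 1 := by simpa [e1] using congrArg Prod.fst e
  have f2 : x = b • (l • x1 - (1 - l) • x2) := by
    have := congrArg (fun z => P z.2) e
    simp only [Prod.smul_snd, map_smul, e2, hx] at this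
    exact this.symm
  have f3 : 1 ≤ b := by nlinarith [hl.2]
  refine ⟨x1, h1, ?_⟩
  have f4 : x - x1 = ((b - 1) / 2) • (x1 - x2) := by
    rw [f2, smul_sub, smul_smul, smul_smul, show b * l = (b + 1) / 2 by linarith,
      show b * (1 - l) = (b - 1) / 2 by linarith]
    module
  rw [dist_eq_norm, f4, norm_smul, Real.norm_eq_abs, abs_of_nonneg (by linarith)]
  have f5 := norm_sub_le x1 x2
  have f6 : b - 1 < ε / (|R| + 1) := by linarith
  rw [lt_div_iff₀ (by positivity)] at f6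
  nlinarith [hR _ h1, hR _ h2, le_abs_self R, abs_nonneg R]

theorem dc_lip {S S' : Set E} (hS' : Convex ℝ S') {P P' : E →L[ℝ] E} {ρ : NNReal} (hρ : 0 < ρ)
    (hS : Convex ℝ S) (b1 : Metric.ball (0 : ℝ × E) ρ ⊆ dc S P)
    (b2 : Metric.ball (0 : ℝ × E) ρ ⊆ dc S' P') (hP : ∀ y, P' (P' y) = P' y)
    (hi : ∀ x ∈ S', P' x = x) {d e : ℝ} (hd : ‖P' - P‖ ≤ d) (he0 : 0 ≤ e)
    (he : ∀ x ∈ S, ∃ x' ∈ S', ‖x - x'‖ ≤ e) (z : ℝ × E) :
    gauge (dc S' P') z ≤ gauge (dc S P) z + (ρ : ℝ)⁻¹ * (d + (ρ : ℝ)⁻¹ * e) * ‖z‖ := by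
  have l1 := (dc_convex hS P).lipschitzWith_gauge hρ b1
  have l2 := (dc_convex hS' P').lipschitzWith_gauge hρ b2
  have hρ' : (0 : ℝ) < ρ := hρ
  have n1 : dc S P ∈ 𝓝 (0 : ℝ × E) := mem_of_superset (Metric.ball_mem_nhds _ hρ') b1
  have g1 : gauge (dc S P) z ≤ (ρ : ℝ)⁻¹ * ‖z‖ := by
    have := l1.dist_le_mul z 0
    rw [gauge_zero, dist_zero_right, dist_zero_right] at this
    exact (le_abs_self _).trans (by simpa using this)
  have key : (gauge (dc S' P') z - (ρ : ℝ)⁻¹ * (d * ‖z‖)) / (1 + (ρ : ℝ)⁻¹ * e) ≤ gauge (dc S P) z := by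
    refine le_gauge n1 ?_
    rintro b hb z' ⟨x1, h1, x2, h2, l, hl, e1, e2⟩ ez
    obtain ⟨y1, k1, m1⟩ := he x1 h1
    obtain ⟨y2, k2, m2⟩ := he x2 h2
    set u : ℝ × E := (z'.1, l • y1 - (1 - l) • y2 + (z'.2 - P' z'.2)) with hu
    have hu1 : u ∈ dc S' P' := ⟨y1, k1, y2, k2, l, hl, e1, by simp [hu, hP, hi _ k1, hi _ k2]⟩
    have a1 : gauge (dc S' P') (b • u) ≤ b := gauge_le_of_mem hb.le (smul_mem_smul_set hu1)
    have a2 := l2.dist_le_mul z (b • u)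
    have a3 : ‖z - b • u‖ ≤ d * ‖z‖ + b * e := by
      have e3 : z - b • u = (0, (P' - P) z.2 + b • (l • (x1 - y1) - (1 - l) • (x2 - y2))) := by
        rw [ez]
        refine Prod.ext (by simp [hu]) ?_
        simp only [hu, Prod.snd_sub, Prod.smul_snd, ContinuousLinearMap.sub_apply, map_smul, e2]
        module
      rw [e3, Prod.norm_def, norm_zero, max_eq_right (norm_nonneg _)]
      refine (norm_add_le _ _).trans (add_le_add (((P' - P).le_opNorm _).trans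
        (mul_le_mul hd (norm_snd_le z) (norm_nonneg _) ((norm_nonneg _).trans hd))) ?_)
      rw [norm_smul, Real.norm_eq_abs, abs_of_pos hb]
      gcongr
      refine (norm_sub_le _ _).trans ?_
      rw [norm_smul, norm_smul, Real.norm_eq_abs, Real.norm_eq_abs, abs_of_nonneg hl.1,
        abs_of_nonneg (sub_nonneg.2 hl.2)]
      nlinarith [hl.1, hl.2]
    rw [Real.dist_eq, dist_eq_norm, NNReal.coe_inv] at a2
    have a4 : (ρ : ℝ)⁻¹ * ‖z - b • u‖ ≤ (ρ : ℝ)⁻¹ * (d * ‖z‖ + b * e) := by gcongr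
    rw [div_le_iff₀ (by positivity)]
    nlinarith [le_abs_self (gauge (dc S' P') z - gauge (dc S' P') (b • u))]
  rw [div_le_iff₀ (by positivity)] at key
  have : gauge (dc S P) z * ((ρ : ℝ)⁻¹ * e) ≤ ((ρ : ℝ)⁻¹ * ‖z‖) * ((ρ : ℝ)⁻¹ * e) := by gcongr
  nlinarith

theorem sec_close {K : Set E} (hK : Convex ℝ K) {X' : Submodule ℝ E} {P' : E →L[ℝ] E}
    (hm : ∀ y, P' y ∈ X') {a a' x p : E} {r R ε : ℝ} (hr : 0 < r) (hp : p ∈ X')
    (hpK : Metric.ball (a' + p) r ⊆ K) (hx : a + x ∈ K) (hR : ‖P' x - p‖ ≤ R)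
    (hε : ‖a' + P' x - (a + x)‖ ≤ ε) (hε' : ‖x - P' x‖ ≤ ε) :
    ∃ x', (x' ∈ X' ∧ a' + x' ∈ K) ∧ ‖x - x'‖ ≤ (1 + 2 * R / r) * ε := by
  have hε0 : 0 ≤ ε := (norm_nonneg _).trans hε
  have hR0 : 0 ≤ R := (norm_nonneg _).trans hR
  set θ : ℝ := 2 * ε / (r + 2 * ε) with hθ
  have h1 : 0 < r + 2 * ε := by positivity
  have θ0 : 0 ≤ θ := by positivity
  have θ1 : 1 - θ = r / (r + 2 * ε) := by rw [hθ]; field_simp; ring
  refine ⟨(1 - θ) • P' x + θ • p, ⟨X'.add_mem (X'.smul_mem _ (hm _)) (X'.smul_mem _ hp), ?_⟩, ?_⟩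
  · by_cases h0 : ε = 0
    · have : a' + P' x = a + x := sub_eq_zero.1 (norm_le_zero_iff.1 (h0 ▸ hε))
      simpa [hθ, h0, this] using hx
    have hε1 : 0 < ε := lt_of_le_of_ne hε0 (Ne.symm h0)
    have a1 : a' + p + (r / (2 * ε)) • (a' + P' x - (a + x)) ∈ K := hpK (by
      rw [mem_ball_iff_norm, add_sub_cancel_left, norm_smul, Real.norm_eq_abs,
        abs_of_pos (by positivity)]
      calc _ ≤ r / (2 * ε) * ε := by gcongr
        _ = r / 2 := by field_simp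
        _ < r := by linarith)
    have a2 := hK hx a1 (a := 1 - θ) (b := θ) (by rw [θ1]; positivity) θ0 (by ring)
    have a3 : θ * (r / (2 * ε)) = 1 - θ := by rw [θ1, hθ]; field_simp
    rw [smul_add θ, smul_smul, a3] at a2
    have e : a' + ((1 - θ) • P' x + θ • p) =
        (1 - θ) • (a + x) + (θ • (a' + p) + (1 - θ) • (a' + P' x - (a + x))) := by module
    rwa [e]
  · have e : x - ((1 - θ) • P' x + θ • p) = (x - P' x) + θ • (P' x - p) := by module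
    rw [e]
    refine (norm_add_le _ _).trans ?_
    rw [norm_smul, Real.norm_eq_abs, abs_of_nonneg θ0]
    have a1 : θ ≤ 2 * ε / r := by rw [hθ]; gcongr; linarith
    have a2 : θ * ‖P' x - p‖ ≤ 2 * ε / r * R := by gcongr
    calc _ ≤ ε + 2 * ε / r * R := add_le_add hε' a2
      _ = _ := by ring

end Pool.Agent.Lib.BF40
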