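import Mathlib

/- Mollification of Lipschitz maps, polynomial functions of one variable and quadratic forms. -/

namespace Pool.Agent.Lib.BF40

open Filter Topology Set MeasureTheory Polynomial

theorem mollify {N : ℕ} {V : Type*} [NormedAddCommGroup V] [NormedSpace ℝ V] [CompleteSpace V]
    {A : (Fin N → ℝ) → V} {L : NNReal} (hA : LipschitzWith L A) (η : ℝ) (hη : 0 < η) :
    ∃ A' : (Fin N → ℝ) → V, ContDiff ℝ 2 A' ∧ (∀ w, ‖A' w - A w‖ ≤ η) ∧
      ∀ w, ‖fderiv ℝ A' w‖ ≤ L := by
  have hr : 0 < η / (L + 1) := by positivity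
  let φ : ContDiffBump (0 : Fin N → ℝ) := ⟨η / (L + 1) / 2, η / (L + 1), by positivity, by linarith⟩
  have hl : LocallyIntegrable A volume := hA.continuous.locallyIntegrable
  refine ⟨convolution (φ.normed volume) A (ContinuousLinearMap.lsmul ℝ ℝ) volume,
    φ.hasCompactSupport_normed.contDiff_convolution_left (n := 2) _ φ.contDiff_normed hl,
    fun w => ?_, fun w => norm_fderiv_le_of_lipschitz ℝ ?_⟩
  · rw [← dist_eq_norm]
    refine φ.dist_normed_convolution_le hA.continuous.aestronglyMeasurable fun x hx => ?_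
    refine (hA.dist_le_mul x w).trans ?_
    have : dist x w ≤ η / (L + 1) := (Metric.mem_ball.1 hx).le
    calc (L : ℝ) * dist x w ≤ (L + 1) * (η / (L + 1)) := by gcongr; linarith
      _ = η := by field_simp
  · refine LipschitzWith.of_dist_le_mul fun x y => ?_
    have ex := (φ.hasCompactSupport_normed (μ := volume)).convolutionExists_left
      (ContinuousLinearMap.lsmul ℝ ℝ) φ.continuous_normed hl
    rw [dist_eq_norm, convolution_lsmul, convolution_lsmul]
    have i1 : Integrable (fun t => φ.normed volume t • A (x - t)) := (ex x).integrable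
    have i2 : Integrable (fun t => φ.normed volume t • A (y - t)) := (ex y).integrable
    rw [← integral_sub i1 i2]
    refine (norm_integral_le_of_norm_le (φ.integrable_normed.mul_const (L * dist x y))
      (Eventually.of_forall fun t => ?_)).trans ?_
    · rw [← smul_sub, norm_smul, Real.norm_eq_abs, abs_of_nonneg (φ.nonneg_normed t),
        ← dist_eq_norm]
      refine mul_le_mul_of_nonneg_left ?_ (φ.nonneg_normed t)
      simpa using hA.dist_le_mul (x - t) (y - t)
    · rw [integral_mul_const, φ.integral_normed, one_mul]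

/-- polynomial function of bounded degree -/
def IsPoly (k : ℕ) (f : ℝ → ℝ) : Prop := ∃ p : ℝ[X], p.natDegree ≤ k ∧ ∀ t, f t = p.eval t

theorem isPoly_iff (k : ℕ) (f : ℝ → ℝ) : IsPoly k f ↔ ∀ t, f t = ∑ j ∈ Finset.range (k + 1),
    f j * (Lagrange.basis (Finset.range (k + 1)) (fun j : ℕ => (j : ℝ)) j).eval t := by
  have inj : Set.InjOn (fun j : ℕ => (j : ℝ)) (Finset.range (k + 1) : Finset ℕ) :=
    Nat.cast_injective.injOn
  constructor
  · rintro ⟨p, hp, hf⟩ t
    have : p.degree < (Finset.range (k + 1)).card := by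
      rw [Finset.card_range]
      exact (degree_le_natDegree).trans_lt (by exact_mod_cast Nat.lt_succ_of_le hp)
    rw [hf t]
    conv_lhs => rw [Lagrange.eq_interpolate inj this]
    simp [Lagrange.interpolate_apply, eval_finset_sum, hf]
  · intro h
    refine ⟨Lagrange.interpolate (Finset.range (k + 1)) (fun j : ℕ => (j : ℝ)) (fun j => f j), ?_,
      fun t => ?_⟩
    · have := Lagrange.degree_interpolate_le (fun j : ℕ => f j) inj
      rw [Finset.card_range, Nat.add_sub_cancel] at this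
      exact natDegree_le_of_degree_le this
    · rw [h t]
      simp [Lagrange.interpolate_apply, eval_finset_sum]

theorem IsPoly.lim {k : ℕ} {f : ℕ → ℝ → ℝ} {g : ℝ → ℝ} (hf : ∀ n, IsPoly k (f n))
    (hg : ∀ t, Tendsto (fun n => f n t) atTop (𝓝 (g t))) : IsPoly k g := by
  rw [isPoly_iff]
  intro t
  refine tendsto_nhds_unique (hg t) ?_
  have := tendsto_finset_sum (Finset.range (k + 1)) fun j _ => (hg (j : ℝ)).mul_const
    ((Lagrange.basis (Finset.range (k + 1)) (fun j : ℕ => (j : ℝ)) j).eval t)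
  exact this.congr fun n => ((isPoly_iff k _).1 (hf n) t).symm

theorem IsPoly.int {α : Type*} [MeasurableSpace α] {μ : Measure α} {k : ℕ} {f : α → ℝ → ℝ}
    (hf : ∀ a, IsPoly k (f a)) (hi : ∀ t, Integrable (fun a => f a t) μ) :
    IsPoly k (fun t => ∫ a, f a t ∂μ) := by
  rw [isPoly_iff]
  intro t
  simp only [← integral_mul_const]
  rw [← integral_finset_sum _ fun j _ => (hi _).mul_const _]
  congr 1
  funext a
  exact (isPoly_iff k _).1 (hf a) t

theorem IsPoly.mul {k l : ℕ} {f g : ℝ → ℝ} (hf : IsPoly k f) (hg : IsPoly l g) :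
    IsPoly (k + l) (fun t => f t * g t) := by
  obtain ⟨p, hp, hf⟩ := hf
  obtain ⟨q, hq, hg⟩ := hg
  exact ⟨p * q, natDegree_mul_le.trans (add_le_add hp hq), fun t => by simp [hf, hg]⟩

theorem isPoly_aff_pow (a c : ℝ) (d : ℕ) : IsPoly d (fun t => (a + t * c) ^ d) := by
  refine ⟨(C c * X + C a) ^ d, natDegree_pow_le.trans ?_, fun t => by simp; ring⟩
  have := natDegree_linear_le (a := c) (b := a)
  nlinarith

theorem isPoly_det {n : ℕ} (A B : Matrix (Fin n) (Fin n) ℝ) :
    IsPoly n (fun t => (A + t • B).det) := by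
  refine ⟨((X : ℝ[X]) • B.map C + A.map C).det, ?_, fun t => ?_⟩
  · simpa using natDegree_det_X_add_C_le B A
  · rw [← coe_evalRingHom, RingHom.map_det]
    refine congrArg Matrix.det ?_
    ext i j
    simp
    ring

theorem quad_of_pows {q : ℝ → ℝ} {s : ℕ} (hs : s ≠ 0) (h1 : IsPoly (2 * s) (fun t => q t ^ s))
    (h2 : IsPoly (2 * s + 2) (fun t => q t ^ (s + 1))) :
    ∃ a b c : ℝ, ∀ t, q t = a + b * t + c * t ^ 2 := by
  obtain ⟨p1, d1, e1⟩ := h1
  obtain ⟨p2, -, e2⟩ := h2
  have e : p1 ^ (s + 1) = p2 ^ s := Polynomial.funext fun t => by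
    rw [eval_pow, eval_pow, ← e1, ← e2]
    ring
  by_cases h0 : p1 = 0
  · refine ⟨0, 0, 0, fun t => ?_⟩
    have := e1 t
    rw [h0, eval_zero] at this
    simpa using pow_eq_zero_iff hs |>.1 this
  have dv : p1 ∣ p2 := (IsIntegrallyClosed.pow_dvd_pow_iff hs).1 ⟨p1, by rw [← e, pow_succ]⟩
  obtain ⟨r, hr⟩ := dv
  have e3 : p1 = r ^ s := by
    rw [hr, mul_pow, pow_succ] at e
    exact mul_left_cancel₀ (pow_ne_zero s h0) e
  have dr : r.natDegree ≤ 2 := by
    rw [e3, natDegree_pow] at d1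
    have : 0 < s := Nat.pos_of_ne_zero hs
    nlinarith
  refine ⟨r.coeff 0, r.coeff 1, r.coeff 2, fun t => ?_⟩
  have e4 : q t = r.eval t := by
    have a1 : q t ^ s = p1.eval t := e1 t
    have a2 : q t ^ (s + 1) = p2.eval t := e2 t
    by_cases hq : q t = 0
    · rw [e3, eval_pow, hq, zero_pow hs] at a1
      rw [hq, (pow_eq_zero_iff hs).1 a1.symm]
    · rw [hr, eval_mul, ← a1, pow_succ] at a2
      exact mul_left_cancel₀ (pow_ne_zero s hq) a2
  rw [e4, eval_eq_sum_range' (Nat.lt_succ_of_le dr)]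
  simp [Finset.sum_range_succ]

theorem bilin_of_quad {Y : Type*} [AddCommGroup Y] [Module ℝ Y] {Q : Y → ℝ}
    (hh : ∀ t : ℝ, 0 ≤ t → ∀ y, Q (t • y) = t ^ 2 * Q y)
    (hq : ∀ x y, ∃ a b c : ℝ, ∀ t : ℝ, Q (x + t • y) = a + b * t + c * t ^ 2) :
    ∃ B : Y →ₗ[ℝ] Y →ₗ[ℝ] ℝ, ∀ x, Q x = B x x := by
  have Q0 : Q 0 = 0 := by simpa using hh 0 le_rfl 0
  have ev : ∀ y, Q (-y) = Q y := by
    intro y
    obtain ⟨a, b, c, h⟩ := hq 0 y
    have h0 := h 0
    have h1 := h 1
    have h2 := h 2
    have h3 := h (-1)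
    simp only [zero_add, zero_smul, one_smul, neg_smul, Q0, hh 2 (by norm_num)] at h0 h1 h2 h3
    linarith
  have line : ∀ x y, ∀ t : ℝ, Q (x + t • y) =
      Q x + (Q (x + y) - Q (x - y)) / 2 * t + Q y * t ^ 2 := by
    intro x y
    obtain ⟨a, b, c, h⟩ := hq x y
    obtain ⟨a', b', c', h'⟩ := hq y x
    have sc : ∀ t : ℝ, 0 < t → Q (x + t • y) = t ^ 2 * Q (y + t⁻¹ • x) := fun t ht => by
      rw [← hh t ht.le, smul_add, smul_smul, mul_inv_cancel₀ ht.ne', one_smul, add_comm]
    have s1 := sc 1 (by norm_num)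
    have s2 := sc 2 (by norm_num)
    have s3 := sc 3 (by norm_num)
    rw [h, h'] at s1 s2 s3
    have h0 := h 0
    have h0' := h' 0
    have h1 := h 1
    have h2 := h (-1)
    simp only [zero_smul, add_zero, one_smul, neg_smul, ← sub_eq_add_neg] at h0 h0' h1 h2
    intro t
    have ea : a = Q x := by linarith
    have ec : c = Q y := by linarith
    have eb : b = (Q (x + y) - Q (x - y)) / 2 := by linarith
    rw [h, ea, ec, eb]
  have par : ∀ x y, Q (x + y) + Q (x - y) = 2 * Q x + 2 * Q y := fun x y => by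
    have := line x y 1
    rw [one_smul] at this
    linarith
  set β : Y → Y → ℝ := fun x y => (Q (x + y) - Q (x - y)) / 4 with hβ
  have sy : ∀ x y, β x y = β y x := fun x y => by
    simp only [hβ]
    rw [add_comm, ← ev (x - y), neg_sub]
  have sm : ∀ (t : ℝ) x y, β x (t • y) = t * β x y := fun t x y => by
    simp only [hβ]
    rw [sub_eq_add_neg x (t • y), ← neg_smul, line x y t, line x y (-t)]
    ring
  have ad : ∀ x y z, β x (y + z) = β x y + β x z := fun x y z => by
    have a1 := par (x + y) (x + z)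
    have a2 := par (x - y) (x - z)
    have a3 : β (y + z) ((2 : ℝ) • x) = 2 * β (y + z) x := sm 2 _ _
    rw [sy (y + z), sy (y + z)] at a3
    simp only [hβ] at a3 ⊢
    rw [show x + y + (x + z) = (2 : ℝ) • x + (y + z) by rw [two_smul]; abel,
      show x + y - (x + z) = y - z by abel] at a1
    rw [show x - y + (x - z) = (2 : ℝ) • x - (y + z) by rw [two_smul]; abel,
      show x - y - (x - z) = -(y - z) by abel, ev] at a2
    linarith
  refine ⟨LinearMap.mk₂ ℝ β (fun x y z => by rw [sy, ad, sy z, sy z])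
    (fun t x y => by rw [sy, sm, sy]; rfl) ad (fun t x y => sm t x y), fun x => ?_⟩
  have := par x x
  simp only [LinearMap.mk₂_apply, hβ, sub_self, Q0] at this ⊢
  linarith

end Pool.Agent.Lib.BF40
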