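import Pool.Agent.Lib.BF40.Limit
import Pool.Agent.Lib.BF40.Poly

/- A Lipschitz family of isometric embeddings transverse to the degree one map forces a
quadratic form. -/

namespace Pool.Agent.Lib.BF40

open Filter Topology Set MeasureTheory

variable {E : Type*} [NormedAddCommGroup E] [InnerProductSpace ℝ E] [FiniteDimensional ℝ E] {N : ℕ}
  {Y : Type*} [NormedAddCommGroup Y] [NormedSpace ℝ Y]

omit [FiniteDimensional ℝ E] in
theorem fderiv_app {A : (Fin N → ℝ) → Y →L[ℝ] E} (hA : ContDiff ℝ 2 A) (z : Y) (w v : Fin N → ℝ) :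
    fderiv ℝ (fun w => A w z) w v = fderiv ℝ A w v z := by
  have := ((hA.differentiable (by simp) w).hasFDerivAt.clm_apply (hasFDerivAt_const z w)).fderiv
  rw [this]
  simp

theorem moment_poly (b : Module.Basis (Fin (N + 1)) ℝ E) {A : (Fin N → ℝ) → Y →L[ℝ] E}
    (hA : ContDiff ℝ 2 A) (d : ℕ) (x y : Y) :
    IsPoly (d + (N + 1)) (fun t => wint b (fun w => A w (x + t • y))
      (fun w => b.coord 0 (A w (x + t • y)) ^ d)) := by
  refine IsPoly.int (f := fun w t => b.coord 0 (A w (x + t • y)) ^ d *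
    jac b (fun w => A w (x + t • y)) w) (fun w => ?_) (fun t => ?_)
  · have p1 := isPoly_aff_pow (b.coord 0 (A w x)) (b.coord 0 (A w y)) d
    have p2 := isPoly_det
      (b.toMatrix (Fin.cons (A w x) (fun i => fderiv ℝ A w (Pi.single i 1) x) : Fin (N + 1) → E))
      (b.toMatrix (Fin.cons (A w y) (fun i => fderiv ℝ A w (Pi.single i 1) y) : Fin (N + 1) → E))
    obtain ⟨p, hp, e⟩ := p1.mul p2
    refine ⟨p, hp, fun t => ?_⟩
    rw [← e t]
    simp only [jac, fderiv_app hA]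
    simp only [om_apply, Module.Basis.det_apply, map_add, map_smul, smul_eq_mul]
    refine congrArg _ (congrArg Matrix.det ?_)
    ext i j
    refine Fin.cases ?_ (fun k => ?_) j <;> simp [Module.Basis.toMatrix_apply]
  · have hF : ContDiff ℝ 2 (fun w => A w (x + t • y)) := hA.clm_apply contDiff_const
    exact wint_int b hF (((b.coord 0).continuous_of_finiteDimensional.comp
      hF.continuous).pow d).continuousOn

theorem line_poly (b : Module.Basis (Fin (N + 1)) ℝ E) {Φ : E → ℝ} (hc : Continuous Φ)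
    (hp : ∀ y, y ≠ 0 → 0 < Φ y) (hh : ∀ t : ℝ, 0 ≤ t → ∀ y, Φ (t • y) = t * Φ y)
    {A : (Fin N → ℝ) → Y →L[ℝ] E} {L : NNReal} (hA : LipschitzWith L A) {n : Y → ℝ}
    (hn : ∀ w ∈ cube N, ∀ x, Φ (A w x) = n x)
    (hne : ∀ w ∈ cube N, ∀ x, x ≠ 0 → ∀ t : ℝ, A w x ≠ t • phi b w)
    (hbd : ∀ w ∈ cube N, (∃ i, w i = 1 ∨ w i = -1) → ∀ x, b.coord 0 (A w x) = 0)
    {d : ℕ} (hd0 : d ≠ 0) (hd : (-1 : ℝ) ^ d = (-1) ^ (N + 1)) (x y : Y) :
    IsPoly (d + (N + 1)) (fun t => n (x + t • y) ^ (N + 1 + d)) := by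
  obtain ⟨c, hc0, H⟩ := limit b hc hp hh hd0 hd
  have := fun k : ℕ => mollify hA (1 / ((k : ℝ) + 1)) (by positivity)
  choose A' a1 a2 a3 using this
  have h0 : (0 : Fin N → ℝ) ∈ cube N := ⟨fun _ => by simp, fun _ => by simp⟩
  have lim : ∀ z, Tendsto (fun k => wint b (fun w => A' k w z) (fun w => b.coord 0 (A' k w z) ^ d))
      atTop (𝓝 (c * n z ^ (N + 1 + d))) := by
    intro z
    by_cases hz : z = 0
    · have e : n z = 0 := by
        rw [← hn 0 h0, hz, map_zero]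
        simpa using hh 0 le_rfl 0
      rw [e]
      simp [hz, wint, hd0]
    · rw [Metric.tendsto_atTop]
      intro ε hε
      obtain ⟨δ, hδ, K⟩ := H (fun w => A w z) (n z) (hA.continuous.clm_apply continuous_const)
        (fun w hw => hn w hw z) (fun w hw => hne w hw z hz) (fun w hw hi => hbd w hw hi z)
        (L * ‖z‖) (ε / 2) (by positivity)
      obtain ⟨k0, hk0⟩ := exists_nat_one_div_lt (show 0 < δ / (‖z‖ + 1) by positivity)
      refine ⟨k0, fun k hk => ?_⟩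
      rw [Real.dist_eq]
      refine (K _ ((a1 k).clm_apply contDiff_const) (fun w _ => ?_) (fun w _ => ?_)).trans_lt
        (by linarith)
      · rw [← ContinuousLinearMap.sub_apply]
        have e1 : 1 / ((k : ℝ) + 1) ≤ 1 / ((k0 : ℝ) + 1) := Nat.one_div_le_one_div hk
        rw [lt_div_iff₀ (by positivity)] at hk0
        calc _ ≤ ‖A' k w - A w‖ * ‖z‖ := ContinuousLinearMap.le_opNorm _ _
          _ ≤ 1 / ((k0 : ℝ) + 1) * (‖z‖ + 1) := by
            gcongr
            · exact (a2 k w).trans e1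
            · linarith
          _ < δ := hk0
      · refine ContinuousLinearMap.opNorm_le_bound _ (by positivity) fun v => ?_
        rw [fderiv_app (a1 k)]
        calc _ ≤ ‖fderiv ℝ (A' k) w v‖ * ‖z‖ := ContinuousLinearMap.le_opNorm _ _
          _ ≤ (‖fderiv ℝ (A' k) w‖ * ‖v‖) * ‖z‖ := by
            gcongr; exact ContinuousLinearMap.le_opNorm _ _
          _ ≤ (L * ‖v‖) * ‖z‖ := by gcongr; exact a3 k w
          _ = _ := by ring
  obtain ⟨p, hp1, hp2⟩ := IsPoly.lim (fun k => moment_poly b (a1 k) d x y) (fun t => lim (x + t • y))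
  refine ⟨Polynomial.C c⁻¹ * p, (Polynomial.natDegree_C_mul_le _ _).trans hp1, fun t => ?_⟩
  have : c * n (x + t • y) ^ (N + 1 + d) = p.eval t := hp2 t
  simp only [Polynomial.eval_mul, Polynomial.eval_C, ← this]
  field_simp

theorem core (b : Module.Basis (Fin (N + 1)) ℝ E) {Φ : E → ℝ} (hc : Continuous Φ)
    (hp : ∀ y, y ≠ 0 → 0 < Φ y) (hh : ∀ t : ℝ, 0 ≤ t → ∀ y, Φ (t • y) = t * Φ y)
    {A : (Fin N → ℝ) → Y →L[ℝ] E} {L : NNReal} (hA : LipschitzWith L A) {n : Y → ℝ}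
    (hn : ∀ w ∈ cube N, ∀ x, Φ (A w x) = n x)
    (hne : ∀ w ∈ cube N, ∀ x, x ≠ 0 → ∀ t : ℝ, A w x ≠ t • phi b w)
    (hbd : ∀ w ∈ cube N, (∃ i, w i = 1 ∨ w i = -1) → ∀ x, b.coord 0 (A w x) = 0) :
    ∃ B : Y →ₗ[ℝ] Y →ₗ[ℝ] ℝ, ∀ x, n x ^ 2 = B x x := by
  have h0 : (0 : Fin N → ℝ) ∈ cube N := ⟨fun _ => by simp, fun _ => by simp⟩
  refine bilin_of_quad (fun t ht y => ?_) (fun x y => ?_)
  · rw [← hn 0 h0, ← hn 0 h0, map_smul, hh t ht, mul_pow]
  · have p1 := line_poly b hc hp hh hA hn hne hbd (d := N + 1) (by omega) rfl x y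
    have p2 := line_poly b hc hp hh hA hn hne hbd (d := N + 3) (by omega) (by ring) x y
    refine quad_of_pows (q := fun t => n (x + t • y) ^ 2) (s := N + 1) (by omega) ?_ ?_
    · simp only [← pow_mul]
      rwa [two_mul]
    · simp only [← pow_mul]
      rw [show 2 * (N + 1) + 2 = N + 3 + (N + 1) by ring, show 2 * (N + 1 + 1) = N + 1 + (N + 3) by ring]
      exact p2

end Pool.Agent.Lib.BF40
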