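import Pool.Agent.Lib.BF40.Slice

/- Lipschitz families of isometric embeddings over a cube. -/

namespace Pool.Agent.Lib.BF40

open Filter Topology Set

theorem comp_lip {X Y Z : Type*} [NormedAddCommGroup X] [NormedSpace ℝ X] [NormedAddCommGroup Y]
    [NormedSpace ℝ Y] [NormedAddCommGroup Z] [NormedSpace ℝ Z] {f f' : Y →L[ℝ] Z} {g g' : X →L[ℝ] Y}
    {a b c d : ℝ} (h1 : ‖f - f'‖ ≤ a) (h2 : ‖g‖ ≤ b) (h3 : ‖f'‖ ≤ c) (h4 : ‖g - g'‖ ≤ d) :
    ‖f.comp g - f'.comp g'‖ ≤ a * b + c * d := by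
  have e : f.comp g - f'.comp g' = (f - f').comp g + f'.comp (g - g') := by
    rw [ContinuousLinearMap.sub_comp, ContinuousLinearMap.comp_sub]; abel
  rw [e]
  refine (norm_add_le _ _).trans (add_le_add ?_ ?_)
  · exact (ContinuousLinearMap.opNorm_comp_le _ _).trans
      (mul_le_mul h1 h2 (norm_nonneg _) ((norm_nonneg _).trans h1))
  · exact (ContinuousLinearMap.opNorm_comp_le _ _).trans
      (mul_le_mul h3 h4 (norm_nonneg _) ((norm_nonneg _).trans h3))

theorem lift {E : Type*} [NormedAddCommGroup E] [NormedSpace ℝ E] [FiniteDimensional ℝ E] {N : ℕ}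
    (X : (Fin N → ℝ) → Submodule ℝ E) (P : (Fin N → ℝ) → E →L[ℝ] E) {L : ℝ} (hL : 0 ≤ L)
    (hP : ∀ w w', ‖P w - P w'‖ ≤ L * ‖w - w'‖) (hm : ∀ w y, P w y ∈ X w)
    (hi : ∀ w, ∀ y ∈ X w, P w y = y) (hb : ∀ w, ‖P w‖ ≤ 1) {Φ : E → ℝ} {K c : ℝ} (hK0 : 0 ≤ K)
    (hK : ∀ x y, |Φ x - Φ y| ≤ K * ‖x - y‖) (hc0 : 0 < c) (hc : ∀ x, c * ‖x‖ ≤ Φ x) (h0 : Φ 0 = 0)
    (hiso : ∀ w, ∃ T : X 0 ≃ₗ[ℝ] X w, ∀ x, Φ (T x) = Φ x) :
    ∃ (A : (Fin N → ℝ) → X 0 →L[ℝ] E) (M : NNReal), LipschitzWith M A ∧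
      ∀ w ∈ Icc (fun _ => (-1 : ℝ)) (fun _ => 1), ∀ x, A w x ∈ X w ∧ Φ (A w x) = Φ x := by
  obtain ⟨δ, hδ, C, hC, a, ha1, ha2⟩ := slice (Y := X 0) (n := fun x => Φ x) hK0
    (fun x y => hK x y) hc0 (fun x => hc x) h0
  set cl : (Fin N → ℝ) → Fin N → ℝ := fun w i => max (-1) (min (w i) 1) with hcl
  have cl1 : ∀ w, ‖cl w‖ ≤ 1 := fun w => by
    rw [pi_norm_le_iff_of_nonneg zero_le_one]
    intro i
    rw [Real.norm_eq_abs, abs_le]
    exact ⟨le_max_left _ _, max_le (by norm_num) (min_le_right _ _)⟩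
  have cl2 : ∀ w w', ‖cl w - cl w'‖ ≤ ‖w - w'‖ := fun w w' => by
    rw [pi_norm_le_iff_of_nonneg (norm_nonneg _)]
    intro i
    have h1 := ((LipschitzWith.id (α := ℝ)).min_const 1).const_max (-1)
    have h2 := h1.dist_le_mul (w i) (w' i)
    simp only [id, NNReal.coe_one, one_mul, dist_eq_norm] at h2
    exact h2.trans (norm_le_pi_norm (w - w') i)
  obtain ⟨k0, hk0⟩ := exists_nat_one_div_lt
    (show 0 < min δ (c / 2) / (K * L * (K / c) + 1) by positivity)
  set η : ℝ := 1 / ((k0 : ℝ) + 1) with hη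
  have hη0 : 0 < η := by positivity
  have hη1 : K * (L * η) * (K / c) ≤ min δ (c / 2) := by
    rw [lt_div_iff₀ (by positivity)] at hk0
    nlinarith
  have hΦ : ∀ x, Φ x ≤ K * ‖x‖ := fun x => by
    have := hK x 0
    rw [h0, sub_zero, sub_zero] at this
    exact (le_abs_self _).trans this
  have ind : ∀ i : ℕ, ∃ (A : (Fin N → ℝ) → X 0 →L[ℝ] E) (M : ℝ), 0 ≤ M ∧
      (∀ w w', ‖A w - A w'‖ ≤ M * ‖w - w'‖) ∧
      ∀ w x, A w x ∈ X (((i : ℝ) * η) • cl w) ∧ Φ (A w x) = Φ x := by
    intro i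
    induction i with
    | zero =>
      refine ⟨fun _ => (X 0).subtypeL, 0, le_rfl, fun w w' => ?_, fun w x => ⟨?_, rfl⟩⟩
      · rw [sub_self, zero_mul]
        exact ContinuousLinearMap.opNorm_zero.le
      · simp
    | succ i ih =>
      obtain ⟨A, M, hM, l1, l2⟩ := ih
      set γ : (Fin N → ℝ) → Fin N → ℝ := fun w => (((i + 1 : ℕ) : ℝ) * η) • cl w with hγ
      have bA : ∀ w, ‖A w‖ ≤ K / c := fun w => by
        refine ContinuousLinearMap.opNorm_le_bound _ (by positivity) fun x => ?_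
        have a1 := hc (A w x)
        rw [(l2 w x).2] at a1
        have a2 := hΦ x
        rw [div_mul_eq_mul_div, le_div_iff₀ hc0]
        exact (mul_comm _ _).le.trans (a1.trans a2)
      set B : (Fin N → ℝ) → X 0 →L[ℝ] E := fun w => (P (γ w)).comp (A w) with hB
      have bB : ∀ w, ‖B w‖ ≤ 1 * (K / c) := fun w =>
        (ContinuousLinearMap.opNorm_comp_le _ _).trans
          (mul_le_mul (hb _) (bA w) (norm_nonneg _) zero_le_one)
      set M1 : ℝ := L * (((i + 1 : ℕ) : ℝ) * η) * (K / c) + M with hM1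
      have hM1' : 0 ≤ M1 := by positivity
      have lB : ∀ w w', ‖B w - B w'‖ ≤ M1 * ‖w - w'‖ := fun w w' => by
        have a1 : ‖P (γ w) - P (γ w')‖ ≤ L * ((((i + 1 : ℕ) : ℝ) * η) * ‖w - w'‖) := by
          refine (hP _ _).trans ?_
          simp only [hγ]
          rw [← smul_sub, norm_smul, Real.norm_eq_abs, abs_of_nonneg (by positivity)]
          gcongr
          exact cl2 w w'
        refine (comp_lip a1 (bA w) (hb _) (l1 w w')).trans (le_of_eq ?_)
        rw [hM1]; ring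
      have near : ∀ w x, |Φ (B w x) - Φ x| ≤ min δ (c / 2) * ‖x‖ := fun w x => by
        rw [← (l2 w x).2]
        refine (hK _ _).trans ?_
        have e : B w x - A w x = (P (γ w) - P (((i : ℝ) * η) • cl w)) (A w x) := by
          rw [ContinuousLinearMap.sub_apply, hi _ _ (l2 w x).1]; rfl
        have a1 : ‖P (γ w) - P (((i : ℝ) * η) • cl w)‖ ≤ L * η := by
          refine (hP _ _).trans ?_
          simp only [hγ]
          rw [← sub_smul, norm_smul, Real.norm_eq_abs,
            show ((i + 1 : ℕ) : ℝ) * η - i * η = η by push_cast; ring, abs_of_pos hη0]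
          gcongr
          nlinarith [cl1 w]
        rw [e]
        calc _ ≤ K * (‖P (γ w) - P (((i : ℝ) * η) • cl w)‖ * (‖A w‖ * ‖x‖)) := by
              gcongr
              exact (ContinuousLinearMap.le_opNorm _ _).trans
                (by gcongr; exact ContinuousLinearMap.le_opNorm _ _)
          _ ≤ K * ((L * η) * ((K / c) * ‖x‖)) := by gcongr; exact bA w
          _ = (K * (L * η) * (K / c)) * ‖x‖ := by ring
          _ ≤ _ := by gcongr
      have near' : ∀ w (x : X 0), |Φ (B w x) - Φ x| ≤ δ * ‖x‖ := fun w x =>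
        (near w x).trans (by gcongr; exact min_le_left _ _)
      have orb : ∀ w, ∃ g : X 0 →L[ℝ] X 0, ∀ x, Φ (B w (g x)) = Φ x := fun w => by
        obtain ⟨T, hT⟩ := hiso (γ w)
        set B' : X 0 →ₗ[ℝ] X (γ w) := (B w : X 0 →ₗ[ℝ] E).codRestrict _ (fun x => hm _ _) with hB'
        have inj : Function.Injective B' := by
          rw [injective_iff_map_eq_zero]
          intro x hx
          have a1 : B w x = 0 := congrArg Subtype.val hx
          have a2 := (near w x).trans (show _ ≤ c / 2 * ‖x‖ by gcongr; exact min_le_right _ _)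
          rw [a1, h0, zero_sub, abs_neg] at a2
          have a3 : c * ‖x‖ ≤ Φ x := hc x
          have a4 := le_abs_self (Φ x)
          have : ‖x‖ ≤ 0 := by nlinarith [norm_nonneg x]
          exact norm_le_zero_iff.1 this
        have sur : Function.Surjective B' :=
          (LinearMap.injective_iff_surjective_of_finrank_eq_finrank T.finrank_eq).1 inj
        set e := LinearEquiv.ofBijective B' ⟨inj, sur⟩ with he
        refine ⟨LinearMap.toContinuousLinearMap (e.symm.toLinearMap.comp T.toLinearMap), fun x => ?_⟩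
        have : B' (e.symm (T x)) = T x := e.apply_symm_apply _
        rw [← hT x, ← this]
        rfl
      have s1 := fun w => ha1 (fun x => Φ (B w x)) (orb w) (near' w)
      refine ⟨fun w => (B w).comp (1 + a (fun x => Φ (B w x))),
        M1 * (1 + 1 / 2) + 1 * (K / c) * (C * (K * M1)), by positivity, fun w w' => ?_,
        fun w x => ⟨hm _ _, by
          rw [ContinuousLinearMap.comp_apply, ContinuousLinearMap.add_apply,
            ContinuousLinearMap.one_apply]
          exact (s1 w).2 x⟩⟩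
      have a1 : ‖1 + a (fun x => Φ (B w x))‖ ≤ 1 + 1 / 2 :=
        (norm_add_le _ _).trans (add_le_add ContinuousLinearMap.norm_id_le (s1 w).1)
      have a2 := ha2 (fun x => Φ (B w x)) (fun x => Φ (B w' x)) (K * (M1 * ‖w - w'‖))
        (by positivity) (orb w) (near' w) (orb w') (near' w') fun x => by
          refine (hK _ _).trans ?_
          rw [← ContinuousLinearMap.sub_apply, mul_assoc]
          gcongr
          exact (ContinuousLinearMap.le_opNorm _ _).trans (by gcongr; exact lB w w')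
      rw [← add_sub_add_left_eq_sub _ _ 1] at a2
      refine (comp_lip (lB w w') a1 (bB w') a2).trans (le_of_eq ?_)
      ring
  obtain ⟨A, M, hM, l1, l2⟩ := ind (k0 + 1)
  refine ⟨A, ⟨M, hM⟩, LipschitzWith.of_dist_le_mul fun w w' => ?_, fun w hw x => ?_⟩
  · rw [dist_eq_norm, dist_eq_norm]
    exact l1 w w'
  · have e1 : cl w = w := funext fun i => by
      simp only [hcl]
      rw [min_eq_left (hw.2 i), max_eq_right (hw.1 i)]
    have e2 : ((k0 + 1 : ℕ) : ℝ) * η = 1 := by rw [hη]; push_cast; field_simp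
    have := l2 w x
    rwa [e1, e2, one_smul] at this

end Pool.Agent.Lib.BF40
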