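import Pool.Agent.Lib.BF40.Core
import Pool.Agent.Lib.BF40.Lift

/- Lipschitz fields of mutually isometric subspaces transverse to the position vector. -/

namespace Pool.Agent.Lib.BF40

open Filter Topology Set

variable {E : Type*} [NormedAddCommGroup E] [InnerProductSpace ℝ E] [FiniteDimensional ℝ E]

theorem lower_bound {Φ : E → ℝ} (hc : Continuous Φ)
    (hh : ∀ t : ℝ, 0 ≤ t → ∀ y, Φ (t • y) = t * Φ y) (hp : ∀ y, y ≠ 0 → 0 < Φ y)
    (v : Metric.sphere (0 : E) 1) : ∃ c > 0, ∀ x, c * ‖x‖ ≤ Φ x := by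
  obtain ⟨u, hu, hm⟩ := (isCompact_sphere (0 : E) 1).exists_isMinOn ⟨v, v.2⟩ hc.continuousOn
  have hu1 : ‖u‖ = 1 := by simpa using hu
  refine ⟨Φ u, hp u (by rintro rfl; simp at hu1), fun x => ?_⟩
  by_cases hx : x = 0
  · have := hh 0 le_rfl 0
    simp only [zero_smul, zero_mul] at this
    simp [hx, this]
  · have h0 : 0 < ‖x‖ := norm_pos_iff.2 hx
    have h1 : Φ u ≤ Φ (‖x‖⁻¹ • x) := hm (show ‖x‖⁻¹ • x ∈ Metric.sphere (0 : E) 1 by
      simp [norm_smul, inv_mul_cancel₀ h0.ne'])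
    rw [hh _ (by positivity), ← div_eq_inv_mul, le_div_iff₀ h0] at h1
    exact h1

theorem exists_basis (p : Submodule ℝ E) {v : E} (hv : v ∉ p) :
    ∃ (N : ℕ) (b : Module.Basis (Fin (N + 1)) ℝ E), b 0 = v ∧ ∀ y ∈ p, b.coord 0 y = 0 := by
  obtain ⟨f, hf, hp⟩ := Submodule.exists_le_ker_of_notMem hv
  have hli : ∀ (c : ℝ), ∀ x ∈ LinearMap.ker f, c • v + x = 0 → c = 0 := fun c x hx h => by
    have := congrArg f h
    rw [map_add, map_smul, LinearMap.mem_ker.1 hx, map_zero, add_zero, smul_eq_mul] at this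
    exact (mul_eq_zero.1 this).resolve_right hf
  have hsp : ∀ z : E, ∃ c : ℝ, z + c • v ∈ LinearMap.ker f := fun z =>
    ⟨-(f z / f v), by simp [hf]⟩
  set b := Module.Basis.mkFinCons v (Module.finBasis ℝ (LinearMap.ker f)) hli hsp with hb
  have e := Module.Basis.coe_mkFinCons v (Module.finBasis ℝ (LinearMap.ker f)) hli hsp
  rw [← hb] at e
  have e2 : b.coord 0 = (f v)⁻¹ • f := b.ext fun j => by
    refine Fin.cases ?_ (fun i => ?_) j
    · rw [Module.Basis.coord_apply, b.repr_self, e]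
      simp [hf]
    · rw [Module.Basis.coord_apply, b.repr_self, e]
      simp
  refine ⟨_, b, by rw [e]; rfl, fun y hy => ?_⟩
  rw [e2, LinearMap.smul_apply, LinearMap.mem_ker.1 (hp hy), smul_zero]

theorem field {Φ : E → ℝ} {K : NNReal} (hK : LipschitzWith K Φ)
    (hh : ∀ t : ℝ, 0 ≤ t → ∀ y, Φ (t • y) = t * Φ y) (hp : ∀ y, y ≠ 0 → 0 < Φ y)
    (X : Metric.sphere (0 : E) 1 → Submodule ℝ E) {L : NNReal}
    (hL : LipschitzWith L fun v => (X v).starProjection) (htr : ∀ v, (v : E) ∉ X v)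
    (hiso : ∀ v w, ∃ T : X v ≃ₗ[ℝ] X w, ∀ x, Φ (T x) = Φ x) (v : Metric.sphere (0 : E) 1) :
    ∃ B : X v →ₗ[ℝ] X v →ₗ[ℝ] ℝ, ∀ x : X v, Φ x ^ 2 = B x x := by
  obtain ⟨c, hc0, hc⟩ := lower_bound hK.continuous hh hp v
  have h0 : Φ 0 = 0 := by simpa using hh 0 le_rfl 0
  obtain ⟨N, b, hb0, hb⟩ := exists_basis (X v) (htr v)
  have hv : ‖(v : E)‖ = 1 := by simp
  have pn : ∀ w, ‖phi b w‖ ≠ 0 := fun w => norm_ne_zero_iff.2 (phi_ne b w)
  set ψ : (Fin N → ℝ) → Metric.sphere (0 : E) 1 := fun w => ⟨‖phi b w‖⁻¹ • phi b w, by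
    simp [norm_smul, inv_mul_cancel₀ (pn w)]⟩ with hψ
  have out : ∀ w, 1 ≤ ssq w → ψ w = v := fun w hw => Subtype.ext (by
    have : 0 < ssq w - 1 / 2 := by linarith
    simp only [hψ, phi_out b hw, hb0, norm_smul, hv, Real.norm_eq_abs, abs_of_pos this, mul_one,
      smul_smul, inv_mul_cancel₀ this.ne', one_smul])
  have sm : ContDiff ℝ 2 fun w => (ψ w : E) - v :=
    ((((phi_smooth b).norm ℝ (phi_ne b)).inv pn).smul (phi_smooth b)).sub contDiff_const
  have cs : HasCompactSupport fun w => (ψ w : E) - v := by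
    refine HasCompactSupport.intro (isCompact_closedBall (0 : Fin N → ℝ) 1) fun w hw => ?_
    rw [mem_closedBall_zero_iff, pi_norm_le_iff_of_nonneg zero_le_one] at hw
    push Not at hw
    obtain ⟨i, hi⟩ := hw
    rw [Real.norm_eq_abs] at hi
    have := ssq_ge w i
    rw [← sq_abs] at this
    rw [out w (by nlinarith), sub_self]
  obtain ⟨L1, hL1⟩ := sm.lipschitzWith_of_hasCompactSupport cs (by simp)
  obtain ⟨A, M, hA, H⟩ := lift (fun w => X (ψ w)) (fun w => (X (ψ w)).starProjection)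
    (L := L * L1) (by positivity) (fun w w' => by
      have a1 := hL.dist_le_mul (ψ w) (ψ w')
      have a2 := hL1.dist_le_mul w w'
      rw [dist_sub_right, ← Subtype.dist_eq, dist_eq_norm w] at a2
      rw [dist_eq_norm] at a1
      rw [mul_assoc]
      exact a1.trans (by gcongr))
    (fun w y => Submodule.starProjection_apply_mem _ y)
    (fun w y hy => Submodule.starProjection_eq_self_iff.2 hy)
    (fun w => Submodule.starProjection_norm_le _) K.2
    (fun x y => by simpa [Real.dist_eq, dist_eq_norm] using hK.dist_le_mul x y) hc0 hc h0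
    (fun w => hiso _ _)
  obtain ⟨B, hB⟩ := core b hK.continuous hp hh hA (n := fun x => Φ x) (fun w hw x => (H w hw x).2)
    (fun w hw x hx t ht => by
      obtain ⟨a1, a2⟩ := H w hw x
      by_cases h : t = 0
      · rw [ht, h, zero_smul, h0] at a2
        exact (hp x (by simpa using hx)).ne a2
      · refine htr (ψ w) ?_
        have := (X (ψ w)).smul_mem (‖phi b w‖⁻¹ * t⁻¹) a1
        rwa [ht, smul_smul, mul_assoc, inv_mul_cancel₀ h, mul_one] at this)
    (fun w hw hi x => hb _ (by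
      have := (H w hw x).1
      rwa [out w (ssq_bd hi)] at this))
  obtain ⟨T, hT⟩ := hiso v (ψ 0)
  exact ⟨B.compl₁₂ T.toLinearMap T.toLinearMap, fun x => by rw [← hT x]; exact hB (T x)⟩

end Pool.Agent.Lib.BF40
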