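import Pool.Agent.Lib.BF40.Key

/- Pole pushing along a ray and a peak argument for positive functionals. -/

namespace Pool.Agent.Lib.BF40

open Filter Topology Set Polynomial

theorem geo_mem {A : Type*} [NormedCommRing A] [NormedAlgebra ℝ A] [CompleteSpace A]
    {S : Subalgebra ℝ A} (hS : IsClosed (S : Set A)) {x : A} (hx : x ∈ S) (h : ‖x‖ < 1) :
    ∃ y ∈ S, (1 - x) * y = 1 :=
  ⟨∑' i : ℕ, x ^ i, hS.mem_of_tendsto (summable_geometric_of_norm_lt_one h).hasSum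
    (Eventually.of_forall fun s => S.sum_mem fun i _ => S.pow_mem hx i), mul_neg_geom_series x h⟩

theorem push_pole {T : Set ℂ} (hT : IsCompact T) {u0 δ : ℝ} (hδ : 0 < δ)
    (h : ∀ z ∈ T, ∀ r : ℝ, u0 ≤ r → δ ≤ ‖(r : ℂ) - z‖) (k : ℕ) (ε : ℝ) (hε : 0 < ε) :
    ∃ q : ℝ[X], ∀ z ∈ T, ‖aeval z q - (((u0 : ℂ) - z)⁻¹) ^ k‖ ≤ ε := by
  have : CompactSpace T := isCompact_iff_compactSpace.1 hT
  set ι : C(T, ℂ) := ⟨Subtype.val, continuous_subtype_val⟩ with hι
  set S := (Algebra.adjoin ℝ {ι}).topologicalClosure with hS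
  have hc : IsClosed (S : Set C(T, ℂ)) := Subalgebra.isClosed_topologicalClosure _
  have hιS : ι ∈ S := Subalgebra.le_topologicalClosure _ (Algebra.self_mem_adjoin_singleton ℝ ι)
  have val : ∀ (r : ℝ) (y : C(T, ℂ)), u0 ≤ r → (algebraMap ℝ _ r - ι) * y = 1 →
      ∀ z : T, y z = ((r : ℂ) - z)⁻¹ := fun r y hr hy z => by
    have := congrArg (fun f : C(T, ℂ) => f z) hy
    simp only [ContinuousMap.mul_apply, ContinuousMap.sub_apply, ContinuousMap.one_apply] at this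
    exact eq_inv_of_mul_eq_one_right (by simpa [hι] using this)
  have step : ∀ r r' : ℝ, u0 ≤ r → |r - r'| ≤ δ / 2 → (∃ y ∈ S, (algebraMap ℝ _ r - ι) * y = 1) →
      ∃ y ∈ S, (algebraMap ℝ _ r' - ι) * y = 1 := by
    rintro r r' hr hrr ⟨y, hy, e⟩
    have ny : ‖y‖ ≤ δ⁻¹ := (ContinuousMap.norm_le _ (by positivity)).2 fun z => by
      rw [val r y hr e z, norm_inv]
      exact inv_anti₀ hδ (h z z.2 r hr)
    obtain ⟨y', hy', e'⟩ := geo_mem hc (S.smul_mem hy (r - r')) (by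
      rw [norm_smul, Real.norm_eq_abs]
      calc _ ≤ δ / 2 * δ⁻¹ := by gcongr
        _ = 1 / 2 := by field_simp
        _ < 1 := by norm_num)
    refine ⟨y * y', S.mul_mem hy hy', ?_⟩
    rw [Algebra.smul_def, map_sub] at e'
    linear_combination e' + y' * e
  have big : ∀ r : ℝ, ‖ι‖ < r → ∃ y ∈ S, (algebraMap ℝ _ r - ι) * y = 1 := by
    intro r hr
    have hr0 : 0 < r := (norm_nonneg _).trans_lt hr
    obtain ⟨y', hy', e'⟩ := geo_mem hc (S.smul_mem hιS r⁻¹) (by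
      rw [norm_smul, Real.norm_eq_abs, abs_of_pos (inv_pos.2 hr0), ← div_eq_inv_mul,
        div_lt_one hr0]
      exact hr)
    refine ⟨r⁻¹ • y', S.smul_mem hy' _, ?_⟩
    rw [mul_smul_comm, ← smul_mul_assoc, smul_sub, Algebra.algebraMap_eq_smul_one, smul_smul,
      inv_mul_cancel₀ hr0.ne', one_smul]
    exact e'
  have ind : ∀ j : ℕ, (∃ y ∈ S, (algebraMap ℝ _ (u0 + j * (δ / 2)) - ι) * y = 1) →
      ∃ y ∈ S, (algebraMap ℝ _ u0 - ι) * y = 1 := by
    intro j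
    induction j with
    | zero => simp
    | succ j ih =>
      intro hj
      refine ih (step _ _ (le_add_of_nonneg_right (by positivity)) (le_of_eq ?_) hj)
      push_cast
      rw [show u0 + (j + 1) * (δ / 2) - (u0 + j * (δ / 2)) = δ / 2 by ring, abs_of_pos (by positivity)]
  obtain ⟨j, hj⟩ := exists_nat_gt ((‖ι‖ - u0) / (δ / 2))
  rw [div_lt_iff₀ (by positivity)] at hj
  obtain ⟨y, hy, e⟩ := ind j (big _ (by linarith))
  have hm : y ^ k ∈ closure (Algebra.adjoin ℝ {ι} : Set C(T, ℂ)) := S.pow_mem hy k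
  obtain ⟨p, hp, hd⟩ := Metric.mem_closure_iff.1 hm ε hε
  rw [SetLike.mem_coe, Algebra.adjoin_singleton_eq_range_aeval] at hp
  obtain ⟨q, rfl⟩ := hp
  refine ⟨q, fun z hz => ?_⟩
  have a1 := (ContinuousMap.dist_apply_le_dist (f := y ^ k) (g := aeval ι q) ⟨z, hz⟩).trans hd.le
  rw [dist_comm, dist_eq_norm, ContinuousMap.pow_apply, val u0 y le_rfl e] at a1
  have a2 : (aeval ι q) ⟨z, hz⟩ = aeval z q :=
    (aeval_algHom_apply (ContinuousMap.evalAlgHom ℝ ℂ (⟨z, hz⟩ : T)) ι q).symm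
  rwa [a2] at a1

theorem no_bound {α : Type*} [TopologicalSpace α] {S : Set α} (hS : IsCompact S)
    {Λ : (α → ℝ) → ℝ}
    (mono : ∀ ψ ψ', ContinuousOn ψ S → ContinuousOn ψ' S → (∀ y ∈ S, ψ y ≤ ψ' y) → Λ ψ ≤ Λ ψ')
    (lin : ∀ ψ (p q : ℝ), ContinuousOn ψ S → Λ (fun y => p * ψ y - q) = p * Λ ψ - q * Λ (fun _ => 1))
    {y0 : α} (pos : ∀ ψ, ContinuousOn ψ S → (∀ y ∈ S, 0 ≤ ψ y) → 0 < ψ y0 → 0 < Λ ψ)
    {u : α → ℝ} (hu : ContinuousOn u S) (hmax : ∀ y ∈ S, u y ≤ u y0) {T : Set ℂ} (hT : IsCompact T)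
    (hTu : ∀ z ∈ T, z.im = 0 → z.re < u y0) {C : ℝ}
    (hb : ∀ (q : ℝ[X]) (B : ℝ), 0 ≤ B → (∀ z ∈ T, ‖aeval z q‖ ≤ B) →
      |Λ fun y => q.eval (u y)| ≤ C * B) :
    False := by
  have hU : IsOpen {z : ℂ | z.im = 0 ∧ u y0 ≤ z.re}ᶜ :=
    ((isClosed_eq Complex.continuous_im continuous_const).inter
      (isClosed_le continuous_const Complex.continuous_re)).isOpen_compl
  obtain ⟨δ, hδ, H⟩ := near hT hU fun z hz h => (hTu z hz h.1).not_ge h.2
  have H1 : ∀ z ∈ T, ∀ r : ℝ, u y0 ≤ r → δ ≤ ‖(r : ℂ) - z‖ := fun z hz r hr => by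
    by_contra hlt
    exact H z hz r (not_le.1 hlt) ⟨by simp, by simpa using hr⟩
  set β : α → ℝ := fun y => max (1 - (u y0 - u y) / (δ / 4)) 0 with hβ
  have βc : ContinuousOn β S :=
    (continuousOn_const.sub ((continuousOn_const.sub hu).div_const _)).sup continuousOn_const
  have κ := pos β βc (fun y _ => le_max_right _ _) (by simp [hβ])
  obtain ⟨k, hk⟩ := pow_unbounded_of_one_lt ((2 * C + Λ fun _ => 1) / Λ β) (one_lt_two (α := ℝ))
  rw [div_lt_iff₀ κ] at hk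
  have hT' : IsCompact (T ∪ (fun y => (u y : ℂ)) '' S) :=
    hT.union (hS.image_of_continuousOn (Complex.continuous_ofReal.comp_continuousOn hu))
  have hε : 0 < δ⁻¹ ^ k := by positivity
  obtain ⟨q, hq⟩ := push_pole hT' (u0 := u y0 + δ / 4) (δ := δ / 4) (by positivity) (by
    rintro z (hz | ⟨y, hy, rfl⟩) r hr
    · linarith [H1 z hz r (by linarith)]
    · rw [← Complex.ofReal_sub, Complex.norm_real, Real.norm_eq_abs]
      exact le_trans (by linarith [hmax y hy]) (le_abs_self _)) k _ hε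
  have b1 := hb q (δ⁻¹ ^ k + δ⁻¹ ^ k) (by positivity) fun z hz => by
    have a1 := hq z (Or.inl hz)
    have a2 : ‖((((u y0 + δ / 4 : ℝ) : ℂ) - z)⁻¹) ^ k‖ ≤ δ⁻¹ ^ k := by
      rw [norm_pow, norm_inv]
      gcongr
      exact H1 z hz _ (by linarith)
    linarith [norm_sub_norm_le (aeval z q) (((((u y0 + δ / 4 : ℝ) : ℂ) - z)⁻¹) ^ k)]
  have b2 := mono (fun y => (2 ^ k * δ⁻¹ ^ k) * β y - δ⁻¹ ^ k) (fun y => q.eval (u y))
    ((continuousOn_const.mul βc).sub continuousOn_const)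
    (q.continuous.comp_continuousOn hu) fun y hy => by
      have a1 := hq _ (Or.inr ⟨y, hy, rfl⟩)
      have e : aeval (u y : ℂ) q = ((q.eval (u y) : ℝ) : ℂ) := by
        simpa using aeval_algebraMap_apply ℂ (u y) q
      simp only [e] at a1
      rw [← Complex.ofReal_sub, ← Complex.ofReal_inv, ← Complex.ofReal_pow, ← Complex.ofReal_sub,
        Complex.norm_real, Real.norm_eq_abs, abs_le] at a1
      have a2 : 0 < u y0 + δ / 4 - u y := by linarith [hmax y hy]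
      have a3 : (2 ^ k * δ⁻¹ ^ k) * β y ≤ (u y0 + δ / 4 - u y)⁻¹ ^ k := by
        by_cases h : u y0 - u y ≤ δ / 4
        · have a4 : β y ≤ 1 := max_le (by
            have : 0 ≤ (u y0 - u y) / (δ / 4) := div_nonneg (by linarith [hmax y hy]) (by positivity)
            linarith) zero_le_one
          calc _ ≤ (2 ^ k * δ⁻¹ ^ k) * 1 := by gcongr
            _ = (δ / 2)⁻¹ ^ k := by rw [mul_one, ← mul_pow]; congr 1; field_simp
            _ ≤ _ := by gcongr; linarith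
        · have : β y = 0 := max_eq_right (by
            rw [sub_nonpos, le_div_iff₀ (by positivity)]; linarith)
          rw [this, mul_zero]
          positivity
      linarith [a1.1]
  rw [lin β _ _ βc] at b2
  have b3 := (le_abs_self _).trans b1
  nlinarith

end Pool.Agent.Lib.BF40
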