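import Pool.Agent.Lib.BF40.Lam
import Pool.Agent.Lib.BF40.Runge
import Pool.Agent.Lib.BF40.BiPoly
import Pool.Agent.Lib.BF40.Field

/- Common complex roots of the moment polynomials in the affine setting. -/

namespace Pool.Agent.Lib.BF40

open Filter Topology Set MeasureTheory Polynomial

variable {E : Type*} [NormedAddCommGroup E] [InnerProductSpace ℝ E] [FiniteDimensional ℝ E] {N : ℕ}

/-- matrix of a map and its derivatives -/
noncomputable def vm (b : Module.Basis (Fin (N + 1)) ℝ E) (F : (Fin N → ℝ) → E) (w : Fin N → ℝ) :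
    Matrix (Fin (N + 1)) (Fin (N + 1)) ℝ :=
  b.toMatrix (Fin.cons (F w) (fun i => fderiv ℝ F w (Pi.single i 1)) : Fin (N + 1) → E)

theorem vm_mem (b : Module.Basis (Fin (N + 1)) ℝ E) {F : (Fin N → ℝ) → E} {L : NNReal}
    (hF : LipschitzWith L F) (i j : Fin (N + 1)) : (fun w => vm b F w i j) ∈ BM N := by
  borelize E
  set l : E →L[ℝ] ℝ := LinearMap.toContinuousLinearMap (b.coord i) with hl
  refine Fin.cases ?_ (fun k => ?_) j
  · obtain ⟨C, hC⟩ := (cube_compact N).exists_bound_of_continuousOn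
      (l.continuous.comp hF.continuous).continuousOn
    exact ⟨(l.continuous.comp hF.continuous).measurable, C, hC⟩
  · refine ⟨l.continuous.measurable.comp (measurable_fderiv_apply_const ℝ F (Pi.single k 1)),
      ‖l‖ * L, fun w _ => (l.le_opNorm _).trans ?_⟩
    have := (fderiv ℝ F w).le_opNorm (Pi.single k 1)
    rw [Pi.norm_single, norm_one, mul_one] at this
    exact mul_le_mul_of_nonneg_left (this.trans (norm_fderiv_le_of_lipschitz ℝ hF)) (norm_nonneg _)

/-- complexified integrand -/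
noncomputable def cint (b : Module.Basis (Fin (N + 1)) ℝ E) (f0 f1 f2 : (Fin N → ℝ) → E) (y0 : E)
    (s : Bool) (k : ℕ) (τ : ℂ) (t : ℝ) (w : Fin N → ℝ) : ℂ :=
  mc (vm b f0 w) (vm b f1 w) (vm b f2 w) τ t 0 0 ^ (N + 1) *
    (mc (vm b f0 w) (vm b f1 w) (vm b f2 w) τ t).det *
    uu s (fun i => (b.repr y0 i : ℂ)) (fun i => mc (vm b f0 w) (vm b f1 w) (vm b f2 w) τ t i 0) ^ k

theorem real_int (b : Module.Basis (Fin (N + 1)) ℝ E) {f0 f1 f2 : (Fin N → ℝ) → E}
    {L0 L1 L2 : NNReal} (h0 : LipschitzWith L0 f0) (h1 : LipschitzWith L1 f1)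
    (h2 : LipschitzWith L2 f2) (y0 : E) (s : Bool) (k : ℕ) (r t : ℝ) :
    ∫ w in cube N, cint b f0 f1 f2 y0 s k r t w = (wint b (fun w => f0 w + r • (f1 w + t • f2 w))
      (fun w => b.coord 0 (f0 w + r • (f1 w + t • f2 w)) ^ (N + 1) *
        uu s (b.repr y0) (b.repr (f0 w + r • (f1 w + t • f2 w))) ^ k) : ℝ) := by
  unfold wint
  rw [← integral_complex_ofReal]
  refine integral_congr_ae (ae_restrict_of_ae ?_)
  filter_upwards [h0.ae_differentiableAt (μ := volume), h1.ae_differentiableAt (μ := volume),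
    h2.ae_differentiableAt (μ := volume)] with w d0 d1 d2
  have d := (d0.hasFDerivAt.add ((d1.hasFDerivAt.add (d2.hasFDerivAt.const_smul t)).const_smul r)).fderiv
  have d' : fderiv ℝ (fun w => f0 w + r • (f1 w + t • f2 w)) w = _ := d
  have e : mc (vm b f0 w) (vm b f1 w) (vm b f2 w) r t =
      Complex.ofRealHom.mapMatrix (vm b (fun w => f0 w + r • (f1 w + t • f2 w)) w) := by
    ext i j
    unfold vm
    rw [d']
    refine Fin.cases ?_ (fun k => ?_) j <;> simp [mc, Module.Basis.toMatrix_apply, mul_add]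
  have e2 := map_uu Complex.ofRealHom s (b.repr y0) (b.repr (f0 w + r • (f1 w + t • f2 w)))
  unfold cint
  rw [e, ← RingHom.map_det]
  simp only [Complex.ofRealHom_eq_coe] at e2
  simp only [Complex.ofRealHom_eq_coe, Complex.ofReal_mul, Complex.ofReal_pow, e2]
  rw [mul_right_comm]
  rfl

theorem uu_cont (b : Module.Basis (Fin (N + 1)) ℝ E) (s : Bool) (y0 : E) :
    Continuous fun y => uu s (b.repr y0) (b.repr y) := by
  have : ∀ i, Continuous fun y => b.repr y i := fun i => (b.coord i).continuous_of_finiteDimensional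
  cases s
  · simp only [uu, Bool.false_eq_true, if_false]
    fun_prop
  · simpa [uu] using this 0

theorem contra (b : Module.Basis (Fin (N + 1)) ℝ E) {Φ : E → ℝ} (hc : Continuous Φ)
    (hp : ∀ y, y ≠ 0 → 0 < Φ y) (hh : ∀ t : ℝ, 0 ≤ t → ∀ y, Φ (t • y) = t * Φ y)
    (hS : IsCompact {y | Φ y = 1}) {f0 f1 f2 : (Fin N → ℝ) → E}
    {L0 L1 L2 : NNReal} (h0 : LipschitzWith L0 f0) (h1 : LipschitzWith L1 f1)
    (h2 : LipschitzWith L2 f2) {y0 : E} (hy : Φ y0 = 1) (hy' : 0 < b.coord 0 y0) (s : Bool)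
    (hm : ∀ y, Φ y = 1 → uu s (b.repr y0) (b.repr y) ≤ uu s (b.repr y0) (b.repr y0)) (τ : ℂ) (t : ℝ)
    (hT : ∀ w ∈ cube N, ∀ z : ℂ, z = uu s (fun i => (b.repr y0 i : ℂ))
      (fun i => (b.repr (f0 w) i : ℂ) + τ * (b.repr (f1 w) i + t * b.repr (f2 w) i)) →
      z.im = 0 → z.re < uu s (b.repr y0) (b.repr y0))
    (hI : ∀ k, ∫ w in cube N, cint b f0 f1 f2 y0 s k τ t w =
      (((-1) ^ N * lam b Φ (fun y => uu s (b.repr y0) (b.repr y) ^ k) : ℝ) : ℂ)) : False := by
  set u : E → ℝ := fun y => uu s (b.repr y0) (b.repr y) with hu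
  have uc : Continuous u := uu_cont b s y0
  set z : (Fin N → ℝ) → ℂ := fun w => uu s (fun i => (b.repr y0 i : ℂ))
    (fun i => (b.repr (f0 w) i : ℂ) + τ * (b.repr (f1 w) i + t * b.repr (f2 w) i)) with hz
  have zc : Continuous z := by
    have a : ∀ i, Continuous fun y => b.repr y i := fun i =>
      (b.coord i).continuous_of_finiteDimensional
    have a0 := fun i => (a i).comp h0.continuous
    have a1 := fun i => (a i).comp h1.continuous
    have a2 := fun i => (a i).comp h2.continuous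
    simp only [Function.comp_def] at a0 a1 a2
    cases s
    · simp only [hz, uu, Bool.false_eq_true, if_false]
      fun_prop
    · simp only [hz, uu, if_true]
      fun_prop
  have ek : ∀ k w, cint b f0 f1 f2 y0 s k τ t w = cint b f0 f1 f2 y0 s 0 τ t w * z w ^ k := by
    intro k w
    simp only [cint, pow_zero, mul_one]
    rfl
  have ik : ∀ k, IntegrableOn (cint b f0 f1 f2 y0 s k τ t) (cube N) := fun k =>
    ((int_mc _ _ _ (vm_mem b h0) (vm_mem b h1) (vm_mem b h2) (b.repr y0) s k).choose_spec τ t).1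
  obtain ⟨C, hC⟩ : ∃ C, ∀ w ∈ cube N, ‖cint b f0 f1 f2 y0 s 0 τ t w‖ ≤ C :=
    ((int_mc _ _ _ (vm_mem b h0) (vm_mem b h1) (vm_mem b h2) (b.repr y0) s 0).choose_spec τ t).2.1
  have eq : ∀ q : ℝ[X], IntegrableOn (fun w => cint b f0 f1 f2 y0 s 0 τ t w * aeval (z w) q) (cube N) ∧
      ∫ w in cube N, cint b f0 f1 f2 y0 s 0 τ t w * aeval (z w) q =
        (((-1) ^ N * lam b Φ (fun y => q.eval (u y)) : ℝ) : ℂ) := by
    intro q
    induction q using Polynomial.induction_on' with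
    | add p q hp' hq =>
      simp only [map_add, mul_add, eval_add]
      refine ⟨hp'.1.add hq.1, ?_⟩
      have := lam_lin b hc hp hh (fun y => p.eval (u y)) (fun y => q.eval (u y)) 1 1
        (p.continuous.comp uc).continuousOn (q.continuous.comp uc).continuousOn
      simp only [one_mul] at this
      rw [integral_add hp'.1 hq.1, hp'.2, hq.2, this]
      push_cast
      ring
    | monomial k a =>
      have e : (fun w => cint b f0 f1 f2 y0 s 0 τ t w * aeval (z w) (monomial k a)) =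
          fun w => (a : ℂ) * cint b f0 f1 f2 y0 s k τ t w := by
        funext w
        rw [ek k, aeval_monomial]
        simp only [Complex.coe_algebraMap]
        ring
      rw [e]
      refine ⟨(ik k).const_mul _, ?_⟩
      have := lam_lin b hc hp hh (fun y => u y ^ k) (fun y => u y ^ k) a 0
        (uc.pow k).continuousOn (uc.pow k).continuousOn
      simp only [zero_mul, add_zero] at this
      simp only [eval_monomial]
      rw [integral_const_mul, hI k, this]
      push_cast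
      ring
  refine no_bound hS (lam_mono b hc hp hh) (fun ψ p q hψ => ?_) (lam_pos b hc hp hh hy hy')
    uc.continuousOn hm ((cube_compact N).image zc) ?_ (C := |C| * volume.real (cube N))
    fun q B hB hq => ?_
  · have := lam_lin b hc hp hh ψ (fun _ => 1) p (-q) hψ continuousOn_const
    simp only [mul_one, neg_mul, ← sub_eq_add_neg] at this
    exact this
  · rintro _ ⟨w, hw, rfl⟩
    exact hT w hw _ rfl
  · have := norm_setIntegral_le_of_norm_le_const (μ := volume) (cube_compact N).measure_lt_top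
      (f := fun w => cint b f0 f1 f2 y0 s 0 τ t w * aeval (z w) q) (C := |C| * B) fun w hw => by
        rw [norm_mul]
        exact mul_le_mul ((hC w hw).trans (le_abs_self _)) (hq _ ⟨w, hw, rfl⟩) (norm_nonneg _)
          (abs_nonneg _)
    rw [(eq q).2, Complex.norm_real, Real.norm_eq_abs, abs_mul, abs_pow, abs_neg, abs_one, one_pow,
      one_mul] at this
    linarith

variable {Y : Type*} [NormedAddCommGroup Y] [NormedSpace ℝ Y]

omit [FiniteDimensional ℝ E] in
theorem lip_app {A : (Fin N → ℝ) → Y →L[ℝ] E} {L : NNReal} (hA : LipschitzWith L A) (x : Y) :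
    LipschitzWith (‖ContinuousLinearMap.apply ℝ E x‖₊ * L) (fun w => A w x) :=
  (ContinuousLinearMap.apply ℝ E x).lipschitz.comp hA

theorem line_roots (b : Module.Basis (Fin (N + 1)) ℝ E) {Φ : E → ℝ} (hc : Continuous Φ)
    (hp : ∀ y, y ≠ 0 → 0 < Φ y) (hh : ∀ t : ℝ, 0 ≤ t → ∀ y, Φ (t • y) = t * Φ y)
    {c : (Fin N → ℝ) → E} {Lc : NNReal} (hcL : LipschitzWith Lc c)
    {A : (Fin N → ℝ) → Y →L[ℝ] E} {L : NNReal} (hA : LipschitzWith L A) {n : Y → ℝ}
    (np : ∀ y, y ≠ 0 → 0 < n y) (nh : ∀ t : ℝ, 0 ≤ t → ∀ y, n (t • y) = t * n y)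
    (H1 : ∀ w ∈ cube N, Φ (c w) < 1) (H2 : ∀ w ∈ cube N, ∀ x, Φ (c w + A w x) = 1 ↔ n x = 1)
    (H3 : ∀ w ∈ cube N, ∀ x, x ≠ 0 → ∀ t : ℝ, A w x ≠ t • phi b w)
    (H4 : ∀ w ∈ cube N, (∃ i, w i = 1 ∨ w i = -1) → b.coord 0 (c w) = 0 ∧ ∀ x, b.coord 0 (A w x) = 0)
    (x0 x1 : Y) (hx : ∀ᶠ t : ℝ in cofinite, x0 + t • x1 ≠ 0) :
    ∃ R1 R2 : ℝ[X], ∀ᶠ t : ℝ in cofinite, n (x0 + t • x1) - n (-(x0 + t • x1)) = R1.eval t ∧
      n (x0 + t • x1) * n (-(x0 + t • x1)) = R2.eval t := by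
  have n0 : n 0 = 0 := by simpa using nh 0 le_rfl 0
  have hb0 : b 0 ≠ 0 := b.ne_zero 0
  obtain ⟨c0, hc0, hlow⟩ := lower_bound hc hh hp ⟨‖b 0‖⁻¹ • b 0, by simp [norm_smul, hb0]⟩
  have hS : IsCompact {y | Φ y = 1} := by
    refine Metric.isCompact_of_isClosed_isBounded (isClosed_eq hc continuous_const)
      (isBounded_iff_forall_norm_le.2 ⟨1 / c0, fun y hy => ?_⟩)
    rw [le_div_iff₀ hc0, mul_comm]
    exact (hlow y).trans (le_of_eq hy)
  obtain ⟨y0, hy0, hmax⟩ := hS.exists_isMaxOn ⟨_, rad_mem hp hh hb0⟩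
    (b.coord 0).continuous_of_finiteDimensional.continuousOn
  have hy1 : 0 < b.coord 0 y0 := by
    refine lt_of_lt_of_le ?_ (hmax (rad_mem hp hh hb0))
    simpa using hp _ hb0
  have hlt : ∀ y, Φ y < 1 → b.coord 0 y < b.coord 0 y0 := fun y hy => by
    by_cases h : y = 0
    · simpa [h] using hy1
    · have a1 : b.coord 0 ((Φ y)⁻¹ • y) ≤ b.coord 0 y0 := hmax (rad_mem hp hh h)
      have a2 := hp y h
      rw [map_smul, smul_eq_mul, ← div_eq_inv_mul, div_le_iff₀ a2] at a1
      nlinarith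
  have l1 := lip_app hA x0
  have l2 := lip_app hA x1
  choose P0 hP0 using fun i : Bool × ℕ =>
    int_mc _ _ _ (vm_mem b hcL) (vm_mem b l1) (vm_mem b l2) (b.repr y0) i.1 i.2
  set κ : Bool × ℕ → ℝ := fun i => (-1) ^ N * lam b Φ (fun y => uu i.1 (b.repr y0) (b.repr y) ^ i.2)
    with hκ
  have ev : ∀ i (τ : ℂ) t, ((P0 i - C (C (κ i))).map (evt t)).eval τ =
      (∫ w in cube N, cint b c (fun w => A w x0) (fun w => A w x1) y0 i.1 i.2 τ t w) - κ i := by
    intro i τ t
    rw [Polynomial.map_sub, eval_sub, ← (hP0 i τ t).2.2, map_C, eval_C, evt_eq, eval_C]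
    rfl
  have eA : ∀ w (r t : ℝ), r • (A w x0 + t • A w x1) = A w (r • (x0 + t • x1)) := fun w r t => by
    simp
  have root : ∀ (r t : ℝ), n (r • (x0 + t • x1)) = 1 → ∀ i,
      ((P0 i - C (C (κ i))).map (evt t)).eval (r : ℂ) = 0 := by
    intro r t hr i
    set x := r • (x0 + t • x1) with hxd
    have hx0 : x ≠ 0 := by rintro h; rw [h, n0] at hr; norm_num at hr
    rw [ev, real_int b hcL l1 l2, sub_eq_zero]
    simp only [eA, ← hxd]
    congr 1
    refine wint_lam b hc hp hh ((uu_cont b i.1 y0).pow i.2).continuousOn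
      (good_of_lip (hcL.add (lip_app hA x))) (good_of_lip (lip_app hA x))
      (fun w hw => (H2 w hw x).2 hr) (fun w hw s hs h => ?_) (fun w hw => H3 w hw x hx0)
      fun w hw hi => ⟨by rw [map_add, (H4 w hw hi).1, (H4 w hw hi).2, add_zero], (H4 w hw hi).2 x⟩
    have e : c w + A w x = s • c w := by
      have : (1 - s) • (c w + A w x) + s • A w x = c w + A w x - s • c w := by
        simp only [smul_add, sub_smul, one_smul]; abel
      rwa [this, sub_eq_zero] at h
    have a1 := (H2 w hw x).2 hr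
    rw [e, hh s hs.1] at a1
    have a2 := H1 w hw
    have a3 : 0 ≤ Φ (c w) := (mul_nonneg hc0.le (norm_nonneg _)).trans (hlow _)
    nlinarith [hs.1, hs.2]
  have nroot : ∀ (τ : ℂ) (t : ℝ), (∀ i, ((P0 i - C (C (κ i))).map (evt t)).eval τ = 0) →
      τ.im = 0 ∧ n (τ.re • (x0 + t • x1)) = 1 := by
    intro τ t h
    simp only [ev, sub_eq_zero] at h
    have a1 : τ.im = 0 := by
      by_contra him
      refine contra b hc hp hh hS hcL l1 l2 hy0 hy1 true (fun y hy => hmax hy) τ t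
        (fun w hw z hz h0 => ?_) (fun k => h (true, k))
      simp only [uu, if_true] at hz ⊢
      have b1 : b.repr (A w x0) 0 + t * b.repr (A w x1) 0 = 0 := by
        rw [hz] at h0
        simpa [him] using h0
      have b2 : z = b.repr (c w) 0 := by
        rw [hz, ← Complex.ofReal_mul, ← Complex.ofReal_add, b1]
        simp
      rw [b2]
      exact hlt _ (H1 w hw)
    refine ⟨a1, ?_⟩
    by_contra hne
    obtain ⟨r, rfl⟩ : ∃ r : ℝ, τ = r := ⟨τ.re, Complex.ext (by simp) (by simp [a1])⟩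
    rw [Complex.ofReal_re] at hne
    refine contra b hc hp hh hS hcL l1 l2 hy0 hy1 false (fun y _ => ?_) r t
      (fun w hw z hz _ => ?_) (fun k => h (false, k))
    · simp only [uu, Bool.false_eq_true, if_false, sub_self]
      simpa using Finset.sum_nonneg fun i _ => sq_nonneg _
    · have b1 : c w + A w (r • (x0 + t • x1)) ≠ y0 := fun e =>
        hne ((H2 w hw _).1 (by rw [e]; exact hy0))
      have b2 : z = ((-∑ i, (b.repr (c w + A w (r • (x0 + t • x1))) i - b.repr y0 i) ^ 2 : ℝ) : ℂ) := by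
        rw [hz, ← eA]
        simp [uu, mul_add]
      obtain ⟨i, hi⟩ : ∃ i, b.repr (c w + A w (r • (x0 + t • x1))) i ≠ b.repr y0 i := by
        by_contra hcon
        push Not at hcon
        exact b1 (b.repr.injective (Finsupp.ext hcon))
      rw [b2, Complex.ofReal_re]
      simp only [uu, Bool.false_eq_true, if_false, sub_self]
      have := Finset.sum_pos' (s := Finset.univ) (fun i _ => sq_nonneg
        (b.repr (c w + A w (r • (x0 + t • x1))) i - b.repr y0 i))
        ⟨i, Finset.mem_univ i, sq_pos_of_ne_zero (sub_ne_zero.2 hi)⟩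
      simpa using this
  obtain ⟨R1, R2, hR⟩ := two_roots (fun i => P0 i - C (C (κ i))) (fun t => (n (x0 + t • x1))⁻¹)
    (fun t => -(n (-(x0 + t • x1)))⁻¹) (hx.mono fun t ht i => ⟨root _ t (by
      rw [nh _ (inv_pos.2 (np _ ht)).le, inv_mul_cancel₀ (np _ ht).ne']) i, root _ t (by
      have := np _ (neg_ne_zero.2 ht)
      rw [neg_smul, ← smul_neg, nh _ (inv_pos.2 this).le, inv_mul_cancel₀ this.ne']) i⟩)
    (hx.mono fun t ht τ h => by
      obtain ⟨a1, a2⟩ := nroot τ t h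
      obtain ⟨r, rfl⟩ : ∃ r : ℝ, τ = r := ⟨τ.re, Complex.ext (by simp) (by simp [a1])⟩
      rw [Complex.ofReal_re] at a2
      rcases le_total 0 r with h0 | h0
      · rw [nh r h0] at a2
        exact Or.inl (congrArg _ (eq_inv_of_mul_eq_one_left a2))
      · rw [← neg_neg r, neg_smul, ← smul_neg, nh _ (by linarith)] at a2
        exact Or.inr (congrArg _ (neg_eq_iff_eq_neg.1 (eq_inv_of_mul_eq_one_left a2))))
    (by
      have a1 : ¬ ∀ i, ((P0 i - C (C (κ i))).map (evt 0)).eval 0 = 0 := fun h => by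
        have := (nroot 0 0 h).2
        simp [n0] at this
      push Not at a1
      obtain ⟨i, hi⟩ := a1
      have a2 : ∀ t, ((P0 i - C (C (κ i))).map (evt t)).eval 0 =
          ((P0 i - C (C (κ i))).map (evt 0)).eval 0 := fun t => by
        rw [ev, ev]
        simp only [cint, mc, zero_mul]
      simp only [← coeff_zero_eq_eval_zero, coeff_map, evt_eq] at hi a2
      refine ⟨i, _, by exact_mod_cast hi, Polynomial.funext fun t => ?_⟩
      rw [eval_C]
      exact_mod_cast a2 t)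
  refine ⟨-R1, -R2, (hR.and hx).mono fun t ⟨⟨a1, a2⟩, ht⟩ => ?_⟩
  have b1 := np _ ht
  have b2 := np _ (neg_ne_zero.2 ht)
  set p := n (x0 + t • x1)
  set m := n (-(x0 + t • x1))
  field_simp at a1 a2
  simp only [eval_neg]
  have b3 : (p + m) * (p - m + R1.eval t) = 0 := by linarith
  have b4 : p - m + R1.eval t = 0 := (mul_eq_zero.1 b3).resolve_left (by positivity)
  constructor
  · linarith
  · linear_combination a1 - p * b4

theorem core2 (b : Module.Basis (Fin (N + 1)) ℝ E) {Φ : E → ℝ} (hc : Continuous Φ)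
    (hp : ∀ y, y ≠ 0 → 0 < Φ y) (hh : ∀ t : ℝ, 0 ≤ t → ∀ y, Φ (t • y) = t * Φ y)
    {c : (Fin N → ℝ) → E} {Lc : NNReal} (hcL : LipschitzWith Lc c)
    {A : (Fin N → ℝ) → Y →L[ℝ] E} {L : NNReal} (hA : LipschitzWith L A) {n : Y → ℝ} {K : NNReal}
    (nK : LipschitzWith K n)
    (np : ∀ y, y ≠ 0 → 0 < n y) (nh : ∀ t : ℝ, 0 ≤ t → ∀ y, n (t • y) = t * n y)
    (H1 : ∀ w ∈ cube N, Φ (c w) < 1) (H2 : ∀ w ∈ cube N, ∀ x, Φ (c w + A w x) = 1 ↔ n x = 1)
    (H3 : ∀ w ∈ cube N, ∀ x, x ≠ 0 → ∀ t : ℝ, A w x ≠ t • phi b w)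
    (H4 : ∀ w ∈ cube N, (∃ i, w i = 1 ∨ w i = -1) → b.coord 0 (c w) = 0 ∧ ∀ x, b.coord 0 (A w x) = 0) :
    ∃ (l : Y →ₗ[ℝ] ℝ) (B : Y →ₗ[ℝ] Y →ₗ[ℝ] ℝ), ∀ x, n x - n (-x) = l x ∧ n x * n (-x) = B x x := by
  have n0 : n 0 = 0 := by simpa using nh 0 le_rfl 0
  have nc := nK.continuous
  have nb : ∀ x, |n x| ≤ K * ‖x‖ := fun x => by
    simpa [n0, Real.dist_eq] using nK.dist_le_mul x 0
  have line : ∀ x0 x1 : Y, (∃ a b : ℝ, ∀ t : ℝ, n (x0 + t • x1) - n (-(x0 + t • x1)) = a + b * t) ∧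
      ∃ a b c : ℝ, ∀ t : ℝ, n (x0 + t • x1) * n (-(x0 + t • x1)) = a + b * t + c * t ^ 2 := by
    intro x0 x1
    by_cases h1 : x1 = 0
    · exact ⟨⟨n x0 - n (-x0), 0, fun t => by simp [h1]⟩, n x0 * n (-x0), 0, 0, fun t => by simp [h1]⟩
    have hx : ∀ᶠ t : ℝ in cofinite, x0 + t • x1 ≠ 0 := by
      refine Set.Subsingleton.finite fun t ht s hs => ?_
      simp only [mem_compl_iff, mem_setOf_eq, not_not] at ht hs
      exact smul_left_injective ℝ h1 (add_left_cancel (ht.trans hs.symm))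
    obtain ⟨R1, R2, hR⟩ := line_roots b hc hp hh hcL hA np nh H1 H2 H3 H4 x0 x1 hx
    have hd := Set.Countable.dense_compl ℝ (Set.Finite.countable hR)
    rw [compl_compl] at hd
    have e1 := Continuous.ext_on hd (f := fun t : ℝ => n (x0 + t • x1) - n (-(x0 + t • x1)))
      (by fun_prop) R1.continuous fun t ht => ht.1
    have e2 := Continuous.ext_on hd (f := fun t : ℝ => n (x0 + t • x1) * n (-(x0 + t • x1)))
      (by fun_prop) R2.continuous fun t ht => ht.2
    have g : ∀ t : ℝ, 0 ≤ t → K * ‖x0 + t • x1‖ ≤ K * (‖x0‖ + ‖x1‖) * (t + 1) := fun t ht => by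
      have := norm_add_le x0 (t • x1)
      rw [norm_smul, Real.norm_eq_abs, abs_of_nonneg ht] at this
      rw [mul_assoc]
      gcongr
      nlinarith [norm_nonneg x0, norm_nonneg x1]
    have d1 : R1.natDegree ≤ 1 := deg_of_growth (C0 := 2 * (K * (‖x0‖ + ‖x1‖))) fun t ht => by
      rw [← congrFun e1 t]
      have a1 := nb (x0 + t • x1)
      have a2 := nb (-(x0 + t • x1))
      rw [norm_neg] at a2
      have a3 := abs_sub (n (x0 + t • x1)) (n (-(x0 + t • x1)))
      linarith [g t ht]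
    have d2 : R2.natDegree ≤ 2 := deg_of_growth (C0 := (K * (‖x0‖ + ‖x1‖)) ^ 2) fun t ht => by
      rw [← congrFun e2 t, abs_mul, ← mul_pow, sq]
      have a2 := nb (-(x0 + t • x1))
      rw [norm_neg] at a2
      exact mul_le_mul ((nb _).trans (g t ht)) (a2.trans (g t ht)) (abs_nonneg _) (by positivity)
    refine ⟨⟨R1.coeff 0, R1.coeff 1, fun t => ?_⟩, R2.coeff 0, R2.coeff 1, R2.coeff 2, fun t => ?_⟩
    · rw [congrFun e1 t, eval_eq_sum_range' (Nat.lt_succ_of_le d1)]
      simp [Finset.sum_range_succ]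
    · rw [congrFun e2 t, eval_eq_sum_range' (Nat.lt_succ_of_le d2)]
      simp [Finset.sum_range_succ]
  obtain ⟨B, hB⟩ := bilin_of_quad (Q := fun x => n x * n (-x))
    (fun t ht y => by rw [← smul_neg, nh t ht, nh t ht]; ring) (fun x y => (line x y).2)
  have sm : ∀ (t : ℝ) x, n (t • x) - n (-(t • x)) = t * (n x - n (-x)) := fun t x => by
    rcases le_total 0 t with h | h
    · rw [← smul_neg, nh t h, nh t h]; ring
    · rw [← neg_smul, nh (-t) (by linarith), ← neg_neg t, neg_smul, ← smul_neg,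
        nh (-t) (by linarith)]
      ring
  refine ⟨{ toFun := fun x => n x - n (-x), map_add' := fun x y => ?_, map_smul' := sm }, B,
    fun x => ⟨rfl, hB x⟩⟩
  obtain ⟨a, b, h⟩ := (line x (y - x)).1
  have h0 := h 0
  have h1 := h 1
  have h2 := h (1 / 2)
  rw [show x + (1 / 2 : ℝ) • (y - x) = (1 / 2 : ℝ) • (x + y) by module, sm] at h2
  simp only [zero_smul, add_zero, one_smul, add_sub_cancel] at h0 h1
  linarith

end Pool.Agent.Lib.BF40
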