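import Pool.Agent.Lib.BF40.Limit

/- Exact homotopy invariance for Lipschitz maps. -/

namespace Pool.Agent.Lib.BF40

open Filter Topology Set MeasureTheory

/-- maps with good smooth approximations on the cube -/
def Good {N : ℕ} {V : Type*} [NormedAddCommGroup V] [NormedSpace ℝ V] (F : (Fin N → ℝ) → V) : Prop :=
  Continuous F ∧ ∃ (M : ℝ) (Fn : ℕ → (Fin N → ℝ) → V), (∀ n, ContDiff ℝ 2 (Fn n)) ∧
    (∀ n, ∀ w ∈ cube N, ‖Fn n w - F w‖ ≤ 1 / ((n : ℝ) + 1)) ∧
    (∀ n, ∀ w ∈ cube N, ‖fderiv ℝ (Fn n) w‖ ≤ M) ∧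
    ∀ᵐ w, Tendsto (fun n => fderiv ℝ (Fn n) w) atTop (𝓝 (fderiv ℝ F w))

theorem good_of_smooth {N : ℕ} {V : Type*} [NormedAddCommGroup V] [NormedSpace ℝ V]
    {F : (Fin N → ℝ) → V} (hF : ContDiff ℝ 2 F) : Good F := by
  obtain ⟨M, hM⟩ := (cube_compact N).exists_bound_of_continuousOn
    (hF.continuous_fderiv (by simp)).continuousOn
  exact ⟨hF.continuous, M, fun _ => F, fun _ => hF, fun n w _ => by
    rw [sub_self, norm_zero]; positivity, fun _ => hM, Eventually.of_forall fun _ => tendsto_const_nhds⟩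

theorem good_of_lip {N : ℕ} {V : Type*} [NormedAddCommGroup V] [NormedSpace ℝ V]
    [FiniteDimensional ℝ V] {A : (Fin N → ℝ) → V} {L : NNReal} (hA : LipschitzWith L A) :
    Good A := by
  have : CompleteSpace V := FiniteDimensional.complete ℝ V
  borelize ((Fin N → ℝ) →L[ℝ] V)
  have hr : ∀ n : ℕ, 0 < 1 / ((n : ℝ) + 1) / (L + 1) := fun n => by positivity
  let φ : ℕ → ContDiffBump (0 : Fin N → ℝ) := fun n =>
    ⟨1 / ((n : ℝ) + 1) / (L + 1) / 2, 1 / ((n : ℝ) + 1) / (L + 1), by positivity, by linarith [hr n]⟩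
  have hl : LocallyIntegrable A volume := hA.continuous.locallyIntegrable
  have hm : AEStronglyMeasurable (fderiv ℝ A) volume := (measurable_fderiv ℝ A).aestronglyMeasurable
  have hb : ∀ w, ‖fderiv ℝ A w‖ ≤ L := fun w => norm_fderiv_le_of_lipschitz ℝ hA
  have hl' : LocallyIntegrable (fderiv ℝ A) volume :=
    (memLp_top_of_bound hm L (Eventually.of_forall hb)).locallyIntegrable le_top
  have hd : ∀ n w, fderiv ℝ (convolution ((φ n).normed volume) A (ContinuousLinearMap.lsmul ℝ ℝ)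
      volume) w = convolution ((φ n).normed volume) (fderiv ℝ A) (ContinuousLinearMap.lsmul ℝ ℝ)
      volume w := by
    intro n w
    have ex := ((φ n).hasCompactSupport_normed (μ := volume)).convolutionExists_left
      (ContinuousLinearMap.lsmul ℝ ℝ) (φ n).continuous_normed hl
    have ex' := ((φ n).hasCompactSupport_normed (μ := volume)).convolutionExists_left
      (ContinuousLinearMap.lsmul ℝ ℝ) (φ n).continuous_normed hl'
    have := hasFDerivAt_integral_of_dominated_loc_of_lip' (𝕜 := ℝ) (μ := volume)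
      (F := fun x t => (φ n).normed volume t • A (x - t))
      (F' := fun t => (φ n).normed volume t • fderiv ℝ A (w - t))
      (bound := fun t => (φ n).normed volume t * L) (x₀ := w) univ_mem
      (fun x _ => (ex x).integrable.1) (ex w).integrable (ex' w).integrable.1
      (Eventually.of_forall fun t x _ => by
        rw [← smul_sub, norm_smul, Real.norm_eq_abs, abs_of_nonneg ((φ n).nonneg_normed t),
          ← dist_eq_norm, ← dist_eq_norm, mul_assoc]
        refine mul_le_mul_of_nonneg_left ?_ ((φ n).nonneg_normed t)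
        simpa using hA.dist_le_mul (x - t) (w - t))
      ((φ n).integrable_normed.mul_const _) (by
        filter_upwards [(Measure.measurePreserving_sub_left volume w).quasiMeasurePreserving.ae
          (hA.ae_differentiableAt (μ := volume))] with t ht
        have := (ht.hasFDerivAt.comp w ((hasFDerivAt_id w).sub_const t)).const_smul
          ((φ n).normed volume t)
        rw [ContinuousLinearMap.comp_id] at this
        exact this)
    exact this.2.fderiv
  refine ⟨hA.continuous, L, fun n => convolution ((φ n).normed volume) A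
    (ContinuousLinearMap.lsmul ℝ ℝ) volume, fun n => (φ n).hasCompactSupport_normed.contDiff_convolution_left
      (n := 2) _ (φ n).contDiff_normed hl, fun n w _ => ?_, fun n w _ => ?_, ?_⟩
  · rw [← dist_eq_norm]
    refine (φ n).dist_normed_convolution_le hA.continuous.aestronglyMeasurable fun x hx => ?_
    refine (hA.dist_le_mul x w).trans ?_
    have : dist x w ≤ 1 / ((n : ℝ) + 1) / (L + 1) := (Metric.mem_ball.1 hx).le
    calc (L : ℝ) * dist x w ≤ (L + 1) * (1 / ((n : ℝ) + 1) / (L + 1)) := by gcongr; linarith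
      _ = _ := by field_simp
  · rw [hd, convolution_lsmul]
    refine (norm_integral_le_of_norm_le ((φ n).integrable_normed.mul_const (L : ℝ))
      (Eventually.of_forall fun t => ?_)).trans ?_
    · rw [norm_smul, Real.norm_eq_abs, abs_of_nonneg ((φ n).nonneg_normed t)]
      exact mul_le_mul_of_nonneg_left (hb _) ((φ n).nonneg_normed t)
    · rw [integral_mul_const, (φ n).integral_normed, one_mul]
  · simp only [hd]
    refine ContDiffBump.ae_convolution_tendsto_right_of_locallyIntegrable (K := 2) ?_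
      (Eventually.of_forall fun n => le_of_eq (by simp only [φ]; ring)) hl'
    have := (tendsto_one_div_add_atTop_nhds_zero_nat (𝕜 := ℝ)).div_const ((L : ℝ) + 1)
    rw [zero_div] at this
    exact this

variable {E : Type*} [NormedAddCommGroup E] [InnerProductSpace ℝ E] [FiniteDimensional ℝ E] {N : ℕ}

theorem wint_lim (b : Module.Basis (Fin (N + 1)) ℝ E) {g : E → ℝ} (hg : ContinuousOn g {0}ᶜ)
    {F : (Fin N → ℝ) → E} (hF : Continuous F) (h0 : ∀ w ∈ cube N, F w ≠ 0) {M : ℝ}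
    {Fn : ℕ → (Fin N → ℝ) → E} (h1 : ∀ n, ContDiff ℝ 2 (Fn n))
    (h2 : ∀ n, ∀ w ∈ cube N, ‖Fn n w - F w‖ ≤ 1 / ((n : ℝ) + 1))
    (h3 : ∀ n, ∀ w ∈ cube N, ‖fderiv ℝ (Fn n) w‖ ≤ M)
    (h4 : ∀ᵐ w, Tendsto (fun n => fderiv ℝ (Fn n) w) atTop (𝓝 (fderiv ℝ F w))) :
    Tendsto (fun n => wint b (Fn n) (fun w => g (Fn n w))) atTop (𝓝 (wint b F fun w => g (F w))) := by
  have hK : IsCompact (F '' cube N) := (cube_compact N).image hF
  obtain ⟨δ, hδ, H⟩ := hK.exists_cthickening_subset_open (isOpen_compl_singleton (x := (0 : E)))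
    (by rintro _ ⟨w, hw, rfl⟩; exact h0 w hw)
  have hK1 : IsCompact (Metric.cthickening δ (F '' cube N)) := hK.cthickening
  obtain ⟨C, hC⟩ := hK1.exists_bound_of_continuousOn (hg.mono H)
  obtain ⟨R, hR⟩ := hK1.isBounded.exists_norm_le
  have ev : ∀ᶠ n : ℕ in atTop, ∀ w ∈ cube N, Fn n w ∈ Metric.cthickening δ (F '' cube N) := by
    filter_upwards [(tendsto_one_div_add_atTop_nhds_zero_nat (𝕜 := ℝ)).eventually
      (ge_mem_nhds hδ)] with n hn w hw
    refine Metric.mem_cthickening_of_dist_le _ (F w) _ _ ⟨w, hw, rfl⟩ ?_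
    rw [dist_eq_norm]
    exact (h2 n w hw).trans hn
  have hc : MeasurableSet (cube N) := measurableSet_Icc
  have : IsFiniteMeasure (volume.restrict (cube N)) :=
    ⟨by simpa using (cube_compact N).measure_lt_top⟩
  refine tendsto_integral_filter_of_dominated_convergence
    (fun _ => C * (‖om b‖ * (max R M) ^ (N + 1))) ?_ ?_ (integrable_const _) ?_
  · filter_upwards [ev] with n hn
    exact (wint_int b (h1 n) (hg.comp (h1 n).continuous.continuousOn fun w hw => H (hn w hw))).1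
  · filter_upwards [ev] with n hn
    refine (ae_restrict_iff' hc).2 (Eventually.of_forall fun w hw => ?_)
    rw [norm_mul]
    exact mul_le_mul (hC _ (hn w hw)) (jac_bound b ((hR _ (hn w hw)).trans (le_max_left _ _))
      ((h3 n w hw).trans (le_max_right _ _))) (norm_nonneg _) ((norm_nonneg _).trans (hC _ (hn w hw)))
  · refine (ae_restrict_iff' hc).2 ?_
    filter_upwards [h4] with w hw hw'
    have t1 : Tendsto (fun n => Fn n w) atTop (𝓝 (F w)) := by
      rw [tendsto_iff_norm_sub_tendsto_zero]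
      exact squeeze_zero (fun _ => norm_nonneg _) (fun n => h2 n w hw')
        tendsto_one_div_add_atTop_nhds_zero_nat
    refine ((hg.continuousAt (isOpen_compl_singleton.mem_nhds (h0 w hw'))).tendsto.comp t1).mul ?_
    refine ((om b).cont.tendsto _).comp (tendsto_pi_nhds.2 fun j => ?_)
    refine Fin.cases ?_ (fun i => ?_) j
    · simpa using t1
    · exact ((ContinuousLinearMap.apply ℝ E (Pi.single i 1)).continuous.tendsto _).comp hw

theorem key2 (b : Module.Basis (Fin (N + 1)) ℝ E) {g : E → ℝ} (hg : ContinuousOn g {0}ᶜ)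
    (hom : ∀ y, y ≠ 0 → ∀ t : ℝ, 0 < t → g (t • y) = (t ^ (N + 1))⁻¹ * g y)
    {F G : (Fin N → ℝ) → E} (hF : Continuous F) (hG : Continuous G)
    (hne : ∀ w ∈ cube N, ∀ t ∈ Icc (0 : ℝ) 1, (1 - t) • F w + t • G w ≠ 0)
    (hbd : ∀ w ∈ cube N, (∃ i, w i = 1 ∨ w i = -1) → ∀ t ∈ Icc (0 : ℝ) 1,
      g ((1 - t) • F w + t • G w) = 0) (M ε : ℝ) (hε : 0 < ε) :
    ∃ δ > 0, ∀ F' G' : (Fin N → ℝ) → E, ContDiff ℝ 2 F' → ContDiff ℝ 2 G' →
      (∀ w ∈ cube N, ‖F' w - F w‖ < δ) → (∀ w ∈ cube N, ‖G' w - G w‖ < δ) →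
      (∀ w ∈ cube N, ‖fderiv ℝ F' w‖ ≤ M) → (∀ w ∈ cube N, ‖fderiv ℝ G' w‖ ≤ M) →
      |wint b F' (fun w => g (F' w)) - wint b G' (fun w => g (G' w))| ≤ ε := by
  set seg : (Fin N → ℝ) × ℝ → E := fun p => (1 - p.2) • F p.1 + p.2 • G p.1 with hseg
  have hsc : Continuous seg := by fun_prop
  have hK : IsCompact (seg '' (cube N ×ˢ Icc 0 1)) :=
    ((cube_compact N).prod isCompact_Icc).image hsc
  obtain ⟨ρ2, hρ2, H1⟩ := near hK (isOpen_compl_singleton (x := (0 : E))) (by
    rintro _ ⟨p, hp, rfl⟩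
    exact hne _ hp.1 _ hp.2)
  set ρ := ρ2 / 2 with hρd
  have hρ : 0 < ρ := by positivity
  have H2 : ∀ y ∈ seg '' (cube N ×ˢ Icc 0 1), ∀ y', ‖y' - y‖ < ρ → ρ ≤ ‖y'‖ := by
    intro y hy y' hy'
    by_contra hlt
    push Not at hlt
    refine H1 y hy 0 ?_ rfl
    have := norm_sub_le (y' - y) y'
    rw [show y' - y - y' = 0 - y by abel] at this
    linarith
  obtain ⟨R0, hR0⟩ := hK.isBounded.exists_norm_le
  set R := |R0| + ρ + |M| with hR
  set C := ‖om b‖ * R ^ (N + 1) * volume.real (cube N) with hC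
  have hC0 : 0 ≤ C := by positivity
  set η := ε * ρ ^ (N + 1) / (4 * (C + 1)) with hη
  have hη0 : 0 < η := by positivity
  obtain ⟨g', a1, a2, a3, a4⟩ := approx hg hom η hη0
  have hK' : IsCompact (seg '' ((cube N ∩ ⋃ i, {w | w i = 1 ∨ w i = -1}) ×ˢ Icc 0 1)) := by
    refine (((cube_compact N).inter_right (isClosed_iUnion_of_finite fun i => ?_)).prod
      isCompact_Icc).image hsc
    exact (isClosed_eq (continuous_apply i) continuous_const).union
      (isClosed_eq (continuous_apply i) continuous_const)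
  have hU : IsOpen (({0}ᶜ : Set E) ∩ (fun y => |‖y‖ ^ (N + 1) * g y|) ⁻¹' Iio η) :=
    (((continuous_norm.pow _).continuousOn.mul hg).abs).isOpen_inter_preimage
      isOpen_compl_singleton isOpen_Iio
  obtain ⟨δ2, hδ2, H3⟩ := near hK' hU (by
    rintro _ ⟨p, hp, rfl⟩
    refine ⟨hne _ hp.1.1 _ hp.2, ?_⟩
    have := hbd _ hp.1.1 (by simpa using hp.1.2) _ hp.2
    simp only [mem_preimage, mem_Iio, hseg, this]
    simpa using hη0)
  refine ⟨min ρ δ2, by positivity, fun F' G' hF' hG' h1 h1' h2 h2' => ?_⟩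
  have cl : ∀ w ∈ cube N, ∀ t ∈ Icc (0 : ℝ) 1,
      ‖(1 - t) • F' w + t • G' w - seg (w, t)‖ < min ρ δ2 := by
    intro w hw t ht
    have e : (1 - t) • F' w + t • G' w - seg (w, t)
        = (1 - t) • (F' w - F w) + t • (G' w - G w) := by
      simp only [hseg, smul_sub]; abel
    rw [e, ← mem_ball_zero_iff]
    exact convex_ball _ _ (mem_ball_zero_iff.2 (h1 w hw)) (mem_ball_zero_iff.2 (h1' w hw))
      (by linarith [ht.2]) ht.1 (by ring)
  have lb : ∀ w ∈ cube N, ∀ t ∈ Icc (0 : ℝ) 1, ρ ≤ ‖(1 - t) • F' w + t • G' w‖ := fun w hw t ht =>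
    H2 _ ⟨(w, t), ⟨hw, ht⟩, rfl⟩ _ ((cl w hw t ht).trans_le (min_le_left _ _))
  have ub : ∀ w ∈ cube N, ∀ t ∈ Icc (0 : ℝ) 1, ‖(1 - t) • F' w + t • G' w‖ ≤ R := by
    intro w hw t ht
    have a := (cl w hw t ht).trans_le (min_le_left _ _)
    have c := hR0 _ ⟨(w, t), ⟨hw, ht⟩, rfl⟩
    have d := norm_sub_norm_le ((1 - t) • F' w + t • G' w) (seg (w, t))
    linarith [le_abs_self R0, abs_nonneg M]
  have nz : ∀ y : E, ρ ≤ ‖y‖ → y ≠ 0 := fun y hy => norm_pos_iff.1 (hρ.trans_le hy)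
  have HI := homotopy b a1 a2 hF' hG' (fun w hw t ht => nz _ (lb w hw t ht)) (fun w hw hi t ht => by
    have := H3 _ ⟨(w, t), ⟨⟨hw, by simpa using hi⟩, ht⟩, rfl⟩ _
      ((cl w hw t ht).trans_le (min_le_right _ _))
    exact a4 _ this.1 this.2)
  have cg' : ContinuousOn g' {0}ᶜ := fun y hy => (a1 y hy).continuousAt.continuousWithinAt
  have est : ∀ P : (Fin N → ℝ) → E, ContDiff ℝ 2 P → (∀ w ∈ cube N, ρ ≤ ‖P w‖) →
      (∀ w ∈ cube N, ‖P w‖ ≤ R) → (∀ w ∈ cube N, ‖fderiv ℝ P w‖ ≤ R) →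
      |wint b P (fun w => g (P w)) - wint b P (fun w => g' (P w))| ≤ ε / 2 := by
    intro P hP p1 p2 p3
    have := wint_sub b hP (hg.comp hP.continuous.continuousOn fun w hw => nz _ (p1 w hw))
      (cg'.comp hP.continuous.continuousOn fun w hw => nz _ (p1 w hw))
      (ε := 2 * η / ρ ^ (N + 1)) (fun w hw => (a3 _ (nz _ (p1 w hw))).trans (by
        gcongr; exact p1 w hw)) p2 p3
    refine this.trans ?_
    rw [← hC, hη]
    calc _ = ε / 2 * (C / (C + 1)) := by field_simp; ring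
      _ ≤ ε / 2 * 1 := by gcongr; rw [div_le_one (by positivity)]; linarith
      _ = _ := mul_one _
  have e1 := est F' hF' (fun w hw => by simpa using lb w hw 0 (by simp))
    (fun w hw => by simpa using ub w hw 0 (by simp))
    (fun w hw => by linarith [h2 w hw, le_abs_self M, abs_nonneg R0])
  have e2 := est G' hG' (fun w hw => by simpa using lb w hw 1 (by simp))
    (fun w hw => by simpa using ub w hw 1 (by simp))
    (fun w hw => by linarith [h2' w hw, le_abs_self M, abs_nonneg R0])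
  rw [HI] at e1
  rw [abs_le] at e1 e2 ⊢
  constructor <;> linarith [e1.1, e1.2, e2.1, e2.2]

theorem hinv (b : Module.Basis (Fin (N + 1)) ℝ E) {g : E → ℝ} (hg : ContinuousOn g {0}ᶜ)
    (hom : ∀ y, y ≠ 0 → ∀ t : ℝ, 0 < t → g (t • y) = (t ^ (N + 1))⁻¹ * g y)
    {F G : (Fin N → ℝ) → E} (hF : Good F) (hG : Good G)
    (hne : ∀ w ∈ cube N, ∀ t ∈ Icc (0 : ℝ) 1, (1 - t) • F w + t • G w ≠ 0)
    (hbd : ∀ w ∈ cube N, (∃ i, w i = 1 ∨ w i = -1) → ∀ t ∈ Icc (0 : ℝ) 1,
      g ((1 - t) • F w + t • G w) = 0) :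
    wint b F (fun w => g (F w)) = wint b G (fun w => g (G w)) := by
  obtain ⟨f0, M, Fn, f1, f2, f3, f4⟩ := hF
  obtain ⟨g0, M', Gn, g1, g2, g3, g4⟩ := hG
  have l1 := wint_lim b hg f0 (fun w hw => by simpa using hne w hw 0 (by simp)) f1 f2 f3 f4
  have l2 := wint_lim b hg g0 (fun w hw => by simpa using hne w hw 1 (by simp)) g1 g2 g3 g4
  refine sub_eq_zero.1 (abs_nonpos_iff.1 (le_of_forall_pos_le_add fun ε hε => ?_))
  rw [zero_add]
  obtain ⟨δ, hδ, H⟩ := key2 b hg hom f0 g0 hne hbd (max M M') ε hε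
  refine le_of_tendsto (l1.sub l2).abs ?_
  filter_upwards [(tendsto_one_div_add_atTop_nhds_zero_nat (𝕜 := ℝ)).eventually
    (gt_mem_nhds hδ)] with n hn
  exact H _ _ (f1 n) (g1 n) (fun w hw => (f2 n w hw).trans_lt hn) (fun w hw => (g2 n w hw).trans_lt hn)
    (fun w hw => (f3 n w hw).trans (le_max_left _ _))
    (fun w hw => (g3 n w hw).trans (le_max_right _ _))

end Pool.Agent.Lib.BF40
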