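import Pool.Agent.Lib.BF40.Stokes

/- Stability of the weighted integral under uniform approximation. -/

namespace Pool.Agent.Lib.BF40

open Filter Topology Set MeasureTheory

theorem near {E : Type*} [NormedAddCommGroup E] {K U : Set E} (hK : IsCompact K) (hU : IsOpen U)
    (h : K ⊆ U) : ∃ δ > 0, ∀ y ∈ K, ∀ y', ‖y' - y‖ < δ → y' ∈ U := by
  obtain ⟨δ, hδ, H⟩ := hK.exists_thickening_subset_open hU h
  refine ⟨δ, hδ, fun y hy y' hy' => H ?_⟩
  rw [Metric.mem_thickening_iff]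
  exact ⟨y, hy, by rwa [dist_eq_norm]⟩

theorem cube_compact (N : ℕ) : IsCompact (cube N) := isCompact_Icc

section

variable {E : Type*} [NormedAddCommGroup E] [NormedSpace ℝ E] [FiniteDimensional ℝ E] {N : ℕ}

theorem jac_cont (b : Module.Basis (Fin (N + 1)) ℝ E) {F : (Fin N → ℝ) → E} (hF : ContDiff ℝ 2 F) :
    Continuous (jac b F) := by
  refine (om b).cont.comp (continuous_pi fun j => ?_)
  refine Fin.cases ?_ (fun i => ?_) j
  · simpa using hF.continuous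
  · simpa using (hF.continuous_fderiv (by simp)).clm_apply continuous_const

theorem jac_bound (b : Module.Basis (Fin (N + 1)) ℝ E) {F : (Fin N → ℝ) → E} {w : Fin N → ℝ} {R : ℝ}
    (h1 : ‖F w‖ ≤ R) (h2 : ‖fderiv ℝ F w‖ ≤ R) : |jac b F w| ≤ ‖om b‖ * R ^ (N + 1) := by
  refine (om b).le_opNorm_mul_pow_of_le ?_
  rw [pi_norm_le_iff_of_nonneg ((norm_nonneg _).trans h1)]
  intro j
  refine Fin.cases ?_ (fun i => ?_) j
  · simpa using h1
  · have := (fderiv ℝ F w).le_opNorm (Pi.single i 1)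
    rw [Pi.norm_single, norm_one, mul_one] at this
    simpa using this.trans h2

theorem wint_int (b : Module.Basis (Fin (N + 1)) ℝ E) {F : (Fin N → ℝ) → E} (hF : ContDiff ℝ 2 F)
    {u : (Fin N → ℝ) → ℝ} (hu : ContinuousOn u (cube N)) :
    IntegrableOn (fun w => u w * jac b F w) (cube N) :=
  (hu.mul (jac_cont b hF).continuousOn).integrableOn_compact (cube_compact N)

theorem wint_sub (b : Module.Basis (Fin (N + 1)) ℝ E) {F : (Fin N → ℝ) → E} (hF : ContDiff ℝ 2 F)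
    {u u' : (Fin N → ℝ) → ℝ} (hu : ContinuousOn u (cube N)) (hu' : ContinuousOn u' (cube N))
    {ε R : ℝ} (h0 : ∀ w ∈ cube N, |u w - u' w| ≤ ε) (h1 : ∀ w ∈ cube N, ‖F w‖ ≤ R)
    (h2 : ∀ w ∈ cube N, ‖fderiv ℝ F w‖ ≤ R) :
    |wint b F u - wint b F u'| ≤ ε * (‖om b‖ * R ^ (N + 1) * volume.real (cube N)) := by
  unfold wint
  rw [← integral_sub (wint_int b hF hu) (wint_int b hF hu'), ← mul_assoc, ← Real.norm_eq_abs]
  refine norm_setIntegral_le_of_norm_le_const (cube_compact N).measure_lt_top fun w hw => ?_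
  rw [← sub_mul, Real.norm_eq_abs, abs_mul]
  exact mul_le_mul (h0 w hw) (jac_bound b (h1 w hw) (h2 w hw)) (abs_nonneg _)
    ((abs_nonneg _).trans (h0 w hw))

end

variable {E : Type*} [NormedAddCommGroup E] [InnerProductSpace ℝ E] [FiniteDimensional ℝ E] {N : ℕ}

theorem approx {g : E → ℝ} (hg : ContinuousOn g {0}ᶜ)
    (hom : ∀ y, y ≠ 0 → ∀ t : ℝ, 0 < t → g (t • y) = (t ^ (N + 1))⁻¹ * g y) (η : ℝ) (hη : 0 < η) :
    ∃ g' : E → ℝ, (∀ y, y ≠ 0 → DifferentiableAt ℝ g' y) ∧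
      (∀ y, y ≠ 0 → ∀ t : ℝ, 0 < t → g' (t • y) = (t ^ (N + 1))⁻¹ * g' y) ∧
      (∀ y, y ≠ 0 → |g y - g' y| ≤ 2 * η / ‖y‖ ^ (N + 1)) ∧
      ∀ y, y ≠ 0 → |‖y‖ ^ (N + 1) * g y| < η → g' y = 0 := by
  have hs : Metric.sphere (0 : E) 1 ⊆ {0}ᶜ := by
    intro y hy h
    rw [mem_singleton_iff.1 h] at hy
    simp at hy
  obtain ⟨κ, hκ⟩ := ContinuousMap.exists_restrict_eq (Metric.isClosed_sphere (x := (0 : E)) (ε := 1))
    ⟨_, (hg.mono hs).restrict⟩
  have hκ' : ∀ y, ‖y‖ = 1 → κ y = g y := fun y hy =>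
    congrArg (fun f : C(Metric.sphere (0 : E) 1, ℝ) => f ⟨y, by simpa using hy⟩) hκ
  have hc : Continuous fun y => κ y - max (-η) (min η (κ y)) := by fun_prop
  obtain ⟨q, hq1, hq2, hq3⟩ := hc.exists_contDiff_approx 1 (ε := fun _ => η) continuous_const
    (fun _ => hη)
  have hn : ∀ y : E, y ≠ 0 → ‖‖y‖⁻¹ • y‖ = 1 := fun y hy => by
    rw [norm_smul, norm_inv, norm_norm, inv_mul_cancel₀ (norm_ne_zero_iff.2 hy)]
  have hgy : ∀ y : E, y ≠ 0 → κ (‖y‖⁻¹ • y) = ‖y‖ ^ (N + 1) * g y := fun y hy => by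
    rw [hκ' _ (hn y hy), hom y hy _ (inv_pos.2 (norm_pos_iff.2 hy)), inv_pow, inv_inv]
  refine ⟨fun y => q (‖y‖⁻¹ • y) * (‖y‖ ^ (N + 1))⁻¹, fun y hy => ?_, fun y hy t ht => ?_,
    fun y hy => ?_, fun y hy h => ?_⟩
  · have a : DifferentiableAt ℝ (fun y : E => ‖y‖) y := differentiableAt_id.norm ℝ hy
    have h0 : ‖y‖ ≠ 0 := norm_ne_zero_iff.2 hy
    exact ((hq1.differentiable (by simp) _).comp y ((a.inv h0).smul differentiableAt_id)).mul
      ((a.pow _).inv (pow_ne_zero _ h0))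
  · have h0 : ‖y‖ ≠ 0 := norm_ne_zero_iff.2 hy
    simp only [norm_smul, Real.norm_eq_abs, abs_of_pos ht, smul_smul]
    rw [show (t * ‖y‖)⁻¹ * t = ‖y‖⁻¹ by field_simp, mul_pow, mul_inv]
    ring
  · have h0 : 0 < ‖y‖ ^ (N + 1) := pow_pos (norm_pos_iff.2 hy) _
    have a := hq2 (‖y‖⁻¹ • y)
    rw [Real.dist_eq, hgy y hy] at a
    have e : g y - q (‖y‖⁻¹ • y) * (‖y‖ ^ (N + 1))⁻¹
        = (‖y‖ ^ (N + 1) * g y - q (‖y‖⁻¹ • y)) / ‖y‖ ^ (N + 1) := by field_simp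
    rw [e, abs_div, abs_of_pos h0]
    gcongr
    have c1 : -η ≤ max (-η) (min η (‖y‖ ^ (N + 1) * g y)) := le_max_left _ _
    have c2 : max (-η) (min η (‖y‖ ^ (N + 1) * g y)) ≤ η := max_le (by linarith) (min_le_left _ _)
    rw [abs_lt] at a
    rw [abs_le]
    constructor <;> linarith [a.1, a.2]
  · have : q (‖y‖⁻¹ • y) = 0 := by
      by_contra hne
      apply hq3 hne
      rw [abs_lt] at h
      simp only [hgy y hy]
      rw [min_eq_right h.2.le, max_eq_right h.1.le, sub_self]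
    simp [this]

theorem key (b : Module.Basis (Fin (N + 1)) ℝ E) {g : E → ℝ} (hg : ContinuousOn g {0}ᶜ)
    (hom : ∀ y, y ≠ 0 → ∀ t : ℝ, 0 < t → g (t • y) = (t ^ (N + 1))⁻¹ * g y)
    {F G : (Fin N → ℝ) → E} (hF : Continuous F) (hG : ContDiff ℝ 2 G)
    (hne : ∀ w ∈ cube N, ∀ t ∈ Icc (0 : ℝ) 1, (1 - t) • F w + t • G w ≠ 0)
    (hbd : ∀ w ∈ cube N, (∃ i, w i = 1 ∨ w i = -1) → ∀ t ∈ Icc (0 : ℝ) 1,
      g ((1 - t) • F w + t • G w) = 0) (M ε : ℝ) (hε : 0 < ε) :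
    ∃ δ > 0, ∀ F' : (Fin N → ℝ) → E, ContDiff ℝ 2 F' → (∀ w ∈ cube N, ‖F' w - F w‖ < δ) →
      (∀ w ∈ cube N, ‖fderiv ℝ F' w‖ ≤ M) →
      |wint b F' (fun w => g (F' w)) - wint b G (fun w => g (G w))| ≤ ε := by
  set seg : (Fin N → ℝ) × ℝ → E := fun p => (1 - p.2) • F p.1 + p.2 • G p.1 with hseg
  have hsc : Continuous seg := by
    have := hG.continuous
    fun_prop
  have hK : IsCompact (seg '' (cube N ×ˢ Icc 0 1)) :=
    ((cube_compact N).prod isCompact_Icc).image hsc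
  obtain ⟨ρ2, hρ2, H1⟩ := near hK (isOpen_compl_singleton (x := (0 : E))) (by
    rintro _ ⟨p, hp, rfl⟩
    exact hne _ hp.1 _ hp.2)
  set ρ := ρ2 / 2 with hρd
  have hρ : 0 < ρ := by positivity
  have H2 : ∀ y ∈ seg '' (cube N ×ˢ Icc 0 1), ∀ y', ‖y' - y‖ < ρ → ρ ≤ ‖y'‖ := by
    intro y hy y' hy'
    by_contra hlt
    push Not at hlt
    refine H1 y hy 0 ?_ rfl
    have := norm_sub_le (y' - y) y'
    rw [show y' - y - y' = 0 - y by abel] at this
    linarith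
  obtain ⟨R0, hR0⟩ := hK.isBounded.exists_norm_le
  obtain ⟨R1, hR1⟩ := (cube_compact N).exists_bound_of_continuousOn
    (hG.continuous_fderiv (by simp)).continuousOn
  set R := |R0| + ρ + |M| + |R1| with hR
  set C := ‖om b‖ * R ^ (N + 1) * volume.real (cube N) with hC
  have hC0 : 0 ≤ C := by positivity
  set η := ε * ρ ^ (N + 1) / (4 * (C + 1)) with hη
  have hη0 : 0 < η := by positivity
  obtain ⟨g', a1, a2, a3, a4⟩ := approx hg hom η hη0
  have hK' : IsCompact (seg '' ((cube N ∩ ⋃ i, {w | w i = 1 ∨ w i = -1}) ×ˢ Icc 0 1)) := by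
    refine (((cube_compact N).inter_right (isClosed_iUnion_of_finite fun i => ?_)).prod
      isCompact_Icc).image hsc
    exact (isClosed_eq (continuous_apply i) continuous_const).union
      (isClosed_eq (continuous_apply i) continuous_const)
  have hU : IsOpen (({0}ᶜ : Set E) ∩ (fun y => |‖y‖ ^ (N + 1) * g y|) ⁻¹' Iio η) :=
    (((continuous_norm.pow _).continuousOn.mul hg).abs).isOpen_inter_preimage
      isOpen_compl_singleton isOpen_Iio
  obtain ⟨δ2, hδ2, H3⟩ := near hK' hU (by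
    rintro _ ⟨p, hp, rfl⟩
    refine ⟨hne _ hp.1.1 _ hp.2, ?_⟩
    have := hbd _ hp.1.1 (by simpa using hp.1.2) _ hp.2
    simp only [mem_preimage, mem_Iio, hseg, this]
    simpa using hη0)
  refine ⟨min ρ δ2, by positivity, fun F' hF' h1 h2 => ?_⟩
  have cl : ∀ w ∈ cube N, ∀ t ∈ Icc (0 : ℝ) 1,
      ‖(1 - t) • F' w + t • G w - seg (w, t)‖ < min ρ δ2 := by
    intro w hw t ht
    have e : (1 - t) • F' w + t • G w - seg (w, t) = (1 - t) • (F' w - F w) := by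
      simp only [hseg, smul_sub]; abel
    rw [e, norm_smul, Real.norm_eq_abs, abs_of_nonneg (by linarith [ht.2])]
    have := h1 w hw
    nlinarith [ht.1, ht.2, norm_nonneg (F' w - F w)]
  have lb : ∀ w ∈ cube N, ∀ t ∈ Icc (0 : ℝ) 1, ρ ≤ ‖(1 - t) • F' w + t • G w‖ := fun w hw t ht =>
    H2 _ ⟨(w, t), ⟨hw, ht⟩, rfl⟩ _ ((cl w hw t ht).trans_le (min_le_left _ _))
  have ub : ∀ w ∈ cube N, ∀ t ∈ Icc (0 : ℝ) 1, ‖(1 - t) • F' w + t • G w‖ ≤ R := by
    intro w hw t ht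
    have a := (cl w hw t ht).trans_le (min_le_left _ _)
    have c := hR0 _ ⟨(w, t), ⟨hw, ht⟩, rfl⟩
    have d := norm_sub_norm_le ((1 - t) • F' w + t • G w) (seg (w, t))
    linarith [le_abs_self R0, abs_nonneg M, abs_nonneg R1]
  have nz : ∀ y : E, ρ ≤ ‖y‖ → y ≠ 0 := fun y hy => norm_pos_iff.1 (hρ.trans_le hy)
  have HI := homotopy b a1 a2 hF' hG (fun w hw t ht => nz _ (lb w hw t ht)) (fun w hw hi t ht => by
    have := H3 _ ⟨(w, t), ⟨⟨hw, by simpa using hi⟩, ht⟩, rfl⟩ _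
      ((cl w hw t ht).trans_le (min_le_right _ _))
    exact a4 _ this.1 this.2)
  have cg' : ContinuousOn g' {0}ᶜ := fun y hy => (a1 y hy).continuousAt.continuousWithinAt
  have est : ∀ P : (Fin N → ℝ) → E, ContDiff ℝ 2 P → (∀ w ∈ cube N, ρ ≤ ‖P w‖) →
      (∀ w ∈ cube N, ‖P w‖ ≤ R) → (∀ w ∈ cube N, ‖fderiv ℝ P w‖ ≤ R) →
      |wint b P (fun w => g (P w)) - wint b P (fun w => g' (P w))| ≤ ε / 2 := by
    intro P hP p1 p2 p3
    have := wint_sub b hP (hg.comp hP.continuous.continuousOn fun w hw => nz _ (p1 w hw))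
      (cg'.comp hP.continuous.continuousOn fun w hw => nz _ (p1 w hw))
      (ε := 2 * η / ρ ^ (N + 1)) (fun w hw => (a3 _ (nz _ (p1 w hw))).trans (by
        gcongr; exact p1 w hw)) p2 p3
    refine this.trans ?_
    rw [← hC, hη]
    calc _ = ε / 2 * (C / (C + 1)) := by field_simp; ring
      _ ≤ ε / 2 * 1 := by gcongr; rw [div_le_one (by positivity)]; linarith
      _ = _ := mul_one _
  have e1 := est F' hF' (fun w hw => by simpa using lb w hw 0 (by simp))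
    (fun w hw => by simpa using ub w hw 0 (by simp))
    (fun w hw => by linarith [h2 w hw, le_abs_self M, abs_nonneg R0, abs_nonneg R1])
  have e2 := est G hG (fun w hw => by simpa using lb w hw 1 (by simp))
    (fun w hw => by simpa using ub w hw 1 (by simp))
    (fun w hw => by linarith [hR1 w hw, le_abs_self R1, abs_nonneg R0, abs_nonneg M])
  rw [HI] at e1
  rw [abs_le] at e1 e2 ⊢
  constructor <;> linarith [e1.1, e1.2, e2.1, e2.2]

end Pool.Agent.Lib.BF40
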