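import Pool.Agent.Lib.BF40.Exact

/- The positive functional carried by the boundary of the body. -/

namespace Pool.Agent.Lib.BF40

open Filter Topology Set MeasureTheory

variable {E : Type*} [NormedAddCommGroup E] [InnerProductSpace ℝ E] [FiniteDimensional ℝ E] {N : ℕ}

theorem wint_int_good (b : Module.Basis (Fin (N + 1)) ℝ E) {F : (Fin N → ℝ) → E} (hF : Good F)
    {u : (Fin N → ℝ) → ℝ} (hu : ContinuousOn u (cube N)) :
    IntegrableOn (fun w => u w * jac b F w) (cube N) := by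
  obtain ⟨f0, M, Fn, f1, f2, f3, f4⟩ := hF
  borelize E
  have hc : MeasurableSet (cube N) := measurableSet_Icc
  obtain ⟨R, hR⟩ := (cube_compact N).exists_bound_of_continuousOn f0.continuousOn
  refine IntegrableOn.continuousOn_mul hu ?_ (cube_compact N)
  refine Measure.integrableOn_of_bounded (M := ‖om b‖ * (max R M) ^ (N + 1))
    (cube_compact N).measure_lt_top.ne ?_ ?_
  · refine ((om b).cont.measurable.comp (measurable_pi_iff.2 fun j => ?_)).aestronglyMeasurable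
    refine Fin.cases ?_ (fun i => ?_) j
    · simpa using f0.measurable
    · simpa using measurable_fderiv_apply_const ℝ F (Pi.single i 1)
  · refine (ae_restrict_iff' hc).2 ?_
    filter_upwards [f4] with w hw hw'
    exact jac_bound b ((hR w hw').trans (le_max_left _ _))
      ((le_of_tendsto' hw.norm fun n => f3 n w hw').trans (le_max_right _ _))

/-- density of the functional -/
noncomputable def lamI (b : Module.Basis (Fin (N + 1)) ℝ E) (Φ : E → ℝ) (ψ : E → ℝ)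
    (w : Fin N → ℝ) : ℝ :=
  (ψ ((Φ (phi b w))⁻¹ • phi b w) * (Φ (phi b w) ^ (N + 1 + (N + 1)))⁻¹ +
    ψ ((Φ (-phi b w))⁻¹ • -phi b w) * (Φ (-phi b w) ^ (N + 1 + (N + 1)))⁻¹) *
    (max (1 / 2 - ssq w) 0 ^ (N + 1) * (ssq w + 1 / 2))

/-- the functional -/
noncomputable def lam (b : Module.Basis (Fin (N + 1)) ℝ E) (Φ : E → ℝ) (ψ : E → ℝ) : ℝ :=
  ∫ w in cube N, lamI b Φ ψ w

omit [FiniteDimensional ℝ E] in
theorem rad_mem {Φ : E → ℝ} (hp : ∀ y, y ≠ 0 → 0 < Φ y)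
    (hh : ∀ t : ℝ, 0 ≤ t → ∀ y, Φ (t • y) = t * Φ y) {y : E} (hy : y ≠ 0) :
    Φ ((Φ y)⁻¹ • y) = 1 := by
  rw [hh _ (inv_pos.2 (hp y hy)).le, inv_mul_cancel₀ (hp y hy).ne']

omit [FiniteDimensional ℝ E] in
theorem rad_cont {Φ : E → ℝ} (hc : Continuous Φ) (hp : ∀ y, y ≠ 0 → 0 < Φ y)
    (hh : ∀ t : ℝ, 0 ≤ t → ∀ y, Φ (t • y) = t * Φ y) {ψ : E → ℝ}
    (hψ : ContinuousOn ψ {y | Φ y = 1}) : ContinuousOn (fun y => ψ ((Φ y)⁻¹ • y)) {0}ᶜ :=
  hψ.comp ((hc.continuousOn.inv₀ fun y hy => (hp y hy).ne').smul continuousOn_id)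
    fun y hy => rad_mem hp hh hy

omit [FiniteDimensional ℝ E] in
theorem lamI_cont (b : Module.Basis (Fin (N + 1)) ℝ E) {Φ : E → ℝ} (hc : Continuous Φ)
    (hp : ∀ y, y ≠ 0 → 0 < Φ y) (hh : ∀ t : ℝ, 0 ≤ t → ∀ y, Φ (t • y) = t * Φ y) {ψ : E → ℝ}
    (hψ : ContinuousOn ψ {y | Φ y = 1}) : Continuous (lamI b Φ ψ) := by
  have pc := (phi_smooth b).continuous
  have sc := (ssq_smooth (N := N)).continuous
  have r := rad_cont hc hp hh hψ
  refine Continuous.mul (Continuous.add (Continuous.mul ?_ ?_) (Continuous.mul ?_ ?_)) (by fun_prop)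
  · exact r.comp_continuous pc fun w => phi_ne b w
  · exact ((hc.comp pc).pow _).inv₀ fun w => (pow_pos (hp _ (phi_ne b w)) _).ne'
  · exact r.comp_continuous pc.neg fun w => neg_ne_zero.2 (phi_ne b w)
  · exact ((hc.comp pc.neg).pow _).inv₀ fun w =>
      (pow_pos (hp _ (neg_ne_zero.2 (phi_ne b w))) _).ne'

omit [FiniteDimensional ℝ E] in
theorem lamI_mono (b : Module.Basis (Fin (N + 1)) ℝ E) {Φ : E → ℝ}
    (hp : ∀ y, y ≠ 0 → 0 < Φ y) (hh : ∀ t : ℝ, 0 ≤ t → ∀ y, Φ (t • y) = t * Φ y) {ψ ψ' : E → ℝ}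
    (h : ∀ y ∈ {y | Φ y = 1}, ψ y ≤ ψ' y) (w : Fin N → ℝ) : lamI b Φ ψ w ≤ lamI b Φ ψ' w := by
  have a1 := hp _ (phi_ne b w)
  have a2 := hp _ (neg_ne_zero.2 (phi_ne b w))
  have a3 := ssq_nonneg w
  have a4 := h _ (rad_mem hp hh (phi_ne b w))
  have a5 := h _ (rad_mem hp hh (neg_ne_zero.2 (phi_ne b w)))
  unfold lamI
  gcongr

omit [FiniteDimensional ℝ E] in
theorem lam_mono (b : Module.Basis (Fin (N + 1)) ℝ E) {Φ : E → ℝ} (hc : Continuous Φ)
    (hp : ∀ y, y ≠ 0 → 0 < Φ y) (hh : ∀ t : ℝ, 0 ≤ t → ∀ y, Φ (t • y) = t * Φ y) (ψ ψ' : E → ℝ)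
    (hψ : ContinuousOn ψ {y | Φ y = 1}) (hψ' : ContinuousOn ψ' {y | Φ y = 1})
    (h : ∀ y ∈ {y | Φ y = 1}, ψ y ≤ ψ' y) : lam b Φ ψ ≤ lam b Φ ψ' :=
  integral_mono ((lamI_cont b hc hp hh hψ).continuousOn.integrableOn_compact (cube_compact N))
    ((lamI_cont b hc hp hh hψ').continuousOn.integrableOn_compact (cube_compact N))
    (lamI_mono b hp hh h)

omit [FiniteDimensional ℝ E] in
theorem lam_lin (b : Module.Basis (Fin (N + 1)) ℝ E) {Φ : E → ℝ} (hc : Continuous Φ)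
    (hp : ∀ y, y ≠ 0 → 0 < Φ y) (hh : ∀ t : ℝ, 0 ≤ t → ∀ y, Φ (t • y) = t * Φ y) (ψ ψ' : E → ℝ)
    (p q : ℝ) (hψ : ContinuousOn ψ {y | Φ y = 1}) (hψ' : ContinuousOn ψ' {y | Φ y = 1}) :
    lam b Φ (fun y => p * ψ y + q * ψ' y) = p * lam b Φ ψ + q * lam b Φ ψ' := by
  unfold lam
  rw [← integral_const_mul, ← integral_const_mul, ← integral_add
    (((lamI_cont b hc hp hh hψ).continuousOn.integrableOn_compact (cube_compact N)).const_mul _)
    (((lamI_cont b hc hp hh hψ').continuousOn.integrableOn_compact (cube_compact N)).const_mul _)]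
  congr 1
  funext w
  unfold lamI
  ring

omit [FiniteDimensional ℝ E] in
theorem phi_surj (b : Module.Basis (Fin (N + 1)) ℝ E) {y : E} (hy : 0 < b.coord 0 y) :
    ∃ w, ssq w < 1 / 2 ∧ ∃ r : ℝ, 0 < r ∧ -phi b w = r • y := by
  set y0 := b.coord 0 y with hy0
  set σ := ssq (fun i : Fin N => b.repr y i.succ) with hσ
  have hσ0 : 0 ≤ σ := ssq_nonneg _
  have hc : ContinuousOn (fun r : ℝ => r ^ 2 * σ + r * y0) (Icc 0 y0⁻¹) := by fun_prop
  obtain ⟨r, hr, e⟩ := intermediate_value_Icc (inv_pos.2 hy).le hc (show (1 / 2 : ℝ) ∈ _ from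
    ⟨by simp, by
      have : 0 ≤ y0⁻¹ ^ 2 * σ := by positivity
      simp only [inv_mul_cancel₀ hy.ne']
      linarith⟩)
  simp only at e
  have hr0 : 0 < r := lt_of_le_of_ne hr.1 (by rintro rfl; norm_num at e)
  have es : ssq (fun i : Fin N => -(r * b.repr y i.succ)) = r ^ 2 * σ := by
    simp only [hσ, ssq, Finset.mul_sum]
    exact Finset.sum_congr rfl fun i _ => by ring
  have : 0 < r * y0 := by positivity
  refine ⟨fun i => -(r * b.repr y i.succ), by rw [es]; linarith, r, hr0, ?_⟩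
  rw [phi_in b (by rw [es]; linarith), es]
  conv_rhs => rw [← b.sum_repr y, Fin.sum_univ_succ]
  rw [smul_add, Finset.smul_sum, neg_add, ← neg_smul, ← Finset.sum_neg_distrib, smul_smul]
  congr 1
  · congr 1
    change _ = r * y0
    linarith
  · exact Finset.sum_congr rfl fun i _ => by rw [smul_smul, neg_smul, neg_neg]

omit [FiniteDimensional ℝ E] in
theorem lam_pos (b : Module.Basis (Fin (N + 1)) ℝ E) {Φ : E → ℝ} (hc : Continuous Φ)
    (hp : ∀ y, y ≠ 0 → 0 < Φ y) (hh : ∀ t : ℝ, 0 ≤ t → ∀ y, Φ (t • y) = t * Φ y) {y0 : E}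
    (h1 : Φ y0 = 1) (h2 : 0 < b.coord 0 y0) (ψ : E → ℝ) (hψ : ContinuousOn ψ {y | Φ y = 1})
    (h3 : ∀ y ∈ {y | Φ y = 1}, 0 ≤ ψ y) (h4 : 0 < ψ y0) : 0 < lam b Φ ψ := by
  obtain ⟨w, hw, r, hr, e⟩ := phi_surj b h2
  have fc := lamI_cont b hc hp hh hψ
  have f0 : ∀ w, 0 ≤ lamI b Φ ψ w := fun w => by
    simpa [lamI] using lamI_mono b hp hh (ψ := fun _ => 0) h3 w
  unfold lam
  rw [setIntegral_pos_iff_support_of_nonneg_ae (Eventually.of_forall f0)
    (fc.continuousOn.integrableOn_compact (cube_compact N))]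
  refine Measure.measure_pos_of_mem_nhds _ (x := w) (inter_mem ?_ ?_)
  · refine fc.continuousAt.eventually_ne (ne_of_gt ?_)
    have a1 := hp _ (phi_ne b w)
    have a3 := ssq_nonneg w
    have a4 := h3 _ (rad_mem hp hh (phi_ne b w))
    have a5 : 0 < max (1 / 2 - ssq w) 0 := lt_max_of_lt_left (by linarith)
    unfold lamI
    rw [e, hh r hr.le, h1, mul_one, smul_smul, inv_mul_cancel₀ hr.ne', one_smul]
    positivity
  · refine pi_Icc_mem_nhds (fun i => ?_) (fun i => ?_) <;> nlinarith [ssq_ge w i]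

theorem wint_lam (b : Module.Basis (Fin (N + 1)) ℝ E) {Φ : E → ℝ} (hc : Continuous Φ)
    (hp : ∀ y, y ≠ 0 → 0 < Φ y) (hh : ∀ t : ℝ, 0 ≤ t → ∀ y, Φ (t • y) = t * Φ y) {ψ : E → ℝ}
    (hψ : ContinuousOn ψ {y | Φ y = 1}) {F G : (Fin N → ℝ) → E} (hF : Good F) (hG : Good G)
    (h1 : ∀ w ∈ cube N, Φ (F w) = 1)
    (h2 : ∀ w ∈ cube N, ∀ t ∈ Icc (0 : ℝ) 1, (1 - t) • F w + t • G w ≠ 0)
    (h3 : ∀ w ∈ cube N, ∀ t : ℝ, G w ≠ t • phi b w)
    (h4 : ∀ w ∈ cube N, (∃ i, w i = 1 ∨ w i = -1) → b.coord 0 (F w) = 0 ∧ b.coord 0 (G w) = 0) :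
    wint b F (fun w => b.coord 0 (F w) ^ (N + 1) * ψ (F w)) = (-1) ^ N * lam b Φ ψ := by
  set l := b.coord 0 with hl
  set m := N + 1 + (N + 1) with hm
  have pl : ∀ w, l (phi b w) = ssq w - 1 / 2 := phi_coord b
  set g : (E →ₗ[ℝ] ℝ) → E → ℝ := fun l y => gm l Φ (N + 1) m y * ψ ((Φ y)⁻¹ • y) with hg
  have gc : ∀ l, ContinuousOn (g l) {0}ᶜ := fun l =>
    (gm_cont l hc hp _ _).mul (rad_cont hc hp hh hψ)
  have gh : ∀ l y, y ≠ 0 → ∀ t : ℝ, 0 < t → g l (t • y) = (t ^ (N + 1))⁻¹ * g l y := by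
    intro l y hy t ht
    simp only [hg]
    rw [gm_hom l hp hh _ y hy t ht, hh t ht.le, smul_smul, mul_assoc,
      show (t * Φ y)⁻¹ * t = (Φ y)⁻¹ by field_simp]
  have gz : ∀ (l : E →ₗ[ℝ] ℝ) y, l y ≤ 0 → g l y = 0 := fun l y hy => by
    simp [hg, gm, max_eq_right hy]
  have F0 : ∀ w ∈ cube N, F w ≠ 0 := fun w hw => by simpa using h2 w hw 0 (by simp)
  have pg := good_of_smooth (phi_smooth b)
  have ng := good_of_smooth (phi_smooth b).neg
  have s1 : ∀ l' : E →ₗ[ℝ] ℝ, (∀ y, l y = 0 → l' y = 0) →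
      wint b F (fun w => g l' (F w)) = wint b G (fun w => g l' (G w)) := fun l' hl' =>
    hinv b (gc l') (gh l') hF hG h2 fun w hw hi t _ => gz _ _ (le_of_eq (hl' _ (by
      simp [(h4 w hw hi).1, (h4 w hw hi).2])))
  have s2 := hinv b (gc (-l)) (gh (-l)) hG pg (fun w hw t _ => seg_ne (h3 w hw) (phi_ne b w) t)
    fun w hw hi t ht => gz _ _ (by
      have := ssq_bd hi
      simp only [LinearMap.neg_apply, map_add, map_smul, (h4 w hw hi).2, pl, smul_eq_mul]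
      nlinarith [ht.1])
  have s3 := hinv b (gc l) (gh l) hG ng (fun w hw t _ => seg_ne
      (fun s => by rw [smul_neg, ← neg_smul]; exact h3 w hw _) (neg_ne_zero.2 (phi_ne b w)) t)
    fun w hw hi t ht => gz _ _ (by
      have := ssq_bd hi
      simp only [map_neg, map_add, map_smul, (h4 w hw hi).2, pl, smul_eq_mul]
      nlinarith [ht.1])
  rw [← s1 _ (fun y hy => by simp [hy])] at s2
  rw [← s1 _ (fun y hy => hy)] at s3
  have i1 : ∀ l', IntegrableOn (fun w => g l' (F w) * jac b F w) (cube N) := fun l' =>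
    wint_int_good b hF ((gc l').comp hF.1.continuousOn F0)
  have e1 : wint b F (fun w => l (F w) ^ (N + 1) * ψ (F w)) = (-1) ^ (N + 1) *
      wint b F (fun w => g (-l) (F w)) + wint b F (fun w => g l (F w)) := by
    unfold wint
    rw [← integral_const_mul, ← integral_add ((i1 _).const_mul _) (i1 _)]
    refine setIntegral_congr_fun measurableSet_Icc fun w hw => ?_
    simp only [hg, gm, h1 w hw, LinearMap.neg_apply, one_pow, div_one, inv_one, one_smul]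
    rcases le_total (l (F w)) 0 with h | h
    · rw [max_eq_left (by linarith), max_eq_right h, neg_pow (l (F w)), zero_pow (by omega)]
      have : ((-1 : ℝ) ^ (N + 1)) * (-1) ^ (N + 1) = 1 := by rw [← mul_pow]; simp
      linear_combination (-(l (F w) ^ (N + 1) * ψ (F w) * jac b F w)) * this
    · rw [max_eq_right (by linarith), max_eq_left h, zero_pow (by omega)]
      ring
  rw [e1, s2, s3]
  have c1 : ContinuousOn (fun w => g (-l) (phi b w)) (cube N) :=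
    (gc _).comp pg.1.continuousOn (fun w _ => phi_ne b w)
  have c2 : ContinuousOn (fun w => g l (-phi b w)) (cube N) :=
    (gc _).comp ng.1.continuousOn (fun w _ => neg_ne_zero.2 (phi_ne b w))
  unfold wint lam
  rw [← integral_const_mul, ← integral_add ((wint_int b (phi_smooth b) c1).const_mul _)
    (wint_int b (phi_smooth b).neg c2), ← integral_const_mul]
  congr 1
  funext w
  simp only [hg, gm, jac_neg, lamI, LinearMap.neg_apply, map_neg, pl, neg_sub, ← hm]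
  by_cases h : ssq w < 1 / 2
  · rw [jac_phi b h]; ring
  · rw [max_eq_right (by linarith), zero_pow (by omega)]; ring

end Pool.Agent.Lib.BF40
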