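import Mathlib

/- The infinitesimal isometries of a Lipschitz function on a finite dimensional space. -/

namespace Pool.Agent.Lib.BF40

open Filter Topology Set

variable {Y : Type*} [NormedAddCommGroup Y] [NormedSpace ℝ Y]

/-- infinitesimal isometry -/
def Inf (n : Y → ℝ) (b : Y →L[ℝ] Y) : Prop :=
  ∀ ε > 0, ∃ δ > 0, ∀ t : ℝ, |t| ≤ δ → ∀ x, |n (x + t • b x) - n x| ≤ ε * |t| * ‖x‖

theorem inf_zero (n : Y → ℝ) : Inf n 0 := by
  intro ε hε
  refine ⟨1, one_pos, fun t _ x => ?_⟩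
  simp only [ContinuousLinearMap.zero_apply, smul_zero, add_zero, sub_self, abs_zero]
  positivity

theorem inf_smul {n : Y → ℝ} {b : Y →L[ℝ] Y} (r : ℝ) (h : Inf n b) : Inf n (r • b) := by
  intro ε hε
  have hr : 0 < |r| + 1 := by positivity
  obtain ⟨δ, hδ, H⟩ := h (ε / (|r| + 1)) (by positivity)
  refine ⟨δ / (|r| + 1), by positivity, fun t ht x => ?_⟩
  have h1 : |t * r| ≤ δ := by
    rw [abs_mul]
    rw [le_div_iff₀ hr] at ht
    nlinarith [abs_nonneg t, abs_nonneg r]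
  have h2 := H (t * r) h1 x
  have e : x + t • (r • b) x = x + (t * r) • b x := by
    simp [smul_smul]
  rw [e]
  refine h2.trans ?_
  rw [abs_mul]
  have h3 : ε / (|r| + 1) * |r| ≤ ε := by
    rw [div_mul_eq_mul_div, div_le_iff₀ hr]
    nlinarith [abs_nonneg r]
  have : ε / (|r| + 1) * (|t| * |r|) * ‖x‖ = (ε / (|r| + 1) * |r|) * (|t| * ‖x‖) := by ring
  rw [this, mul_assoc ε]
  exact mul_le_mul_of_nonneg_right h3 (by positivity)

theorem inf_add {n : Y → ℝ} {K : ℝ} (hK0 : 0 ≤ K) (hK : ∀ x y, |n x - n y| ≤ K * ‖x - y‖)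
    {a b : Y →L[ℝ] Y} (ha : Inf n a) (hb : Inf n b) : Inf n (a + b) := by
  intro ε hε
  obtain ⟨δ1, hδ1, H1⟩ := ha (ε / 3 / (1 + ‖b‖)) (by positivity)
  obtain ⟨δ2, hδ2, H2⟩ := hb (ε / 3) (by positivity)
  set C := K * (‖a‖ * ‖b‖) + 1 with hC
  have hC0 : 0 < C := by positivity
  refine ⟨min (min δ1 δ2) (min 1 (ε / 3 / C)), by positivity, fun t ht x => ?_⟩
  have t1 : |t| ≤ δ1 := ht.trans ((min_le_left _ _).trans (min_le_left _ _))
  have t2 : |t| ≤ δ2 := ht.trans ((min_le_left _ _).trans (min_le_right _ _))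
  have t3 : |t| ≤ 1 := ht.trans ((min_le_right _ _).trans (min_le_left _ _))
  have t4 : |t| ≤ ε / 3 / C := ht.trans ((min_le_right _ _).trans (min_le_right _ _))
  set y := x + t • b x with hy
  have hbx : ‖b x‖ ≤ ‖b‖ * ‖x‖ := b.le_opNorm x
  have hyn : ‖y‖ ≤ (1 + ‖b‖) * ‖x‖ := by
    calc ‖y‖ ≤ ‖x‖ + ‖t • b x‖ := norm_add_le _ _
      _ = ‖x‖ + |t| * ‖b x‖ := by rw [norm_smul, Real.norm_eq_abs]
      _ ≤ ‖x‖ + 1 * (‖b‖ * ‖x‖) := by gcongr
      _ = (1 + ‖b‖) * ‖x‖ := by ring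
  have A1 := H1 t t1 y
  have A2 := H2 t t2 x
  have A3 := hK (x + t • (a + b) x) (y + t • a y)
  have e : x + t • (a + b) x - (y + t • a y) = -((t * t) • a (b x)) := by
    simp only [hy, ContinuousLinearMap.add_apply, map_add, map_smul, smul_add, smul_smul]
    abel
  rw [e, norm_neg, norm_smul, Real.norm_eq_abs, abs_mul] at A3
  have habx : ‖a (b x)‖ ≤ ‖a‖ * ‖b‖ * ‖x‖ := by
    calc ‖a (b x)‖ ≤ ‖a‖ * ‖b x‖ := a.le_opNorm _
      _ ≤ ‖a‖ * (‖b‖ * ‖x‖) := by gcongr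
      _ = _ := by ring
  have B1 : ε / 3 / (1 + ‖b‖) * |t| * ‖y‖ ≤ ε / 3 * |t| * ‖x‖ := by
    calc ε / 3 / (1 + ‖b‖) * |t| * ‖y‖ ≤ ε / 3 / (1 + ‖b‖) * |t| * ((1 + ‖b‖) * ‖x‖) := by gcongr
      _ = ε / 3 * |t| * ‖x‖ := by field_simp
  have B3 : K * (|t| * |t| * ‖a (b x)‖) ≤ ε / 3 * |t| * ‖x‖ := by
    have : |t| * C ≤ ε / 3 := by rwa [le_div_iff₀ hC0] at t4
    calc K * (|t| * |t| * ‖a (b x)‖) ≤ K * (|t| * |t| * (‖a‖ * ‖b‖ * ‖x‖)) := by gcongr
      _ = (|t| * (K * (‖a‖ * ‖b‖))) * (|t| * ‖x‖) := by ring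
      _ ≤ (|t| * C) * (|t| * ‖x‖) := by gcongr; linarith
      _ ≤ (ε / 3) * (|t| * ‖x‖) := by gcongr
      _ = _ := by ring
  have := abs_sub_le (n (x + t • (a + b) x)) (n (y + t • a y)) (n x)
  have := abs_sub_le (n (y + t • a y)) (n y) (n x)
  nlinarith

/-- the Lie algebra as a submodule -/
def lie (n : Y → ℝ) (K : ℝ) (hK0 : 0 ≤ K) (hK : ∀ x y, |n x - n y| ≤ K * ‖x - y‖) :
    Submodule ℝ (Y →L[ℝ] Y) where
  carrier := {b | Inf n b}
  add_mem' := fun ha hb => inf_add hK0 hK ha hb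
  zero_mem' := inf_zero n
  smul_mem' := fun r _ h => inf_smul r h

theorem exp_iso [CompleteSpace Y] {n : Y → ℝ} {K : ℝ} (hK0 : 0 ≤ K)
    (hK : ∀ x y, |n x - n y| ≤ K * ‖x - y‖) {b : Y →L[ℝ] Y} (hb : Inf n b) (x : Y) :
    n (NormedSpace.exp b x) = n x := by
  set z : ℝ → Y := fun τ => NormedSpace.exp (τ • b) x with hz
  have hd : ∀ τ, HasDerivAt z (b (z τ)) τ := by
    intro τ
    have h1 := hasDerivAt_exp_smul_const' (𝕂 := ℝ) b τ
    have h2 := h1.clm_apply (hasDerivAt_const τ x)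
    simpa [hz] using h2
  have hu : ∀ τ, HasDerivAt (fun τ => n (z τ)) 0 τ := by
    intro τ
    rw [hasDerivAt_iff_isLittleO_nhds_zero, Asymptotics.isLittleO_iff]
    intro ε hε
    have h1 := hd τ
    rw [hasDerivAt_iff_isLittleO_nhds_zero, Asymptotics.isLittleO_iff] at h1
    have h2 := h1 (c := ε / 2 / (K + 1)) (by positivity)
    obtain ⟨δ, hδ, H⟩ := hb (ε / 2 / (‖z τ‖ + 1)) (by positivity)
    have h3 : ∀ᶠ t in 𝓝 (0 : ℝ), |t| ≤ δ := by
      have : Metric.closedBall (0 : ℝ) δ ∈ 𝓝 (0 : ℝ) := Metric.closedBall_mem_nhds _ hδ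
      filter_upwards [this] with t ht
      simpa [Real.dist_eq] using ht
    filter_upwards [h2, h3] with t h2 h3
    have A := H t h3 (z τ)
    have B := hK (z (τ + t)) (z τ + t • b (z τ))
    have e : z (τ + t) - (z τ + t • b (z τ)) = z (τ + t) - z τ - t • b (z τ) := by abel
    rw [e] at B
    simp only [smul_zero, sub_zero, Real.norm_eq_abs] at h2 ⊢
    have C := abs_sub_le (n (z (τ + t))) (n (z τ + t • b (z τ))) (n (z τ))
    have D1 : K * ‖z (τ + t) - z τ - t • b (z τ)‖ ≤ ε / 2 * |t| := by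
      calc _ ≤ K * (ε / 2 / (K + 1) * |t|) := by gcongr
        _ ≤ (K + 1) * (ε / 2 / (K + 1) * |t|) := by gcongr; linarith
        _ = _ := by field_simp
    have D2 : ε / 2 / (‖z τ‖ + 1) * |t| * ‖z τ‖ ≤ ε / 2 * |t| := by
      calc _ ≤ ε / 2 / (‖z τ‖ + 1) * |t| * (‖z τ‖ + 1) := by gcongr; linarith
        _ = _ := by field_simp
    linarith
  have hc := is_const_of_deriv_eq_zero (fun τ => (hu τ).differentiableAt) (fun τ => (hu τ).deriv) 1 0
  simpa [hz] using hc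

theorem pow_bounds (β : Y →L[ℝ] Y) (τ : ℝ) (hτ : ‖β‖ ≤ τ) (m : ℕ) (hm : m * τ ≤ 1) (x : Y) :
    ∀ i ≤ m, ‖((1 + β) ^ i) x‖ ≤ 3 * ‖x‖ ∧ ‖((1 + β) ^ i) x - x‖ ≤ 3 * (i * τ) * ‖x‖ ∧
      ‖((1 + β) ^ i) x - (x + (i : ℝ) • β x)‖ ≤ 3 * (i * τ) ^ 2 * ‖x‖ := by
  have hτ0 : 0 ≤ τ := (norm_nonneg _).trans hτ
  have hβ : ∀ y, ‖β y‖ ≤ τ * ‖y‖ := fun y =>
    (β.le_opNorm y).trans (mul_le_mul_of_nonneg_right hτ (norm_nonneg _))
  have h0 : ∀ i : ℕ, ‖((1 + β) ^ i) x‖ ≤ Real.exp (i * τ) * ‖x‖ := by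
    intro i
    induction i with
    | zero => simp
    | succ i ih =>
      rw [pow_succ', ContinuousLinearMap.mul_apply, ContinuousLinearMap.add_apply,
        ContinuousLinearMap.one_apply]
      have h1 := Real.add_one_le_exp τ
      calc _ ≤ ‖((1 + β) ^ i) x‖ + ‖β (((1 + β) ^ i) x)‖ := norm_add_le _ _
        _ ≤ ‖((1 + β) ^ i) x‖ + τ * ‖((1 + β) ^ i) x‖ := by gcongr; exact hβ _
        _ = (τ + 1) * ‖((1 + β) ^ i) x‖ := by ring
        _ ≤ Real.exp τ * (Real.exp (i * τ) * ‖x‖) := by gcongr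
        _ = _ := by rw [← mul_assoc, ← Real.exp_add]; congr 2; push_cast; ring
  have h1 : ∀ i ≤ m, ‖((1 + β) ^ i) x‖ ≤ 3 * ‖x‖ := by
    intro i hi
    refine (h0 i).trans (mul_le_mul_of_nonneg_right ?_ (norm_nonneg _))
    have : (i : ℝ) * τ ≤ 1 := le_trans (by gcongr) hm
    exact (Real.exp_le_exp.2 this).trans (Real.exp_one_lt_d9.le.trans (by norm_num))
  intro i
  induction i with
  | zero =>
    intro _
    simp only [pow_zero, ContinuousLinearMap.one_apply, sub_self, norm_zero, Nat.cast_zero, zero_mul,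
      mul_zero, le_refl, zero_smul, add_zero, true_and]
    exact ⟨by linarith [norm_nonneg x], by simp⟩
  | succ i ih =>
    intro hi
    obtain ⟨a1, a2, a3⟩ := ih (by omega)
    refine ⟨h1 _ hi, ?_, ?_⟩
    · rw [pow_succ', ContinuousLinearMap.mul_apply, ContinuousLinearMap.add_apply,
        ContinuousLinearMap.one_apply]
      have e : ((1 + β) ^ i) x + β (((1 + β) ^ i) x) - x
          = (((1 + β) ^ i) x - x) + β (((1 + β) ^ i) x) := by abel
      rw [e]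
      calc _ ≤ ‖((1 + β) ^ i) x - x‖ + ‖β (((1 + β) ^ i) x)‖ := norm_add_le _ _
        _ ≤ 3 * (i * τ) * ‖x‖ + τ * (3 * ‖x‖) := by
          gcongr
          exact (hβ _).trans (by gcongr)
        _ = _ := by push_cast; ring
    · rw [pow_succ', ContinuousLinearMap.mul_apply, ContinuousLinearMap.add_apply,
        ContinuousLinearMap.one_apply]
      have e : ((1 + β) ^ i) x + β (((1 + β) ^ i) x) - (x + ((i + 1 : ℕ) : ℝ) • β x)
          = (((1 + β) ^ i) x - (x + (i : ℝ) • β x)) + β (((1 + β) ^ i) x - x) := by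
        push_cast
        rw [add_smul, one_smul, map_sub]
        abel
      rw [e]
      calc _ ≤ ‖((1 + β) ^ i) x - (x + (i : ℝ) • β x)‖ + ‖β (((1 + β) ^ i) x - x)‖ :=
            norm_add_le _ _
        _ ≤ 3 * (i * τ) ^ 2 * ‖x‖ + τ * (3 * (i * τ) * ‖x‖) := by
          gcongr
          exact (hβ _).trans (by gcongr)
        _ = 3 * (((i : ℝ) ^ 2 + i) * τ ^ 2) * ‖x‖ := by ring
        _ ≤ 3 * ((((i : ℝ) + 1) ^ 2) * τ ^ 2) * ‖x‖ := by
          gcongr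
          nlinarith [(Nat.cast_nonneg i : (0 : ℝ) ≤ i)]
        _ = _ := by push_cast; ring

theorem pow_est {n : Y → ℝ} {K : ℝ} (hK0 : 0 ≤ K) (hK : ∀ x y, |n x - n y| ≤ K * ‖x - y‖)
    (β : Y →L[ℝ] Y) (τ d : ℝ) (hτ : ‖β‖ ≤ τ) (hd0 : 0 ≤ d)
    (hd : ∀ x, |n (x + β x) - n x| ≤ d * ‖x‖) (m : ℕ) (hm : m * τ ≤ 1) (x : Y) :
    |n (x + (m : ℝ) • β x) - n x| ≤ (3 * (m * d) + 3 * K * (m * τ) ^ 2) * ‖x‖ := by
  have hb := pow_bounds β τ hτ m hm x
  have h1 : ∀ i ≤ m, |n (((1 + β) ^ i) x) - n x| ≤ 3 * (i * d) * ‖x‖ := by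
    intro i
    induction i with
    | zero => intro _; simp
    | succ i ih =>
      intro hi
      have a := ih (by omega)
      have b := hd (((1 + β) ^ i) x)
      have c := (hb i (by omega)).1
      rw [pow_succ', ContinuousLinearMap.mul_apply, ContinuousLinearMap.add_apply,
        ContinuousLinearMap.one_apply]
      have e := abs_sub_le (n (((1 + β) ^ i) x + β (((1 + β) ^ i) x))) (n (((1 + β) ^ i) x)) (n x)
      have f : d * ‖((1 + β) ^ i) x‖ ≤ d * (3 * ‖x‖) := by gcongr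
      rw [Nat.cast_succ]
      nlinarith
  have a := h1 m le_rfl
  have b := hK (x + (m : ℝ) • β x) (((1 + β) ^ m) x)
  rw [norm_sub_rev] at b
  have c := (hb m le_rfl).2.2
  have e := abs_sub_le (n (x + (m : ℝ) • β x)) (n (((1 + β) ^ m) x)) (n x)
  have f : K * ‖((1 + β) ^ m) x - (x + (m : ℝ) • β x)‖ ≤ K * (3 * (m * τ) ^ 2 * ‖x‖) := by gcongr
  nlinarith

/-- a quadratic estimate for positive times gives membership in the Lie algebra -/
theorem inf_of_sq {n : Y → ℝ} {K : ℝ} (hK0 : 0 ≤ K) (hK : ∀ x y, |n x - n y| ≤ K * ‖x - y‖)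
    (b : Y →L[ℝ] Y) (hb : ‖b‖ ≤ 1)
    (h : ∀ t : ℝ, 0 < t → t ≤ 1 → ∀ x, |n (x + t • b x) - n x| ≤ 3 * K * t ^ 2 * ‖x‖) :
    Inf n b := by
  intro ε hε
  refine ⟨min 1 (ε / (7 * K + 1)), by positivity, fun t ht x => ?_⟩
  have t1 : |t| ≤ 1 := ht.trans (min_le_left _ _)
  have t2 : |t| * (7 * K + 1) ≤ ε := by
    have := ht.trans (min_le_right _ _)
    rwa [le_div_iff₀ (by positivity)] at this
  have hbx : ∀ y, ‖b y‖ ≤ ‖y‖ := fun y => (b.le_opNorm y).trans (by nlinarith [norm_nonneg y])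
  have key : |n (x + t • b x) - n x| ≤ 7 * K * |t| ^ 2 * ‖x‖ := by
    rcases lt_trichotomy t 0 with h0 | h0 | h0
    · have hs : 0 < -t := by linarith
      rw [abs_of_neg h0] at t1 ⊢
      set y := x + t • b x with hy
      have A := h (-t) hs t1 y
      have B := hK (y + (-t) • b y) x
      have e : y + (-t) • b y - x = -((t * t) • b (b x)) := by
        simp only [hy, map_add, map_smul, smul_add, smul_smul, neg_smul, neg_mul]
        abel
      rw [e, norm_neg, norm_smul, Real.norm_eq_abs, abs_mul_self] at B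
      have hyn : ‖y‖ ≤ 2 * ‖x‖ := by
        calc ‖y‖ ≤ ‖x‖ + ‖t • b x‖ := norm_add_le _ _
          _ = ‖x‖ + (-t) * ‖b x‖ := by rw [norm_smul, Real.norm_eq_abs, abs_of_neg h0]
          _ ≤ ‖x‖ + 1 * ‖x‖ := by gcongr; exact hbx x
          _ = _ := by ring
      have C := abs_sub_le (n y) (n (y + (-t) • b y)) (n x)
      rw [abs_sub_comm] at A
      have D1 : 3 * K * (-t) ^ 2 * ‖y‖ ≤ 3 * K * (-t) ^ 2 * (2 * ‖x‖) := by gcongr
      have D2 : K * (t * t * ‖b (b x)‖) ≤ K * (t * t * ‖x‖) := by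
        have : 0 ≤ t * t := mul_self_nonneg t
        gcongr
        exact (hbx _).trans (hbx _)
      nlinarith
    · subst h0; simp
    · rw [abs_of_pos h0] at t1 ⊢
      refine (h t h0 t1 x).trans ?_
      gcongr
      norm_num
  refine key.trans ?_
  have : 7 * K * |t| ^ 2 * ‖x‖ = (|t| * (7 * K)) * (|t| * ‖x‖) := by ring
  rw [this, mul_assoc ε]
  gcongr
  nlinarith [abs_nonneg t]

end Pool.Agent.Lib.BF40
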