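import Pool.Agent.Lib.BF40.Phi

/- The moment integrals converge to a nonzero multiple of a power of the gauge. -/

namespace Pool.Agent.Lib.BF40

open Filter Topology Set MeasureTheory

variable {E : Type*} [NormedAddCommGroup E] [InnerProductSpace ℝ E] [FiniteDimensional ℝ E] {N : ℕ}

/-- half space weight -/
noncomputable def gm (l : E →ₗ[ℝ] ℝ) (Φ : E → ℝ) (d m : ℕ) (y : E) : ℝ :=
  max (l y) 0 ^ d / Φ y ^ m

theorem gm_cont (l : E →ₗ[ℝ] ℝ) {Φ : E → ℝ} (hc : Continuous Φ) (hp : ∀ y, y ≠ 0 → 0 < Φ y)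
    (d m : ℕ) : ContinuousOn (gm l Φ d m) {0}ᶜ :=
  ((l.continuous_of_finiteDimensional.max continuous_const).pow d).continuousOn.div
    (hc.pow m).continuousOn fun y hy => (pow_pos (hp y hy) m).ne'

omit [FiniteDimensional ℝ E] in
theorem gm_hom (l : E →ₗ[ℝ] ℝ) {Φ : E → ℝ} (hp : ∀ y, y ≠ 0 → 0 < Φ y)
    (hh : ∀ t : ℝ, 0 ≤ t → ∀ y, Φ (t • y) = t * Φ y) (d : ℕ) (y : E) (hy : y ≠ 0) (t : ℝ)
    (ht : 0 < t) : gm l Φ d (N + 1 + d) (t • y) = (t ^ (N + 1))⁻¹ * gm l Φ d (N + 1 + d) y := by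
  have := hp y hy
  unfold gm
  rw [hh t ht.le, map_smul, smul_eq_mul, show max (t * l y) 0 = t * max (l y) 0 by
    rw [mul_max_of_nonneg _ _ ht.le, mul_zero], mul_pow, mul_pow, pow_add t]
  field_simp

omit [FiniteDimensional ℝ E] in
theorem seg_ne {y z : E} (h : ∀ t : ℝ, y ≠ t • z) (hz : z ≠ 0) (t : ℝ) :
    (1 - t) • y + t • z ≠ 0 := by
  intro h0
  by_cases ht : t = 1
  · subst ht
    simp [hz] at h0
  · have h1 : 1 - t ≠ 0 := sub_ne_zero.2 (Ne.symm ht)
    apply h (-(t / (1 - t)))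
    have : (1 - t) • y = -(t • z) := eq_neg_of_add_eq_zero_left h0
    calc y = (1 - t)⁻¹ • ((1 - t) • y) := by rw [smul_smul, inv_mul_cancel₀ h1, one_smul]
      _ = _ := by rw [this, smul_neg, smul_smul, neg_smul, div_eq_inv_mul]

theorem wint_lin (b : Module.Basis (Fin (N + 1)) ℝ E) {F : (Fin N → ℝ) → E} (hF : ContDiff ℝ 2 F)
    {u u' : (Fin N → ℝ) → ℝ} (hu : ContinuousOn u (cube N)) (hu' : ContinuousOn u' (cube N))
    (p q : ℝ) : wint b F (fun w => p * (q * u w + u' w)) = p * (q * wint b F u + wint b F u') := by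
  unfold wint
  rw [← integral_const_mul, ← integral_add ((wint_int b hF hu).const_mul q) (wint_int b hF hu'),
    ← integral_const_mul]
  congr 1
  funext w
  ring

theorem const_ne (b : Module.Basis (Fin (N + 1)) ℝ E) {Φ : E → ℝ} (hc : Continuous Φ)
    (hp : ∀ y, y ≠ 0 → 0 < Φ y) {d : ℕ} (hd0 : d ≠ 0) (hd : (-1 : ℝ) ^ d = (-1) ^ (N + 1)) (m : ℕ) :
    (-1) ^ d * wint b (phi b) (fun w => gm (-b.coord 0) Φ d m (phi b w)) +
      wint b (fun w => -phi b w) (fun w => gm (b.coord 0) Φ d m (-phi b w)) ≠ 0 := by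
  have pc := (phi_smooth b).continuous
  have sc := (ssq_smooth (N := N)).continuous
  have p1 : ∀ w, 0 < Φ (phi b w) ^ m := fun w => pow_pos (hp _ (phi_ne b w)) m
  have p2 : ∀ w, 0 < Φ (-phi b w) ^ m := fun w => pow_pos (hp _ (neg_ne_zero.2 (phi_ne b w))) m
  set f : (Fin N → ℝ) → ℝ := fun w => max (1 / 2 - ssq w) 0 ^ d * (ssq w + 1 / 2) *
    ((Φ (phi b w) ^ m)⁻¹ + (Φ (-phi b w) ^ m)⁻¹) with hf
  have fc : Continuous f := by
    refine Continuous.mul (by fun_prop) (Continuous.add ?_ ?_)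
    · exact ((hc.comp pc).pow m).inv₀ fun w => (p1 w).ne'
    · exact ((hc.comp pc.neg).pow m).inv₀ fun w => (p2 w).ne'
  have f0 : ∀ w, 0 ≤ f w := fun w => by
    have := p1 w; have := p2 w; have := ssq_nonneg w
    simp only [hf]
    positivity
  have fp : 0 < ∫ w in cube N, f w := by
    rw [setIntegral_pos_iff_support_of_nonneg_ae (Eventually.of_forall f0)
      (fc.continuousOn.integrableOn_compact (cube_compact N))]
    refine Measure.measure_pos_of_mem_nhds _ (x := 0) (inter_mem ?_ ?_)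
    · refine fc.continuousAt.eventually_ne (ne_of_gt ?_)
      have := p1 0; have := p2 0
      have e : ssq (0 : Fin N → ℝ) = 0 := by simp [ssq]
      simp only [hf, e]
      positivity
    · exact pi_Icc_mem_nhds (fun _ => by simp) (fun _ => by simp)
  have c1 : ContinuousOn (fun w => gm (-b.coord 0) Φ d m (phi b w)) (cube N) :=
    (gm_cont (-b.coord 0) hc hp d m).comp pc.continuousOn (fun w _ => phi_ne b w)
  have c2 : ContinuousOn (fun w => gm (b.coord 0) Φ d m (-phi b w)) (cube N) :=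
    (gm_cont (b.coord 0) hc hp d m).comp pc.neg.continuousOn
      (fun w _ => neg_ne_zero.2 (phi_ne b w))
  have e : (-1) ^ d * wint b (phi b) (fun w => gm (-b.coord 0) Φ d m (phi b w)) +
      wint b (fun w => -phi b w) (fun w => gm (b.coord 0) Φ d m (-phi b w))
      = -(-1) ^ d * ∫ w in cube N, f w := by
    unfold wint
    rw [← integral_const_mul, ← integral_add ((wint_int b (phi_smooth b) c1).const_mul _)
      (wint_int b (phi_smooth b).neg c2), ← integral_const_mul]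
    congr 1
    funext w
    simp only [gm, jac_neg, ← hd, hf, LinearMap.neg_apply, map_neg, phi_coord, neg_sub,
      Function.comp, Pi.neg_apply]
    by_cases h : ssq w < 1 / 2
    · rw [jac_phi b h]; ring
    · rw [max_eq_right (by linarith), zero_pow hd0]; ring
  rw [e]
  exact mul_ne_zero (neg_ne_zero.2 (pow_ne_zero _ (by norm_num))) fp.ne'

theorem limit (b : Module.Basis (Fin (N + 1)) ℝ E) {Φ : E → ℝ} (hc : Continuous Φ)
    (hp : ∀ y, y ≠ 0 → 0 < Φ y) (hh : ∀ t : ℝ, 0 ≤ t → ∀ y, Φ (t • y) = t * Φ y)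
    {d : ℕ} (hd0 : d ≠ 0) (hd : (-1 : ℝ) ^ d = (-1) ^ (N + 1)) :
    ∃ c : ℝ, c ≠ 0 ∧ ∀ (F : (Fin N → ℝ) → E) (ν : ℝ), Continuous F → (∀ w ∈ cube N, Φ (F w) = ν) →
      (∀ w ∈ cube N, ∀ t : ℝ, F w ≠ t • phi b w) →
      (∀ w ∈ cube N, (∃ i, w i = 1 ∨ w i = -1) → b.coord 0 (F w) = 0) →
      ∀ M ε : ℝ, 0 < ε → ∃ δ > 0, ∀ F' : (Fin N → ℝ) → E, ContDiff ℝ 2 F' →
        (∀ w ∈ cube N, ‖F' w - F w‖ < δ) → (∀ w ∈ cube N, ‖fderiv ℝ F' w‖ ≤ M) →
        |wint b F' (fun w => b.coord 0 (F' w) ^ d) - c * ν ^ (N + 1 + d)| ≤ ε := by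
  refine ⟨_, const_ne b hc hp hd0 hd (N + 1 + d), fun F ν hF hν hne hbd M ε hε => ?_⟩
  set m := N + 1 + d with hm
  set l := b.coord 0 with hl
  have pl : ∀ w, l (phi b w) = ssq w - 1 / 2 := phi_coord b
  have F0 : ∀ w ∈ cube N, F w ≠ 0 := fun w hw => by simpa using hne w hw 0
  set ε1 := ε / 4 / (|ν ^ m| + 1) with hε1
  have hε1' : 0 < ε1 := by positivity
  obtain ⟨δ1, hδ1, K1⟩ := key b (gm_cont (-l) hc hp d m) (gm_hom (-l) hp hh d) hF (phi_smooth b)
    (fun w hw t _ => seg_ne (hne w hw) (phi_ne b w) t) (fun w hw hi t ht => by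
      have := ssq_bd hi
      simp only [gm, LinearMap.neg_apply, map_add, map_smul, hbd w hw hi, pl, smul_eq_mul]
      rw [max_eq_right (by nlinarith [ht.1]), zero_pow hd0, zero_div]) M ε1 hε1'
  obtain ⟨δ2, hδ2, K2⟩ := key b (gm_cont l hc hp d m) (gm_hom l hp hh d) hF (phi_smooth b).neg
    (fun w hw t _ => seg_ne (fun s => by rw [smul_neg, ← neg_smul]; exact hne w hw _)
      (neg_ne_zero.2 (phi_ne b w)) t) (fun w hw hi t ht => by
      have := ssq_bd hi
      simp only [gm, map_neg, map_add, map_smul, hbd w hw hi, pl, smul_eq_mul]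
      rw [max_eq_right (by nlinarith [ht.1]), zero_pow hd0, zero_div]) M ε1 hε1'
  have hK : IsCompact (F '' cube N) := (cube_compact N).image hF
  obtain ⟨R0, hR0⟩ := hK.isBounded.exists_norm_le
  set R := |R0| + 1 + |M| with hR
  set C := ‖om b‖ * R ^ (N + 1) * volume.real (cube N) with hC
  have hC0 : 0 ≤ C := by positivity
  set η := ε / 2 / (C + 1) with hη
  have hη0 : 0 < η := by positivity
  have cs : ContinuousOn (fun y => ν ^ m * ((-1) ^ d * gm (-l) Φ d m y + gm l Φ d m y)) {0}ᶜ :=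
    continuousOn_const.mul ((continuousOn_const.mul (gm_cont (-l) hc hp d m)).add
      (gm_cont l hc hp d m))
  have cl : Continuous fun y => l y ^ d := l.continuous_of_finiteDimensional.pow d
  have hU : IsOpen (({0}ᶜ : Set E) ∩ (fun y =>
      |l y ^ d - ν ^ m * ((-1) ^ d * gm (-l) Φ d m y + gm l Φ d m y)|) ⁻¹' Iio η) :=
    ((cl.continuousOn.sub cs).abs).isOpen_inter_preimage isOpen_compl_singleton isOpen_Iio
  obtain ⟨δ3, hδ3, K3⟩ := near hK hU (by
    rintro _ ⟨w, hw, rfl⟩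
    refine ⟨F0 w hw, ?_⟩
    have h1 := hp _ (F0 w hw)
    have e : l (F w) ^ d = ν ^ m * ((-1) ^ d * gm (-l) Φ d m (F w) + gm l Φ d m (F w)) := by
      simp only [gm, LinearMap.neg_apply, ← hν w hw]
      rcases le_total (l (F w)) 0 with h | h
      · rw [max_eq_left (by linarith), max_eq_right h, zero_pow hd0, neg_pow (l (F w))]
        have : ((-1 : ℝ) ^ d) * (-1) ^ d = 1 := by rw [← mul_pow]; simp
        field_simp
        rw [sq, this]; ring
      · rw [max_eq_right (by linarith), max_eq_left h, zero_pow hd0]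
        field_simp
        ring
    simp only [mem_preimage, mem_Iio]
    rw [← e]
    simpa using hη0)
  refine ⟨min (min δ1 δ2) (min δ3 1), by positivity, fun F' hF' h1 h2 => ?_⟩
  have a1 := K1 F' hF' (fun w hw => (h1 w hw).trans_le ((min_le_left _ _).trans (min_le_left _ _))) h2
  have a2 := K2 F' hF' (fun w hw => (h1 w hw).trans_le ((min_le_left _ _).trans (min_le_right _ _))) h2
  have a3 := fun w hw => K3 _ ⟨w, hw, rfl⟩ _
    ((h1 w hw).trans_le ((min_le_right _ _).trans (min_le_left _ _)))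
  have mp : MapsTo F' (cube N) {0}ᶜ := fun w hw => (a3 w hw).1
  have a4 := wint_sub b hF' (cl.comp hF'.continuous).continuousOn
    (cs.comp hF'.continuous.continuousOn mp) (ε := η) (R := R) (fun w hw => (a3 w hw).2.le)
    (fun w hw => by
      have a := (h1 w hw).trans_le ((min_le_right _ _).trans (min_le_right _ _))
      have c := hR0 _ ⟨w, hw, rfl⟩
      have d := norm_sub_norm_le (F' w) (F w)
      linarith [le_abs_self R0, abs_nonneg M])
    (fun w hw => by linarith [h2 w hw, le_abs_self M, abs_nonneg R0])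
  have a5 := wint_lin b hF' ((gm_cont (-l) hc hp d m).comp hF'.continuous.continuousOn mp)
    ((gm_cont l hc hp d m).comp hF'.continuous.continuousOn mp) (ν ^ m) ((-1) ^ d)
  simp only [Function.comp_def] at a4 a5
  rw [a5, ← hC] at a4
  have b1 : η * C ≤ ε / 2 := by
    calc _ = ε / 2 * (C / (C + 1)) := by rw [hη]; field_simp
      _ ≤ ε / 2 * 1 := by gcongr; rw [div_le_one (by positivity)]; linarith
      _ = _ := mul_one _
  have b2 : |ν ^ m| * (ε1 + ε1) ≤ ε / 2 := by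
    calc _ = ε / 2 * (|ν ^ m| / (|ν ^ m| + 1)) := by rw [hε1]; field_simp; ring
      _ ≤ ε / 2 * 1 := by gcongr; rw [div_le_one (by positivity)]; linarith
      _ = _ := mul_one _
  set A1 := wint b F' (fun w => gm (-l) Φ d m (F' w))
  set A2 := wint b F' (fun w => gm l Φ d m (F' w))
  set B1 := wint b (phi b) (fun w => gm (-l) Φ d m (phi b w))
  set B2 := wint b (fun w => -phi b w) (fun w => gm l Φ d m (-phi b w))
  have b3 : |ν ^ m * ((-1) ^ d * A1 + A2) - ((-1) ^ d * B1 + B2) * ν ^ m| ≤ |ν ^ m| * (ε1 + ε1) := by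
    rw [show ν ^ m * ((-1) ^ d * A1 + A2) - ((-1) ^ d * B1 + B2) * ν ^ m
      = ν ^ m * ((-1) ^ d * (A1 - B1) + (A2 - B2)) by ring, abs_mul]
    gcongr
    refine (abs_add_le _ _).trans (add_le_add ?_ a2)
    rw [abs_mul, abs_pow, abs_neg, abs_one, one_pow, one_mul]
    exact a1
  have := abs_sub_le (wint b F' (fun w => l (F' w) ^ d)) (ν ^ m * ((-1) ^ d * A1 + A2))
    (((-1) ^ d * B1 + B2) * ν ^ m)
  linarith

end Pool.Agent.Lib.BF40
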