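import Pool.Agent.Lib.BF40.Key

/- An explicit degree one map from the cube and the nonvanishing of the moment constants. -/

namespace Pool.Agent.Lib.BF40

open Filter Topology Set MeasureTheory

/-- sum of squares -/
noncomputable def ssq {N : ℕ} (w : Fin N → ℝ) : ℝ := ∑ i, w i ^ 2

theorem ssq_smooth {N : ℕ} : ContDiff ℝ 2 (ssq (N := N)) :=
  ContDiff.sum fun i _ => (contDiff_apply ℝ ℝ i).pow 2

theorem ssq_nonneg {N : ℕ} (w : Fin N → ℝ) : 0 ≤ ssq w := Finset.sum_nonneg fun _ _ => sq_nonneg _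

theorem ssq_ge {N : ℕ} (w : Fin N → ℝ) (i : Fin N) : w i ^ 2 ≤ ssq w :=
  Finset.single_le_sum (f := fun i => w i ^ 2) (fun _ _ => sq_nonneg _) (Finset.mem_univ i)

theorem ssq_bd {N : ℕ} {w : Fin N → ℝ} (h : ∃ i, w i = 1 ∨ w i = -1) : 1 ≤ ssq w := by
  obtain ⟨i, hi⟩ := h
  have := ssq_ge w i
  rcases hi with hi | hi <;> rw [hi] at this <;> linarith

variable {E : Type*} [NormedAddCommGroup E] [NormedSpace ℝ E] {N : ℕ}

/-- the map from the cube -/
noncomputable def phi (b : Module.Basis (Fin (N + 1)) ℝ E) (w : Fin N → ℝ) : E :=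
  (ssq w - 1 / 2) • b 0 + Real.smoothTransition (2 - 2 * ssq w) • ∑ i, w i • b i.succ

theorem phi_smooth (b : Module.Basis (Fin (N + 1)) ℝ E) : ContDiff ℝ 2 (phi b) := by
  refine ((ssq_smooth.sub contDiff_const).smul contDiff_const).add (ContDiff.smul ?_ ?_)
  · exact Real.smoothTransition.contDiff.comp (contDiff_const.sub (contDiff_const.mul ssq_smooth))
  · exact ContDiff.sum fun i _ => (contDiff_apply ℝ ℝ i).smul contDiff_const

theorem phi_coord (b : Module.Basis (Fin (N + 1)) ℝ E) (w : Fin N → ℝ) :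
    b.coord 0 (phi b w) = ssq w - 1 / 2 := by
  simp [phi, Finsupp.single_apply]

theorem phi_out (b : Module.Basis (Fin (N + 1)) ℝ E) {w : Fin N → ℝ} (h : 1 ≤ ssq w) :
    phi b w = (ssq w - 1 / 2) • b 0 := by
  rw [phi, Real.smoothTransition.zero_of_nonpos (by linarith), zero_smul, add_zero]

theorem phi_in (b : Module.Basis (Fin (N + 1)) ℝ E) {w : Fin N → ℝ} (h : ssq w ≤ 1 / 2) :
    phi b w = (ssq w - 1 / 2) • b 0 + ∑ i, w i • b i.succ := by
  rw [phi, Real.smoothTransition.one_of_one_le (by linarith), one_smul]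

theorem phi_ne (b : Module.Basis (Fin (N + 1)) ℝ E) (w : Fin N → ℝ) : phi b w ≠ 0 := by
  intro h
  have h1 := phi_coord b w
  rw [h, map_zero] at h1
  rw [phi_in b (by linarith), ← h1, zero_smul, zero_add] at h
  have h2 : ∀ i, w i = 0 := fun i => by
    have := congrArg (b.coord i.succ) h
    simpa [Finsupp.single_apply] using this
  have : ssq w = 0 := by simp [ssq, h2]
  linarith

variable [FiniteDimensional ℝ E]

theorem jac_neg (b : Module.Basis (Fin (N + 1)) ℝ E) (F : (Fin N → ℝ) → E) (w : Fin N → ℝ) :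
    jac b (fun w => -F w) w = (-1) ^ (N + 1) * jac b F w := by
  unfold jac
  have := (om b).map_smul_univ (fun _ => (-1 : ℝ))
    (Fin.cons (F w) (fun i => fderiv ℝ F w (Pi.single i 1)))
  simp only [Finset.prod_const, Finset.card_univ, Fintype.card_fin, smul_eq_mul] at this
  rw [← this]
  congr 1
  funext j
  refine Fin.cases ?_ (fun i => ?_) j
  · simp
  · simp [fderiv_fun_neg]

theorem jac_phi (b : Module.Basis (Fin (N + 1)) ℝ E) {w : Fin N → ℝ} (h : ssq w < 1 / 2) :
    jac b (phi b) w = -(ssq w + 1 / 2) := by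
  have e1 : phi b =ᶠ[𝓝 w] fun w => (ssq w - 1 / 2) • b 0 + ∑ i, w i • b i.succ := by
    filter_upwards [ssq_smooth.continuous.continuousAt.eventually_lt continuousAt_const h] with
      w hw using phi_in b hw.le
  have d1 : HasFDerivAt (ssq (N := N))
      (∑ i, (2 * w i) • (ContinuousLinearMap.proj i : (Fin N → ℝ) →L[ℝ] ℝ)) w := by
    refine HasFDerivAt.fun_sum fun i _ => ?_
    simpa using (hasFDerivAt_apply (𝕜 := ℝ) i w).pow 2
  have d2 := ((d1.sub_const (1 / 2)).smul_const (b 0)).add
    (HasFDerivAt.fun_sum (u := Finset.univ) fun i _ =>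
      (hasFDerivAt_apply (𝕜 := ℝ) i w).smul_const (b i.succ))
  have d3 : ∀ i, fderiv ℝ (phi b) w (Pi.single i 1) = (2 * w i) • b 0 + b i.succ := by
    intro i
    rw [e1.fderiv_eq]
    have d4 : fderiv ℝ (fun w => (ssq w - 1 / 2) • b 0 + ∑ i, w i • b i.succ) w = _ := d2.fderiv
    rw [d4]
    simp [Pi.single_apply, Finset.sum_ite_eq]
  set c : Fin N → E := fun i => (2 * w i) • b 0 + b i.succ with hc
  have e2 : phi b w = (-(ssq w + 1 / 2)) • b 0 + ∑ i, w i • c i := by
    rw [phi_in b h.le]
    simp only [hc, smul_add, smul_smul, Finset.sum_add_distrib, ← Finset.sum_smul]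
    have : ∑ i, w i * (2 * w i) = 2 * ssq w := by
      rw [ssq, Finset.mul_sum]; exact Finset.sum_congr rfl fun i _ => by ring
    rw [this, ← add_assoc, ← add_smul]
    congr 2
    ring
  have e3 : b.det (Fin.cons (b 0) c) = 1 := by
    rw [Module.Basis.det_apply, Matrix.det_of_upperTriangular]
    · refine Finset.prod_eq_one fun j _ => ?_
      refine Fin.cases ?_ (fun i => ?_) j
      · simp [Module.Basis.toMatrix_apply]
      · simp [Module.Basis.toMatrix_apply, hc, Finsupp.single_apply]
    · intro i j hij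
      revert hij
      refine Fin.cases ?_ (fun i => ?_) i
      · intro hij; simp at hij
      · refine Fin.cases ?_ (fun j => ?_) j
        · intro _; simp [Module.Basis.toMatrix_apply, Finsupp.single_apply]
        · intro hij
          have : j ≠ i := by rintro rfl; simp at hij
          simp [Module.Basis.toMatrix_apply, hc, Finsupp.single_apply, this]
  have e4 : ∀ i, b.det (Fin.cons (c i) c) = 0 := fun i =>
    b.det.map_eq_zero_of_eq _ (i := 0) (j := i.succ) (by simp) (Fin.succ_ne_zero i).symm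
  unfold jac
  simp only [d3, om_apply]
  have lin : ∀ y, b.det (Fin.cons y c) =
      b.det.toMultilinearMap.toLinearMap (Fin.cons 0 c) 0 y := fun y => by
    simp [Fin.update_cons_zero]
  rw [lin, e2, map_add, map_smul, map_sum, ← lin, e3, Finset.sum_eq_zero fun i _ => by
    rw [map_smul, ← lin, e4, smul_zero]]
  simp

end Pool.Agent.Lib.BF40
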