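import Pool.Agent.Lib.BF40.Lie

/- A Lipschitz slice for the action of the linear group on a gauge. -/

namespace Pool.Agent.Lib.BF40

open Filter Topology Set

variable {Y : Type*} [NormedAddCommGroup Y] [NormedSpace ℝ Y] [FiniteDimensional ℝ Y]

omit [NormedSpace ℝ Y] [FiniteDimensional ℝ Y] in
theorem cont_of_lip {n : Y → ℝ} {K : ℝ} (hK0 : 0 ≤ K) (hK : ∀ x y, |n x - n y| ≤ K * ‖x - y‖) :
    Continuous n := by
  have : LipschitzWith ⟨K, hK0⟩ n := LipschitzWith.of_dist_le_mul fun x y => by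
    rw [Real.dist_eq, dist_eq_norm]; exact hK x y
  exact this.continuous

theorem antilip {n : Y → ℝ} {K : ℝ} (hK0 : 0 ≤ K) (hK : ∀ x y, |n x - n y| ≤ K * ‖x - y‖)
    (π : (Y →L[ℝ] Y) →L[ℝ] (Y →L[ℝ] Y)) (hπ : ∀ b, Inf n b → π b = 0) :
    ∃ c > 0, ∃ r > 0, ∀ β : Y →L[ℝ] Y, ‖β‖ ≤ r → ‖β‖ ≤ 2 * ‖π β‖ → ∀ d : ℝ, 0 ≤ d →
      (∀ x, |n (x + β x) - n x| ≤ d * ‖x‖) → c * ‖β‖ ≤ d := by
  by_contra hcon
  push Not at hcon
  have H := fun j : ℕ => hcon (1 / ((j : ℝ) + 1)) (by positivity) (1 / ((j : ℝ) + 1)) (by positivity)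
  choose β h1 h2 d h3 h4 h5 using H
  have hpos : ∀ j, 0 < ‖β j‖ := by
    intro j
    have := (h3 j).trans_lt (h5 j)
    exact (mul_pos_iff_of_pos_left (by positivity)).1 this
  set b : ℕ → Y →L[ℝ] Y := fun j => ‖β j‖⁻¹ • β j with hb
  have hbs : ∀ j, b j ∈ Metric.sphere (0 : Y →L[ℝ] Y) 1 := by
    intro j
    simp only [hb, mem_sphere_iff_norm, sub_zero, norm_smul, norm_inv, norm_norm]
    exact inv_mul_cancel₀ (hpos j).ne'
  obtain ⟨b0, hb0, φ, hφ, hlim⟩ := (isCompact_sphere (0 : Y →L[ℝ] Y) 1).tendsto_subseq hbs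
  have hb1 : ‖b0‖ = 1 := by simpa using hb0
  have hπb : 1 ≤ 2 * ‖π b0‖ := by
    have t1 : Tendsto (fun j => 2 * ‖π (b (φ j))‖) atTop (𝓝 (2 * ‖π b0‖)) :=
      ((π.continuous.tendsto b0).comp hlim).norm.const_mul 2
    refine ge_of_tendsto' t1 fun j => ?_
    simp only [hb, map_smul, norm_smul, norm_inv, norm_norm]
    have := h2 (φ j)
    have h0 := hpos (φ j)
    rw [mul_left_comm, ← div_eq_inv_mul, le_div_iff₀ h0]
    linarith
  have hz : Tendsto (fun j : ℕ => 1 / ((φ j : ℝ) + 1)) atTop (𝓝 0) :=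
    tendsto_one_div_add_atTop_nhds_zero_nat.comp hφ.tendsto_atTop
  have hinf : Inf n b0 := by
    refine inf_of_sq hK0 hK b0 hb1.le fun t ht ht1 x => ?_
    set m : ℕ → ℕ := fun j => ⌊t / ‖β j‖⌋₊ with hm
    have m1 : ∀ j, (m j : ℝ) * ‖β j‖ ≤ t := by
      intro j
      have := Nat.floor_le (div_nonneg ht.le (hpos j).le)
      rwa [le_div_iff₀ (hpos j)] at this
    have m2 : ∀ j, t - ‖β j‖ ≤ (m j : ℝ) * ‖β j‖ := by
      intro j
      have := (Nat.lt_floor_add_one (t / ‖β j‖)).le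
      rw [div_le_iff₀ (hpos j)] at this
      linarith
    have m3 : Tendsto (fun j => (m (φ j) : ℝ) * ‖β (φ j)‖) atTop (𝓝 t) := by
      have l1 : Tendsto (fun j : ℕ => t - 1 / ((φ j : ℝ) + 1)) atTop (𝓝 t) := by
        simpa using tendsto_const_nhds.sub hz
      refine tendsto_of_tendsto_of_tendsto_of_le_of_le l1 tendsto_const_nhds
        (fun j => ?_) (fun j => m1 _)
      have := m2 (φ j)
      have := h1 (φ j)
      simp only
      linarith
    have e : ∀ j, (m j : ℝ) • β j x = ((m j : ℝ) * ‖β j‖) • b j x := by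
      intro j
      simp only [hb, ContinuousLinearMap.smul_apply, smul_smul]
      rw [mul_assoc, mul_inv_cancel₀ (hpos j).ne', mul_one]
    have l2 : Tendsto (fun j => |n (x + (m (φ j) : ℝ) • β (φ j) x) - n x|) atTop
        (𝓝 |n (x + t • b0 x) - n x|) := by
      simp only [e]
      have l3 : Tendsto (fun j => b (φ j) x) atTop (𝓝 (b0 x)) :=
        ((ContinuousLinearMap.apply ℝ Y x).continuous.tendsto b0).comp hlim
      exact ((((cont_of_lip hK0 hK).tendsto _).comp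
        (tendsto_const_nhds.add (m3.smul l3))).sub tendsto_const_nhds).abs
    have l4 : Tendsto (fun j : ℕ => (3 * (t * (1 / ((φ j : ℝ) + 1))) + 3 * K * t ^ 2) * ‖x‖) atTop
        (𝓝 (3 * K * t ^ 2 * ‖x‖)) := by
      have := (((hz.const_mul t).const_mul 3).add_const (3 * K * t ^ 2)).mul_const ‖x‖
      simpa using this
    refine le_of_tendsto_of_tendsto' l2 l4 fun j => ?_
    have A := pow_est hK0 hK (β (φ j)) ‖β (φ j)‖ (d (φ j)) le_rfl (h3 _) (h4 _) (m (φ j))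
      ((m1 _).trans ht1) x
    refine A.trans ?_
    have B : (m (φ j) : ℝ) * d (φ j) ≤ t * (1 / ((φ j : ℝ) + 1)) := by
      calc (m (φ j) : ℝ) * d (φ j) ≤ (m (φ j) : ℝ) * (1 / ((φ j : ℝ) + 1) * ‖β (φ j)‖) := by
            gcongr; exact (h5 _).le
        _ = ((m (φ j) : ℝ) * ‖β (φ j)‖) * (1 / ((φ j : ℝ) + 1)) := by ring
        _ ≤ _ := by gcongr; exact m1 _
    have C := m1 (φ j)
    gcongr
  rw [hπ b0 hinf] at hπb
  norm_num at hπb

theorem near_id {n : Y → ℝ} {K : ℝ} (hK0 : 0 ≤ K) (hK : ∀ x y, |n x - n y| ≤ K * ‖x - y‖)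
    {c : ℝ} (hc0 : 0 < c) (hc : ∀ x, c * ‖x‖ ≤ n x) (h0 : n 0 = 0) (ε : ℝ) (hε : 0 < ε) :
    ∃ δ > 0, ∀ N : Y → ℝ, (∃ g : Y →L[ℝ] Y, ∀ x, N (g x) = n x) →
      (∀ x, |N x - n x| ≤ δ * ‖x‖) → ∃ g : Y →L[ℝ] Y, ‖g - 1‖ < ε ∧ ∀ x, N (g x) = n x := by
  by_contra hcon
  push Not at hcon
  have H := fun j : ℕ => hcon (c / 2 * (1 / ((j : ℝ) + 1))) (by positivity)
  choose N h1 h2 h3 using H
  choose g hg using h1
  have hnK : ∀ x, n x ≤ K * ‖x‖ := fun x => by
    have := hK x 0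
    rw [h0, sub_zero, sub_zero] at this
    exact (le_abs_self _).trans this
  have hj : ∀ j : ℕ, 1 / ((j : ℝ) + 1) ≤ 1 := fun j => by
    rw [div_le_one (by positivity)]; linarith [(Nat.cast_nonneg j : (0 : ℝ) ≤ j)]
  have hgb : ∀ j, g j ∈ Metric.closedBall (0 : Y →L[ℝ] Y) (2 * K / c) := by
    intro j
    rw [mem_closedBall_zero_iff]
    refine ContinuousLinearMap.opNorm_le_bound _ (by positivity) fun x => ?_
    have a := h2 j (g j x)
    rw [hg] at a
    have b := hc (g j x)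
    have d := hnK x
    have e : c / 2 * (1 / ((j : ℝ) + 1)) * ‖g j x‖ ≤ c / 2 * 1 * ‖g j x‖ := by
      gcongr; exact hj j
    have f := neg_abs_le (n x - n (g j x))
    rw [div_mul_eq_mul_div, le_div_iff₀ hc0]
    nlinarith
  obtain ⟨g0, -, φ, hφ, hlim⟩ :=
    (isCompact_closedBall (0 : Y →L[ℝ] Y) (2 * K / c)).tendsto_subseq hgb
  have hz : Tendsto (fun j : ℕ => 1 / ((φ j : ℝ) + 1)) atTop (𝓝 0) :=
    tendsto_one_div_add_atTop_nhds_zero_nat.comp hφ.tendsto_atTop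
  have hg0 : ∀ x, n (g0 x) = n x := by
    intro x
    have l3 : Tendsto (fun j => g (φ j) x) atTop (𝓝 (g0 x)) :=
      ((ContinuousLinearMap.apply ℝ Y x).continuous.tendsto g0).comp hlim
    have l1 : Tendsto (fun j => |n x - n (g (φ j) x)|) atTop (𝓝 |n x - n (g0 x)|) :=
      (tendsto_const_nhds.sub (((cont_of_lip hK0 hK).tendsto _).comp l3)).abs
    have l2 : Tendsto (fun j : ℕ => c / 2 * (1 / ((φ j : ℝ) + 1)) * ‖g (φ j) x‖) atTop
        (𝓝 (c / 2 * 0 * ‖g0 x‖)) := (hz.const_mul _).mul l3.norm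
    have := le_of_tendsto_of_tendsto' l1 l2 fun j => by
      have a := h2 (φ j) (g (φ j) x)
      rwa [hg] at a
    simp only [mul_zero, zero_mul, abs_nonpos_iff] at this
    linarith
  have hinj : Function.Injective g0 := by
    rw [injective_iff_map_eq_zero]
    intro x hx
    have a := hg0 x
    rw [hx, h0] at a
    have b := hc x
    have : ‖x‖ ≤ 0 := by nlinarith [norm_nonneg x]
    exact norm_le_zero_iff.1 this
  have hbij : Function.Bijective (g0 : Y →ₗ[ℝ] Y) :=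
    ⟨hinj, LinearMap.injective_iff_surjective.1 hinj⟩
  set h : Y →L[ℝ] Y := LinearMap.toContinuousLinearMap (LinearEquiv.ofBijective _ hbij).symm.toLinearMap
    with hh
  have hgh : ∀ x, g0 (h x) = x := fun x => (LinearEquiv.ofBijective _ hbij).apply_symm_apply x
  have l5 : Tendsto (fun j => ‖g (φ j) * h - 1‖) atTop (𝓝 ‖g0 * h - 1‖) :=
    ((hlim.mul_const h).sub_const 1).norm
  have e1 : g0 * h - 1 = 0 := by
    ext x
    simp [hgh]
  rw [e1, norm_zero] at l5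
  obtain ⟨j, hj⟩ := (l5.eventually (gt_mem_nhds hε)).exists
  obtain ⟨x, hx⟩ := h3 (φ j) (g (φ j) * h) hj
  apply hx
  rw [ContinuousLinearMap.mul_apply, hg, ← hg0 (h x), hgh]

theorem slice_fd {A : Type*} [NormedRing A] [NormedAlgebra ℝ A] [CompleteSpace A] (π : A →L[ℝ] A) :
    HasStrictFDerivAt (fun b => (1 + π b) * NormedSpace.exp (b - π b))
      (ContinuousLinearMap.id ℝ A) 0 := by
  have a1 : HasStrictFDerivAt (fun b => 1 + π b) π (0 : A) :=
    π.hasStrictFDerivAt.const_add 1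
  have a2 : HasStrictFDerivAt (fun b => b - π b) (ContinuousLinearMap.id ℝ _ - π)
      (0 : A) := (hasStrictFDerivAt_id _).sub π.hasStrictFDerivAt
  have a3 : HasStrictFDerivAt NormedSpace.exp (1 : A →L[ℝ] A)
      ((fun b => b - π b) 0) := by
    simpa using hasStrictFDerivAt_exp_zero (𝕂 := ℝ) (𝔸 := A)
  have a4 := a1.mul' (HasStrictFDerivAt.comp (f := fun b => b - π b) (0 : A) a3 a2)
  refine a4.congr_fderiv ?_
  ext1 b
  simp

theorem slice {n : Y → ℝ} {K : ℝ} (hK0 : 0 ≤ K) (hK : ∀ x y, |n x - n y| ≤ K * ‖x - y‖)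
    {c : ℝ} (hc0 : 0 < c) (hc : ∀ x, c * ‖x‖ ≤ n x) (h0 : n 0 = 0) :
    ∃ δ > 0, ∃ C ≥ 0, ∃ a : (Y → ℝ) → (Y →L[ℝ] Y),
      (∀ N : Y → ℝ, (∃ g : Y →L[ℝ] Y, ∀ x, N (g x) = n x) → (∀ x, |N x - n x| ≤ δ * ‖x‖) →
        ‖a N‖ ≤ 1 / 2 ∧ ∀ x, N (x + a N x) = n x) ∧
      ∀ (N N' : Y → ℝ) (d : ℝ), 0 ≤ d → (∃ g : Y →L[ℝ] Y, ∀ x, N (g x) = n x) →
        (∀ x, |N x - n x| ≤ δ * ‖x‖) → (∃ g : Y →L[ℝ] Y, ∀ x, N' (g x) = n x) →
        (∀ x, |N' x - n x| ≤ δ * ‖x‖) → (∀ x, |N x - N' x| ≤ d * ‖x‖) →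
        ‖a N - a N'‖ ≤ C * d := by
  obtain ⟨m, hm⟩ := Submodule.exists_isCompl (lie n K hK0 hK)
  set π : (Y →L[ℝ] Y) →L[ℝ] (Y →L[ℝ] Y) :=
    LinearMap.toContinuousLinearMap (m.projection (lie n K hK0 hK) hm.symm) with hπ
  have π1 : ∀ b, Inf n b → π b = 0 := fun b hb =>
    Submodule.projection_apply_right hm.symm ⟨b, hb⟩
  have π2 : ∀ b, π (π b) = π b := fun b =>
    Submodule.projection_apply_left hm.symm ⟨_, Submodule.projection_apply_mem hm.symm b⟩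
  have π3 : ∀ b, Inf n (b - π b) := fun b => by
    have := Submodule.projection_add_projection_eq_self hm.symm b
    have e : b - π b = (lie n K hK0 hK).projection m hm b := by
      rw [sub_eq_iff_eq_add']; exact this.symm
    rw [e]
    exact Submodule.projection_apply_mem hm b
  obtain ⟨c1, hc1, r1, hr1, AL⟩ := antilip hK0 hK π π1
  set r : ℝ := min (r1 / 4) (1 / 2 / (1 + ‖π‖)) with hr
  have hr0 : 0 < r := by positivity
  have hr2 : r * (1 + ‖π‖) ≤ 1 / 2 := by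
    have := min_le_right (r1 / 4) (1 / 2 / (1 + ‖π‖))
    rwa [← hr, le_div_iff₀ (by positivity)] at this
  have hr3 : r ≤ 1 / 2 := by nlinarith [norm_nonneg π]
  have hr4 : r ≤ r1 / 4 := min_le_left _ _
  set f : (Y →L[ℝ] Y) → (Y →L[ℝ] Y) := fun b => (1 + π b) * NormedSpace.exp (b - π b) with hf
  have hfd : HasStrictFDerivAt f (ContinuousLinearMap.id ℝ (Y →L[ℝ] Y)) 0 := slice_fd π
  have hmap := hfd.map_nhds_eq_of_surj (by simp)
  have hf0 : f 0 = 1 := by simp [hf]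
  have hball : f '' Metric.ball 0 (r / (‖π‖ + 1)) ∈ 𝓝 (1 : Y →L[ℝ] Y) := by
    rw [← hf0, ← hmap]
    exact image_mem_map (Metric.ball_mem_nhds _ (by positivity))
  obtain ⟨ε, hε, hεb⟩ := Metric.mem_nhds_iff.1 hball
  obtain ⟨δ, hδ, NI⟩ := near_id hK0 hK hc0 hc h0 ε hε
  have ex : ∀ N : Y → ℝ, ∃ a : Y →L[ℝ] Y, (∃ g : Y →L[ℝ] Y, ∀ x, N (g x) = n x) →
      (∀ x, |N x - n x| ≤ δ * ‖x‖) → π a = a ∧ ‖a‖ ≤ r ∧ ∀ x, N (x + a x) = n x := by
    intro N
    by_cases hN : (∃ g : Y →L[ℝ] Y, ∀ x, N (g x) = n x) ∧ (∀ x, |N x - n x| ≤ δ * ‖x‖)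
    · obtain ⟨g, hg1, hg2⟩ := NI N hN.1 hN.2
      obtain ⟨b, hb, hbg⟩ := hεb (show g ∈ Metric.ball 1 ε by rwa [mem_ball_iff_norm])
      refine ⟨π b, fun _ _ => ⟨π2 b, ?_, fun x => ?_⟩⟩
      · rw [mem_ball_zero_iff, lt_div_iff₀ (by positivity)] at hb
        have := π.le_opNorm b
        nlinarith [norm_nonneg b]
      · have hiso := exp_iso hK0 hK (π3 b)
        have hinj : Function.Injective (NormedSpace.exp (b - π b) : Y →L[ℝ] Y) := by
          rw [injective_iff_map_eq_zero]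
          intro x hx
          have a := hiso x
          rw [hx, h0] at a
          have b := hc x
          have : ‖x‖ ≤ 0 := by nlinarith [norm_nonneg x]
          exact norm_le_zero_iff.1 this
        obtain ⟨y, hy⟩ := (LinearMap.injective_iff_surjective
          (f := ((NormedSpace.exp (b - π b) : Y →L[ℝ] Y) : Y →ₗ[ℝ] Y))).1 hinj x
        have hy' : (NormedSpace.exp (b - π b) : Y →L[ℝ] Y) y = x := hy
        have := hg2 y
        rw [← hbg, hf] at this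
        simp only [ContinuousLinearMap.mul_apply, hy', ContinuousLinearMap.add_apply,
          ContinuousLinearMap.one_apply] at this
        rw [this, ← hiso y, hy']
    · exact ⟨0, fun h1 h2 => absurd ⟨h1, h2⟩ hN⟩
  choose a ha using ex
  refine ⟨δ, hδ, 3 / c1, by positivity, a, fun N h1 h2 => ⟨(ha N h1 h2).2.1.trans hr3,
    (ha N h1 h2).2.2⟩, fun N N' d hd h1 h2 h3 h4 h5 => ?_⟩
  obtain ⟨p1, q1, s1⟩ := ha N h1 h2
  obtain ⟨p2, q2, s2⟩ := ha N' h3 h4
  set A := a N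
  set A' := a N'
  have hu : IsUnit (1 + A) := by
    have := (Units.oneSub (-A) (by rw [norm_neg]; linarith)).isUnit
    simpa using this
  obtain ⟨u, hu⟩ := hu
  set β : Y →L[ℝ] Y := (↑u⁻¹ : Y →L[ℝ] Y) * (A' - A) with hβ
  have e1 : β + A * β = A' - A := by
    have : (1 + A) * β = A' - A := by rw [← hu, hβ, ← mul_assoc, Units.mul_inv, one_mul]
    rw [← this, add_mul, one_mul]
  have n1 : ‖A * β‖ ≤ r * ‖β‖ := (norm_mul_le _ _).trans (by gcongr)
  have n2 : ‖β‖ ≤ ‖A' - A‖ + r * ‖β‖ := by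
    have : β = (A' - A) - A * β := by rw [← e1]; abel
    calc ‖β‖ = ‖(A' - A) - A * β‖ := by rw [← this]
      _ ≤ ‖A' - A‖ + ‖A * β‖ := norm_sub_le _ _
      _ ≤ _ := by gcongr
  have n3 : ‖A' - A‖ ≤ ‖β‖ + r * ‖β‖ := by
    rw [← e1]
    exact (norm_add_le _ _).trans (by gcongr)
  have n4 : ‖A' - A‖ ≤ ‖π β‖ + ‖π‖ * (r * ‖β‖) := by
    have : A' - A = π β + π (A * β) := by rw [← map_add, e1, map_sub, p1, p2]
    rw [this]
    refine (norm_add_le _ _).trans ?_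
    gcongr
    exact (π.le_opNorm _).trans (by gcongr)
  have n5 : ‖A' - A‖ ≤ 2 * r := (norm_sub_le _ _).trans (by linarith)
  have nb := norm_nonneg β
  have key := AL β (by nlinarith) (by nlinarith) (d * 2) (by positivity) fun x => by
    have t1 := s1 (x + β x)
    have e2 : x + β x + A (x + β x) = x + A' x := by
      have := congrArg (fun T : Y →L[ℝ] Y => T x) e1
      simp only [ContinuousLinearMap.add_apply, ContinuousLinearMap.mul_apply,
        ContinuousLinearMap.sub_apply] at this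
      have h6 := eq_sub_iff_add_eq.1 this
      rw [map_add, ← h6]
      abel
    rw [← t1, e2, ← s2 x]
    refine (h5 _).trans ?_
    rw [mul_assoc]
    gcongr
    have := A'.le_opNorm x
    have := norm_add_le x (A' x)
    nlinarith [norm_nonneg x]
  rw [norm_sub_rev, div_mul_eq_mul_div, le_div_iff₀ hc1]
  nlinarith

end Pool.Agent.Lib.BF40
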