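import Mathlib

/- Homotopy invariance of the integral of a pulled back closed form over a cube. -/

namespace Pool.Agent.Lib.BF40

open Filter Topology Set MeasureTheory

variable {E : Type*} [NormedAddCommGroup E] [NormedSpace ℝ E] [FiniteDimensional ℝ E] {N : ℕ}

/-- the determinant as a continuous multilinear map -/
noncomputable def om (b : Module.Basis (Fin (N + 1)) ℝ E) :
    ContinuousMultilinearMap ℝ (fun _ : Fin (N + 1) => E) ℝ :=
  { b.det.toMultilinearMap with
    cont := by
      show Continuous fun v : Fin (N + 1) → E => (b.toMatrix v).det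
      refine Continuous.matrix_det (continuous_pi fun i => continuous_pi fun j => ?_)
      exact (b.coord i).continuous_of_finiteDimensional.comp (continuous_apply j) }

theorem om_apply (b : Module.Basis (Fin (N + 1)) ℝ E) (v : Fin (N + 1) → E) : om b v = b.det v := rfl

omit [FiniteDimensional ℝ E] in
theorem cramer_id (b : Module.Basis (Fin (N + 1)) ℝ E) (v : Fin (N + 1) → E) (y : E) :
    ∑ i, b.det (Function.update v i y) • v i = b.det v • y := by
  refine b.repr.injective (Finsupp.ext fun k => ?_)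
  have := congrFun (Matrix.mulVec_cramer (b.toMatrix v) (b.repr y)) k
  simp only [Matrix.mulVec, dotProduct, Matrix.cramer_apply, Pi.smul_apply, smul_eq_mul] at this
  simp only [map_sum, map_smul, Finsupp.coe_finset_sum, Finset.sum_apply, Finsupp.coe_smul,
    Pi.smul_apply, smul_eq_mul, Module.Basis.det_apply, Module.Basis.toMatrix_update]
  rw [← this]
  exact Finset.sum_congr rfl fun i _ => by rw [mul_comm, Module.Basis.toMatrix_apply]

omit [FiniteDimensional ℝ E] in
theorem euler {g : E → ℝ} {y : E} (hg : DifferentiableAt ℝ g y)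
    (hom : ∀ t : ℝ, 0 < t → g (t • y) = (t ^ (N + 1))⁻¹ * g y) :
    fderiv ℝ g y y = -((N + 1 : ℕ) : ℝ) * g y := by
  have h1 : HasDerivAt (fun t : ℝ => g (t • y)) (fderiv ℝ g y y) 1 := by
    have a : HasDerivAt (fun t : ℝ => t • y) y 1 := by
      simpa using (hasDerivAt_id (1 : ℝ)).smul_const y
    have b : HasFDerivAt g (fderiv ℝ g y) ((fun t : ℝ => t • y) 1) := by
      simpa using hg.hasFDerivAt
    exact b.comp_hasDerivAt 1 a
  have h2 : HasDerivAt (fun t : ℝ => (t ^ (N + 1))⁻¹ * g y) (-((N + 1 : ℕ) : ℝ) * g y) 1 := by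
    have a := ((hasDerivAt_pow (N + 1) (1 : ℝ)).inv (by simp)).mul_const (g y)
    simpa using a
  have h3 : (fun t : ℝ => g (t • y)) =ᶠ[𝓝 1] fun t : ℝ => (t ^ (N + 1))⁻¹ * g y := by
    filter_upwards [lt_mem_nhds (zero_lt_one' ℝ)] with t ht using hom t ht
  exact h1.unique (h2.congr_of_eventuallyEq h3)

/-- components of the pulled back form -/
noncomputable def comp (b : Module.Basis (Fin (N + 1)) ℝ E) (g : E → ℝ)
    (H : (Fin (N + 1) → ℝ) → E) (i : Fin (N + 1)) (z : Fin (N + 1) → ℝ) : ℝ :=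
  g (H z) * om b (fun j => Function.update (fun j => fderiv ℝ H z (Pi.single j 1)) i (H z) j)

theorem comp_div (b : Module.Basis (Fin (N + 1)) ℝ E) {g : E → ℝ} {H : (Fin (N + 1) → ℝ) → E}
    (hH : ContDiff ℝ 2 H) (z : Fin (N + 1) → ℝ) (hg : DifferentiableAt ℝ g (H z))
    (hom : ∀ t : ℝ, 0 < t → g (t • H z) = (t ^ (N + 1))⁻¹ * g (H z)) :
    (∀ i, DifferentiableAt ℝ (comp b g H i) z) ∧
      ∑ i, fderiv ℝ (comp b g H i) z (Pi.single i 1) = 0 := by
  have d1 : HasFDerivAt H (fderiv ℝ H z) z := (hH.differentiable (by simp) z).hasFDerivAt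
  have d2 : HasFDerivAt (fderiv ℝ H) (fderiv ℝ (fderiv ℝ H) z) z :=
    (((hH.fderiv_right (m := 1) (by norm_num)).differentiable (by simp)) z).hasFDerivAt
  have sy : ∀ v w, fderiv ℝ (fderiv ℝ H) z v w = fderiv ℝ (fderiv ℝ H) z w v :=
    (hH.contDiffAt.isSymmSndFDerivAt (by simp)).eq
  set D := fderiv ℝ H z with hD
  set D2 := fderiv ℝ (fderiv ℝ H) z with hD2
  set h : Fin (N + 1) → E := fun j => D (Pi.single j 1) with hh
  set G' : Fin (N + 1) → Fin (N + 1) → (Fin (N + 1) → ℝ) →L[ℝ] E := fun i j =>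
    Function.update (fun j => D2.flip (Pi.single j 1)) i D j with hG'
  have dG : ∀ i j, HasFDerivAt
      (fun z => Function.update (fun j => fderiv ℝ H z (Pi.single j 1)) i (H z) j) (G' i j) z := by
    intro i j
    by_cases hj : j = i
    · subst hj
      simpa [hG'] using d1
    · simp only [hG', Function.update_of_ne hj]
      have := d2.clm_apply (hasFDerivAt_const (Pi.single j (1 : ℝ) : Fin (N + 1) → ℝ) z)
      simpa using this
  have dc : ∀ i, HasFDerivAt (comp b g H i)
      (g (H z) • (∑ j, ((om b).toContinuousLinearMap (Function.update h i (H z)) j) ∘L (G' i j)) +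
        om b (Function.update h i (H z)) • ((fderiv ℝ g (H z)).comp D)) z := by
    intro i
    have a1 := hg.hasFDerivAt.comp z d1
    have a2 := HasFDerivAt.multilinear_comp (om b) (dG i)
    exact a1.mul a2
  refine ⟨fun i => (dc i).differentiableAt, ?_⟩
  set T : Fin (N + 1) → Fin (N + 1) → ℝ := fun i j => if j = i then 0 else
    b.det (Function.update (Function.update h i (H z)) j (D2 (Pi.single i 1) (Pi.single j 1)))
    with hT
  have anti : ∀ i j, T j i = -T i j := by
    intro i j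
    by_cases hj : j = i
    · subst hj; simp [hT]
    · have hi : ¬ i = j := fun h => hj h.symm
      simp only [hT, if_neg hj, if_neg hi]
      rw [← b.det.map_swap _ hi, sy]
      congr 1
      funext k
      simp only [Function.comp]
      by_cases k1 : k = i
      · subst k1; simp
      · by_cases k2 : k = j
        · subst k2; simp [hj, hi]
        · rw [Equiv.swap_apply_of_ne_of_ne k1 k2]
          simp [k1, k2]
  have sT : ∑ i, ∑ j, T i j = 0 := by
    have : ∑ i, ∑ j, T i j = -∑ i, ∑ j, T i j := by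
      conv_lhs => rw [Finset.sum_comm]
      rw [← Finset.sum_neg_distrib]
      refine Finset.sum_congr rfl fun i _ => ?_
      rw [← Finset.sum_neg_distrib]
      exact Finset.sum_congr rfl fun j _ => anti i j
    linarith
  have e1 : ∀ i, fderiv ℝ (comp b g H i) z (Pi.single i 1) = g (H z) * (b.det h + ∑ j, T i j) +
      fderiv ℝ g (H z) (b.det (Function.update h i (H z)) • h i) := by
    intro i
    rw [(dc i).fderiv]
    simp only [ContinuousLinearMap.add_apply, ContinuousLinearMap.smul_apply, smul_eq_mul,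
      ContinuousLinearMap.sum_apply, ContinuousLinearMap.comp_apply, map_smul,
      ContinuousMultilinearMap.toContinuousLinearMap_apply, om_apply]
    congr 2
    have : b.det h = ∑ j, if j = i then b.det h else 0 := by simp
    rw [this, ← Finset.sum_add_distrib]
    refine Finset.sum_congr rfl fun j _ => ?_
    by_cases hj : j = i
    · subst hj
      simp [hT, hG', hh]
    · simp [hT, hG', hj]
  simp only [e1]
  rw [Finset.sum_add_distrib, ← map_sum, cramer_id, ← Finset.mul_sum, Finset.sum_add_distrib, sT,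
    map_smul, euler hg hom]
  simp
  ring

/-- the cube -/
def cube (N : ℕ) : Set (Fin N → ℝ) := Icc (fun _ => -1) (fun _ => 1)

/-- the Jacobian density -/
noncomputable def jac (b : Module.Basis (Fin (N + 1)) ℝ E) (F : (Fin N → ℝ) → E)
    (w : Fin N → ℝ) : ℝ :=
  om b (Fin.cons (F w) (fun i => fderiv ℝ F w (Pi.single i 1)))

/-- weighted integral of the Jacobian density -/
noncomputable def wint (b : Module.Basis (Fin (N + 1)) ℝ E) (F : (Fin N → ℝ) → E)
    (u : (Fin N → ℝ) → ℝ) : ℝ := ∫ w in cube N, u w * jac b F w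

theorem comp_zero (b : Module.Basis (Fin (N + 1)) ℝ E) (g : E → ℝ) {H : (Fin (N + 1) → ℝ) → E}
    (hH : ContDiff ℝ 2 H) (t : ℝ) (w : Fin N → ℝ) :
    comp b g H 0 (Fin.cons t w) =
      g (H (Fin.cons t w)) * jac b (fun w => H (Fin.cons t w)) w := by
  have d1 : HasFDerivAt H (fderiv ℝ H (Fin.cons t w)) (Fin.cons t w) :=
    (hH.differentiable (by simp) _).hasFDerivAt
  have d2 : HasFDerivAt (fun w : Fin N → ℝ => (Fin.cons t w : Fin (N + 1) → ℝ))
      (ContinuousLinearMap.pi fun j => Fin.cases (motive := fun _ => (Fin N → ℝ) →L[ℝ] ℝ) 0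
        (fun i => ContinuousLinearMap.proj i) j) w := by
    rw [hasFDerivAt_pi]
    intro j
    refine Fin.cases ?_ (fun i => ?_) j
    · simpa using hasFDerivAt_const t w
    · simpa using hasFDerivAt_apply (𝕜 := ℝ) i w
  have d3 := (HasFDerivAt.comp (f := fun w : Fin N → ℝ => (Fin.cons t w : Fin (N + 1) → ℝ))
    w d1 d2).fderiv
  unfold comp jac
  congr 2
  funext j
  refine Fin.cases ?_ (fun i => ?_) j
  · simp
  · rw [Function.update_of_ne (Fin.succ_ne_zero i), Fin.cons_succ]
    have d4 : fderiv ℝ (fun w => H (Fin.cons t w)) w = _ := d3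
    rw [d4, ContinuousLinearMap.comp_apply]
    congr 1
    funext k
    refine Fin.cases ?_ (fun l => ?_) k
    · simp
    · simp [Pi.single_apply]

theorem homotopy (b : Module.Basis (Fin (N + 1)) ℝ E) {g : E → ℝ}
    (hg : ∀ y, y ≠ 0 → DifferentiableAt ℝ g y)
    (hom : ∀ y, y ≠ 0 → ∀ t : ℝ, 0 < t → g (t • y) = (t ^ (N + 1))⁻¹ * g y)
    {F G : (Fin N → ℝ) → E} (hF : ContDiff ℝ 2 F) (hG : ContDiff ℝ 2 G)
    (hne : ∀ w ∈ cube N, ∀ t ∈ Icc (0 : ℝ) 1, (1 - t) • F w + t • G w ≠ 0)
    (hbd : ∀ w ∈ cube N, (∃ i, w i = 1 ∨ w i = -1) → ∀ t ∈ Icc (0 : ℝ) 1,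
      g ((1 - t) • F w + t • G w) = 0) :
    wint b F (fun w => g (F w)) = wint b G (fun w => g (G w)) := by
  set H : (Fin (N + 1) → ℝ) → E := fun z => (1 - z 0) • F (Fin.tail z) + z 0 • G (Fin.tail z)
    with hHd
  have ht : ContDiff ℝ 2 (fun z : Fin (N + 1) → ℝ => Fin.tail z) :=
    contDiff_pi.2 fun i => contDiff_apply ℝ ℝ i.succ
  have hH : ContDiff ℝ 2 H :=
    ((contDiff_const.sub (contDiff_apply ℝ ℝ 0)).smul (hF.comp ht)).add
      ((contDiff_apply ℝ ℝ 0).smul (hG.comp ht))
  set lo : Fin (N + 1) → ℝ := Fin.cons 0 (fun _ => -1) with hlo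
  set hi : Fin (N + 1) → ℝ := Fin.cons 1 (fun _ => 1) with hhi
  have hle : lo ≤ hi := fun j => by
    refine Fin.cases ?_ (fun i => ?_) j <;> simp [hlo, hhi]
  have hmem : ∀ z ∈ Icc lo hi, z 0 ∈ Icc (0 : ℝ) 1 ∧ Fin.tail z ∈ cube N := fun z hz =>
    ⟨⟨hz.1 0, hz.2 0⟩, fun i => hz.1 i.succ, fun i => hz.2 i.succ⟩
  have hz0 : ∀ z ∈ Icc lo hi, H z ≠ 0 := fun z hz => hne _ (hmem z hz).2 _ (hmem z hz).1
  have cd := fun z (hz : z ∈ Icc lo hi) => comp_div b hH z (hg _ (hz0 z hz)) (hom _ (hz0 z hz))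
  have hI : IntegrableOn (fun z => ∑ i, fderiv ℝ (comp b g H i) z (Pi.single i 1)) (Icc lo hi) :=
    (integrableOn_zero (μ := volume)).congr_fun (fun z hz => (cd z hz).2.symm) measurableSet_Icc
  have key := integral_divergence_of_hasFDerivAt_off_countable' lo hi hle (comp b g H)
    (fun i z => fderiv ℝ (comp b g H i) z) ∅ countable_empty
    (fun i z hz => ((cd z hz).1 i).continuousAt.continuousWithinAt)
    (fun z hz i => ((cd z ⟨fun j => (hz.1 j (mem_univ j)).1.le,
      fun j => (hz.1 j (mem_univ j)).2.le⟩).1 i).hasFDerivAt) hI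
  rw [setIntegral_congr_fun measurableSet_Icc (fun z hz => (cd z hz).2), integral_zero,
    Fin.sum_univ_succ] at key
  have lat : ∀ (i : Fin N) (c : ℝ), (c = 1 ∨ c = -1) →
      ∫ x in Icc (lo ∘ i.succ.succAbove) (hi ∘ i.succ.succAbove),
        comp b g H i.succ (Fin.insertNth i.succ c x) = 0 := by
    intro i c hc
    refine setIntegral_eq_zero_of_forall_eq_zero fun x hx => ?_
    have hm : (Fin.insertNth i.succ c x : Fin (N + 1) → ℝ) ∈ Icc lo hi := by
      rw [Fin.insertNth_mem_Icc]
      refine ⟨?_, hx⟩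
      rcases hc with rfl | rfl <;> simp [hlo, hhi]
    have := hbd _ (hmem _ hm).2 ⟨i, by simpa [Fin.tail] using hc⟩ _ (hmem _ hm).1
    unfold comp
    rw [show g (H (Fin.insertNth i.succ c x)) = 0 from this, zero_mul]
  rw [Finset.sum_eq_zero (fun i _ => by
    rw [lat i (hi i.succ) (Or.inl (by simp [hhi])), lat i (lo i.succ) (Or.inr (by simp [hlo])),
      sub_self])] at key
  have e0 : (fun w => H (Fin.cons 0 w)) = F := by funext w; simp [hHd]
  have e1 : (fun w => H (Fin.cons 1 w)) = G := by funext w; simp [hHd]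
  have f0 : ∀ w, H (Fin.cons 0 w) = F w := congrFun e0
  have f1 : ∀ w, H (Fin.cons 1 w) = G w := congrFun e1
  have c1 : Icc (lo ∘ (0 : Fin (N + 1)).succAbove) (hi ∘ (0 : Fin (N + 1)).succAbove) = cube N := rfl
  rw [c1] at key
  simp only [Fin.insertNth_zero', hhi, hlo, Fin.cons_zero, comp_zero b g hH, e0, e1, f0, f1,
    add_zero] at key
  exact (sub_eq_zero.1 key.symm).symm

end Pool.Agent.Lib.BF40
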